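import Mathlib

/-!
# Square roots by Hilbert's theorem 90
-/

set_option autoImplicit false

namespace Pool.Agent.H180.RS

open NumberField

section H90

variable {L : Type} [Field L] [NumberField L] [IsGalois ℚ L]

lemma h90 {B : Gal(L/ℚ) → L} {κ : Gal(L/ℚ) → ℕ} {C : Gal(L/ℚ) → Gal(L/ℚ) → ℕ} {Γ β β' : L}
    {ℓ : ℕ} {w : ℤ} (hΓ : Γ ≠ 0) (hβ : β ≠ 0) (hβ' : β' ≠ 0) (hℓ : ℓ ≠ 0) (hw : w ≠ 0)
    (hB : ∀ σ, B σ ≠ 0) (hBC : ∀ σ τ, B σ * σ (B τ) = B (σ * τ) * (ℓ : L) ^ C σ τ)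
    (hκ : ∀ σ τ, κ σ + κ τ = κ (σ * τ) + 2 * C σ τ)
    (hΓB : ∀ σ, σ Γ * (ℓ : L) ^ κ σ = Γ * B σ ^ 2)
    (hev : ∀ σ, Even (κ σ) → σ β = β ∧ σ β' = β') (hod : ∀ σ, Odd (κ σ) → σ β = β' ∧ σ β' = β)
    (hN : β * β' = ℓ * (w : L) ^ 2) :
    ∃ (ε : L) (d : ℚ), ε ≠ 0 ∧ d ≠ 0 ∧ Γ * β = (d : L) * ε ^ 2 ∧
      (∀ σ, Even (κ σ) → σ ε * (ℓ : L) ^ (κ σ / 2) = B σ * ε) ∧
      (∀ σ, Odd (κ σ) → σ ε * (ℓ : L) ^ (κ σ / 2) * β = B σ * w * ε) := by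
  classical
  have hP : (ℓ : L) ≠ 0 := by exact_mod_cast hℓ
  have hW : (w : L) ≠ 0 := by exact_mod_cast hw
  set δ : Gal(L/ℚ) → L := fun σ => if Even (κ σ) then B σ / (ℓ : L) ^ (κ σ / 2) else
    B σ * w / ((ℓ : L) ^ (κ σ / 2) * β) with hδ
  have hδ0 : ∀ σ, δ σ ≠ 0 := by
    intro σ
    simp only [hδ]
    split_ifs
    · exact div_ne_zero (hB σ) (pow_ne_zero _ hP)
    · exact div_ne_zero (mul_ne_zero (hB σ) hW) (mul_ne_zero (pow_ne_zero _ hP) hβ)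
  have hcoc : ∀ σ τ, δ (σ * τ) = σ (δ τ) * δ σ := by
    intro σ τ
    have h1 := hBC σ τ
    have h2 := hκ σ τ
    have hPn : ∀ n, (ℓ : L) ^ n ≠ 0 := fun n => pow_ne_zero _ hP
    have hσP : ∀ n, σ ((ℓ : L) ^ n) = (ℓ : L) ^ n := fun n => by rw [map_pow, map_natCast]
    have hσw : σ (w : L) = w := map_intCast σ w
    rcases Nat.even_or_odd (κ σ) with hs | hs <;> rcases Nat.even_or_odd (κ τ) with ht | ht
    · have hst : Even (κ (σ * τ)) := by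
        rw [Nat.even_iff] at *; omega
      simp only [hδ, if_pos hs, if_pos ht, if_pos hst]
      rw [map_div₀, hσP, div_mul_div_comm, div_eq_div_iff (hPn _) (mul_ne_zero (hPn _) (hPn _)),
        ← pow_add]
      have h3 : κ τ / 2 + κ σ / 2 = κ (σ * τ) / 2 + C σ τ := by
        rw [Nat.even_iff] at *; omega
      rw [h3, pow_add]
      linear_combination (-(ℓ : L) ^ (κ (σ * τ) / 2)) * h1
    · have hst : ¬ Even (κ (σ * τ)) := by
        rw [Nat.even_iff] at *; rw [Nat.odd_iff] at *; omega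
      have ht' : ¬ Even (κ τ) := by rwa [Nat.not_even_iff_odd]
      simp only [hδ, if_pos hs, if_neg ht', if_neg hst]
      rw [map_div₀, map_mul, map_mul, hσP, hσw, (hev σ hs).1, div_mul_div_comm,
        div_eq_div_iff (mul_ne_zero (hPn _) hβ) (mul_ne_zero (mul_ne_zero (hPn _) hβ) (hPn _))]
      have h3 : κ τ / 2 + κ σ / 2 = κ (σ * τ) / 2 + C σ τ := by
        rw [Nat.even_iff] at *; rw [Nat.odd_iff] at *; omega
      have h4 : (ℓ : L) ^ (κ τ / 2) * (ℓ : L) ^ (κ σ / 2) =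
        (ℓ : L) ^ (κ (σ * τ) / 2) * (ℓ : L) ^ C σ τ := by rw [← pow_add, h3, pow_add]
      linear_combination (-(ℓ : L) ^ (κ (σ * τ) / 2) * w * β) * h1 + B (σ * τ) * w * β * h4
    · have hst : ¬ Even (κ (σ * τ)) := by
        rw [Nat.even_iff] at *; rw [Nat.odd_iff] at *; omega
      have hs' : ¬ Even (κ σ) := by rwa [Nat.not_even_iff_odd]
      simp only [hδ, if_neg hs', if_pos ht, if_neg hst]
      rw [map_div₀, hσP, div_mul_div_comm,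
        div_eq_div_iff (mul_ne_zero (hPn _) hβ) (mul_ne_zero (hPn _) (mul_ne_zero (hPn _) hβ))]
      have h3 : κ τ / 2 + κ σ / 2 = κ (σ * τ) / 2 + C σ τ := by
        rw [Nat.even_iff] at *; rw [Nat.odd_iff] at *; omega
      have h4 : (ℓ : L) ^ (κ τ / 2) * (ℓ : L) ^ (κ σ / 2) =
        (ℓ : L) ^ (κ (σ * τ) / 2) * (ℓ : L) ^ C σ τ := by rw [← pow_add, h3, pow_add]
      linear_combination (-(ℓ : L) ^ (κ (σ * τ) / 2) * w * β) * h1 + B (σ * τ) * w * β * h4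
    · have hst : Even (κ (σ * τ)) := by
        rw [Nat.even_iff]; rw [Nat.odd_iff] at *; omega
      have hs' : ¬ Even (κ σ) := by rwa [Nat.not_even_iff_odd]
      have ht' : ¬ Even (κ τ) := by rwa [Nat.not_even_iff_odd]
      simp only [hδ, if_neg hs', if_neg ht', if_pos hst]
      rw [map_div₀, map_mul, map_mul, hσP, hσw, (hod σ hs).1, div_mul_div_comm,
        div_eq_div_iff (hPn _) (mul_ne_zero (mul_ne_zero (hPn _) hβ') (mul_ne_zero (hPn _) hβ))]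
      have h3 : κ τ / 2 + κ σ / 2 + 1 = κ (σ * τ) / 2 + C σ τ := by
        rw [Nat.even_iff] at *; rw [Nat.odd_iff] at *; omega
      have h4 : (ℓ : L) ^ (κ τ / 2) * (ℓ : L) ^ (κ σ / 2) * ℓ =
        (ℓ : L) ^ (κ (σ * τ) / 2) * (ℓ : L) ^ C σ τ := by
        rw [← pow_add, ← pow_succ, h3, pow_add]
      linear_combination (-(ℓ : L) ^ (κ (σ * τ) / 2) * w ^ 2) * h1 + B (σ * τ) * w ^ 2 * h4 +
        B (σ * τ) * (ℓ : L) ^ (κ τ / 2) * (ℓ : L) ^ (κ σ / 2) * hN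
  obtain ⟨x, hx⟩ := groupCohomology.isMulCoboundary₁_of_isMulCocycle₁_of_aut_to_units
    (K := ℚ) (L := L) (fun σ => Units.mk0 (δ σ) (hδ0 σ)) (by
      intro σ τ
      apply Units.ext
      change δ (σ * τ) = σ (δ τ) * δ σ
      exact hcoc σ τ)
  set ε : L := (x : L) with hε
  have hε0 : ε ≠ 0 := x.ne_zero
  have hx' : ∀ σ : Gal(L/ℚ), σ ε = δ σ * ε := by
    intro σ
    have h1 := hx σ
    have h2 : σ • x = Units.mk0 (δ σ) (hδ0 σ) * x := div_eq_iff_eq_mul.mp h1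
    exact congrArg Units.val h2
  have r1 : ∀ σ, Even (κ σ) → σ ε * (ℓ : L) ^ (κ σ / 2) = B σ * ε := by
    intro σ hs
    rw [hx' σ]
    simp only [hδ, if_pos hs]
    field_simp
  have r2 : ∀ σ, Odd (κ σ) → σ ε * (ℓ : L) ^ (κ σ / 2) * β = B σ * w * ε := by
    intro σ hs
    have hs' : ¬ Even (κ σ) := by rwa [Nat.not_even_iff_odd]
    rw [hx' σ]
    simp only [hδ, if_neg hs']
    field_simp
  have hfix : ∀ σ : Gal(L/ℚ), σ (Γ * β / ε ^ 2) = Γ * β / ε ^ 2 := by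
    intro σ
    have hσε : σ ε ≠ 0 := by rw [Ne, map_eq_zero_iff _ σ.injective]; exact hε0
    rw [map_div₀, map_mul, map_pow, div_eq_div_iff (pow_ne_zero _ hσε) (pow_ne_zero _ hε0)]
    rcases Nat.even_or_odd (κ σ) with hs | hs
    · have h1 := r1 σ hs
      have h2 := hΓB σ
      have h3 : (ℓ : L) ^ κ σ = ((ℓ : L) ^ (κ σ / 2)) ^ 2 := by
        rw [← pow_mul]; congr 1; rw [Nat.even_iff] at hs; omega
      rw [h3] at h2
      rw [(hev σ hs).1]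
      have hp : ((ℓ : L) ^ (κ σ / 2)) ^ 2 ≠ 0 := pow_ne_zero _ (pow_ne_zero _ hP)
      apply mul_right_cancel₀ hp
      set P := (ℓ : L) ^ (κ σ / 2)
      linear_combination β * ε ^ 2 * h2 - Γ * β * (σ ε * P + B σ * ε) * h1
    · have h1 := r2 σ hs
      have h2 := hΓB σ
      have h3 : (ℓ : L) ^ κ σ = ((ℓ : L) ^ (κ σ / 2)) ^ 2 * ℓ := by
        rw [← pow_mul, ← pow_succ]; congr 1; rw [Nat.odd_iff] at hs; omega
      rw [h3] at h2
      rw [(hod σ hs).1]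
      have hp : ((ℓ : L) ^ (κ σ / 2)) ^ 2 * ℓ * β ≠ 0 :=
        mul_ne_zero (mul_ne_zero (pow_ne_zero _ (pow_ne_zero _ hP)) hP) hβ
      apply mul_right_cancel₀ hp
      set P := (ℓ : L) ^ (κ σ / 2)
      linear_combination β' * ε ^ 2 * β * h2 + Γ * B σ ^ 2 * ε ^ 2 * hN -
        Γ * ℓ * (σ ε * P * β + B σ * w * ε) * h1
  obtain ⟨d, hd⟩ := (IsGalois.mem_range_algebraMap_iff_fixed (F := ℚ) (Γ * β / ε ^ 2)).mpr hfix
  have hd' : (d : L) = Γ * β / ε ^ 2 := by rw [← hd]; simp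
  refine ⟨ε, d, hε0, ?_, ?_, r1, r2⟩
  · rintro rfl
    rw [Rat.cast_zero] at hd'
    exact (div_ne_zero (mul_ne_zero hΓ hβ) (pow_ne_zero _ hε0)) hd'.symm
  · rw [hd']
    field_simp

/-- rational numbers modulo squares -/
lemma rat_sqf {d : ℚ} (hd : d ≠ 0) : ∃ (n : ℤ) (r : ℚ), Squarefree n ∧ r ≠ 0 ∧ d = n * r ^ 2 := by
  set N : ℤ := d.num * d.den with hN
  have hN0 : N ≠ 0 := mul_ne_zero (Rat.num_ne_zero.mpr hd) (by exact_mod_cast d.den_ne_zero)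
  obtain ⟨a, b, hab, ha⟩ := Nat.sq_mul_squarefree N.natAbs
  have hb0 : b ≠ 0 := by
    rintro rfl
    rw [zero_pow two_ne_zero, zero_mul] at hab
    exact hN0 (Int.natAbs_eq_zero.mp hab.symm)
  have hden : (d.den : ℚ) ≠ 0 := by exact_mod_cast d.den_ne_zero
  have hdN : d = (N : ℚ) / (d.den : ℚ) ^ 2 := by
    rw [hN]
    push_cast
    rw [eq_div_iff (pow_ne_zero _ hden)]
    nth_rewrite 1 [← Rat.num_div_den d]
    field_simp
  have hbq : (b : ℚ) ≠ 0 := by exact_mod_cast hb0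
  rcases Int.natAbs_eq N with h | h
  · refine ⟨a, b / d.den, ?_, div_ne_zero hbq hden, ?_⟩
    · exact_mod_cast Int.squarefree_natCast.mpr ha
    · have h1 : (N : ℚ) = (b : ℚ) ^ 2 * a := by
        rw [h]
        exact_mod_cast hab.symm
      refine hdN.trans ?_
      rw [h1]
      push_cast
      field_simp
  · refine ⟨-a, b / d.den, ?_, div_ne_zero hbq hden, ?_⟩
    · rw [← Int.squarefree_natAbs, Int.natAbs_neg, Int.natAbs_natCast]
      exact ha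
    · have h1 : (N : ℚ) = -((b : ℚ) ^ 2 * a) := by
        have h2 : N = -((b ^ 2 * a : ℕ) : ℤ) := by rw [hab]; exact h
        rw [h2]
        push_cast
        ring
      refine hdN.trans ?_
      rw [h1]
      push_cast
      field_simp

/-- the square root, integral version -/
theorem h90_int {B : Gal(L/ℚ) → L} {κ : Gal(L/ℚ) → ℕ} {C : Gal(L/ℚ) → Gal(L/ℚ) → ℕ} {Γ β β' : L}
    {ℓ : ℕ} {w : ℤ} (hΓ : Γ ≠ 0) (hβ : β ≠ 0) (hβ' : β' ≠ 0) (hℓ : ℓ ≠ 0) (hw : w ≠ 0)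
    (hB : ∀ σ, B σ ≠ 0) (hBC : ∀ σ τ, B σ * σ (B τ) = B (σ * τ) * (ℓ : L) ^ C σ τ)
    (hκ : ∀ σ τ, κ σ + κ τ = κ (σ * τ) + 2 * C σ τ)
    (hΓB : ∀ σ, σ Γ * (ℓ : L) ^ κ σ = Γ * B σ ^ 2)
    (hev : ∀ σ, Even (κ σ) → σ β = β ∧ σ β' = β') (hod : ∀ σ, Odd (κ σ) → σ β = β' ∧ σ β' = β)
    (hN : β * β' = ℓ * (w : L) ^ 2) (hint : IsIntegral ℤ (Γ * β)) :
    ∃ (ε : 𝓞 L) (d : ℤ), ε ≠ 0 ∧ Squarefree d ∧ (ε : L) ^ 2 = d * (Γ * β) ∧
      (∀ σ, Even (κ σ) → σ (ε : L) * (ℓ : L) ^ (κ σ / 2) = B σ * ε) ∧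
      (∀ σ, Odd (κ σ) → σ (ε : L) * (ℓ : L) ^ (κ σ / 2) * β = B σ * w * ε) := by
  obtain ⟨ε, d, hε, hd, h1, h2, h3⟩ := h90 hΓ hβ hβ' hℓ hw hB hBC hκ hΓB hev hod hN
  obtain ⟨n, r, hn, hr, rfl⟩ := rat_sqf hd
  have hn0 : (n : L) ≠ 0 := by exact_mod_cast hn.ne_zero
  have hr0 : (r : L) ≠ 0 := by exact_mod_cast hr
  have hsq : ((n : L) * r * ε) ^ 2 = n * (Γ * β) := by
    rw [h1]
    push_cast
    ring
  have hI : IsIntegral ℤ ((n : L) * r * ε) := by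
    apply IsIntegral.of_pow (n := 2) two_pos
    rw [hsq]
    exact (isIntegral_algebraMap (R := ℤ) (A := L) (x := n)).mul hint
  refine ⟨⟨_, hI⟩, n, ?_, hn, hsq, ?_, ?_⟩
  · intro h
    have h4 := congrArg (fun z : 𝓞 L => (z : L)) h
    exact mul_ne_zero (mul_ne_zero hn0 hr0) hε h4
  · intro σ hs
    change σ ((n : L) * r * ε) * _ = _ * ((n : L) * r * ε)
    rw [map_mul, map_mul, map_intCast, map_ratCast]
    linear_combination (n : L) * r * h2 σ hs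
  · intro σ hs
    change σ ((n : L) * r * ε) * _ * _ = _ * _ * ((n : L) * r * ε)
    rw [map_mul, map_mul, map_intCast, map_ratCast]
    linear_combination (n : L) * r * h3 σ hs

end H90

end Pool.Agent.H180.RS
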