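import Mathlib

/-!
# Parity of valuations at unramified primes
-/

set_option autoImplicit false
set_option linter.unusedSectionVars false

namespace Pool.Agent.H180.RS

open NumberField UniqueFactorizationMonoid

section Val

variable {L : Type} [Field L] [NumberField L]

open scoped Classical in
/-- the multiplicity of an ideal in an element -/
noncomputable def vl (P : Ideal (𝓞 L)) (a : 𝓞 L) : ℕ :=
  (normalizedFactors (Ideal.span {a})).count P

lemma span_ne {a : 𝓞 L} (ha : a ≠ 0) : Ideal.span {a} ≠ 0 := by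
  rwa [Ne, Ideal.zero_eq_bot, Ideal.span_singleton_eq_bot]

lemma vl_mul (P : Ideal (𝓞 L)) {a b : 𝓞 L} (ha : a ≠ 0) (hb : b ≠ 0) :
    vl P (a * b) = vl P a + vl P b := by
  classical
  unfold vl
  rw [← Ideal.span_singleton_mul_span_singleton, normalizedFactors_mul (span_ne ha) (span_ne hb),
    Multiset.count_add]

lemma vl_zero {P : Ideal (𝓞 L)} {a : 𝓞 L} (ha : a ∉ P) : vl P a = 0 := by
  classical
  unfold vl
  rw [Multiset.count_eq_zero]
  intro h
  have h1 := dvd_of_mem_normalizedFactors h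
  apply ha
  exact (Ideal.dvd_span_singleton).mp h1

lemma vl_pow (P : Ideal (𝓞 L)) {a : 𝓞 L} (ha : a ≠ 0) (n : ℕ) : vl P (a ^ n) = n * vl P a := by
  induction n with
  | zero =>
    classical
    unfold vl
    rw [pow_zero, zero_mul, Ideal.span_singleton_one, ← Ideal.one_eq_top, normalizedFactors_one,
      Multiset.count_zero]
  | succ n ih =>
    rw [pow_succ, vl_mul P (pow_ne_zero _ ha) ha, ih]
    ring

end Val

/-- **Ramification.** -/
theorem ram {M : ℕ} [NeZero M] {L : Type} [Field L] [NumberField L]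
    [IsCyclotomicExtension {M} ℚ L] {r ℓ : ℕ} (hr : r.Prime) (hrM : ¬ r ∣ M) (hrℓ : ¬ r ∣ ℓ)
    {x y y' ε : 𝓞 L} {w d : ℤ} (hx : ∃ k, x ∣ (ℓ : 𝓞 L) ^ k) (hyy : y * y' = ℓ * (w : 𝓞 L) ^ 2)
    (hw : w ≠ 0) (hcop : ∃ a b c : 𝓞 L, a * r + b * y + c * y' = 1)
    (hd : ¬ ((r : ℤ) * r) ∣ d) (hd0 : d ≠ 0) (hε : ε ^ 2 = d * (x * y)) (hx0 : x ≠ 0)
    (hy0 : y ≠ 0) : ¬ (r : ℤ) ∣ d := by
  intro hrd
  have hF : Fact r.Prime := ⟨hr⟩
  have hr0 : (r : 𝓞 L) ≠ 0 := by exact_mod_cast hr.ne_zero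
  have hy'0 : y' ≠ 0 := by
    rintro rfl
    rw [mul_zero] at hyy
    have hℓ0 : ℓ ≠ 0 := by rintro rfl; exact hrℓ (dvd_zero r)
    have h1 : (ℓ : 𝓞 L) ≠ 0 := by exact_mod_cast hℓ0
    have h2 : (w : 𝓞 L) ≠ 0 := by exact_mod_cast hw
    exact mul_ne_zero h1 (pow_ne_zero _ h2) hyy.symm
  have hmax : (Ideal.span {(r : ℤ)}).IsMaximal :=
    PrincipalIdealRing.isMaximal_of_irreducible (Nat.prime_iff_prime_int.mp hr).irreducible
  obtain ⟨⟨P, hP1, hP2⟩⟩ := (Ideal.span {(r : ℤ)}).nonempty_primesOver (S := 𝓞 L)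
  have hrP : (r : 𝓞 L) ∈ P := by
    have h1 : (r : ℤ) ∈ P.under ℤ := by
      rw [← hP2.over]
      exact Ideal.mem_span_singleton_self _
    have h2 := (Ideal.mem_comap).mp h1
    simpa using h2
  have hint : ∀ a : ℤ, ¬ (r : ℤ) ∣ a → (a : 𝓞 L) ∉ P := by
    intro a ha h
    apply ha
    rw [← Ideal.mem_span_singleton, hP2.over, Ideal.under, Ideal.mem_comap]
    simpa using h
  have hvr : vl P (r : 𝓞 L) = 1 := by
    classical
    have h1 := IsCyclotomicExtension.Rat.ramificationIdx_eq_of_not_dvd r L P hrM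
    have h2 : (Ideal.span {(r : ℤ)}).map (algebraMap ℤ (𝓞 L)) ≠ ⊥ := by
      rw [Ideal.map_span, Set.image_singleton, Ne, Ideal.span_singleton_eq_bot]
      simpa using hr.ne_zero
    rw [Ideal.IsDedekindDomain.ramificationIdx_eq_normalizedFactors_count (p := Ideal.span {(r : ℤ)})
      P h2, Ideal.map_span, Set.image_singleton] at h1
    unfold vl
    convert h1 using 3
    simp
  obtain ⟨e, he⟩ := hrd
  have he0 : e ≠ 0 := by rintro rfl; rw [mul_zero] at he; exact hd0 he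
  have hre : ¬ (r : ℤ) ∣ e := by
    rintro ⟨f, hf⟩
    exact hd ⟨f, by rw [he, hf]; ring⟩
  have heL : (e : 𝓞 L) ≠ 0 := by exact_mod_cast he0
  have hdL : (d : 𝓞 L) = r * e := by rw [he]; push_cast; ring
  have hε0 : ε ≠ 0 := by
    rintro rfl
    rw [zero_pow two_ne_zero, hdL] at hε
    exact mul_ne_zero (mul_ne_zero hr0 heL) (mul_ne_zero hx0 hy0) hε.symm
  have hℓP : (ℓ : 𝓞 L) ∉ P := by
    have := hint (ℓ : ℤ) (by exact_mod_cast hrℓ)
    simpa using this
  have hxP : x ∉ P := by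
    obtain ⟨k, hk⟩ := hx
    intro h
    exact hℓP (hP1.mem_of_pow_mem k (P.mem_of_dvd hk h))
  have hyev : Even (vl P y) := by
    by_cases hyP : y ∈ P
    · have hy'P : y' ∉ P := by
        intro h
        obtain ⟨a, b, c, habc⟩ := hcop
        apply hP1.ne_top
        rw [Ideal.eq_top_iff_one, ← habc]
        exact P.add_mem (P.add_mem (P.mul_mem_left _ hrP) (P.mul_mem_left _ hyP))
          (P.mul_mem_left _ h)
      have hwL : (w : 𝓞 L) ≠ 0 := by exact_mod_cast hw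
      have hℓL : (ℓ : 𝓞 L) ≠ 0 := by
        intro h
        rw [h] at hℓP
        exact hℓP P.zero_mem
      have h1 := congrArg (vl P) hyy
      rw [vl_mul P hy0 hy'0, vl_zero hy'P, vl_mul P hℓL (pow_ne_zero _ hwL), vl_zero hℓP,
        vl_pow P hwL] at h1
      exact ⟨vl P (w : 𝓞 L), by omega⟩
    · rw [vl_zero hyP]
      exact Even.zero
  have h1 := congrArg (vl P) hε
  rw [vl_pow P hε0, hdL, vl_mul P (mul_ne_zero hr0 heL) (mul_ne_zero hx0 hy0), vl_mul P hr0 heL,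
    vl_mul P hx0 hy0, hvr, vl_zero (hint e hre), vl_zero hxP] at h1
  obtain ⟨n, hn⟩ := hyev
  omega

end Pool.Agent.H180.RS
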