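import Pool.Agent.Q59.RL.Fix

/-!
# Redei symbols of Gauss sums: statements of the parts
-/

set_option autoImplicit false

namespace Pool.Agent.H180.RS

open NumberField

/-- `p* = ± p`, congruent to `1` modulo `4` -/
def st (p : ℕ) : ℤ := if p % 4 = 1 then (p : ℤ) else -(p : ℤ)

/-- **DH.** The product formula of Davenport and Hasse over the field with `ℓ` elements. -/
def PropDH : Prop := ∀ (ℓ p : ℕ) [Fact ℓ.Prime], p.Prime → p ≠ 2 → p ∣ ℓ - 1 →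
  ∀ (χ η : MulChar (ZMod ℓ) ℂ) (ψ : AddChar (ZMod ℓ) ℂ), ψ ≠ 1 → orderOf η = p → χ ^ p ≠ 1 →
    ∏ i ∈ Finset.range p, gaussSum (χ * η ^ i) ψ =
      (χ ^ p)⁻¹ (p : ZMod ℓ) * gaussSum (χ ^ p) ψ * ∏ i ∈ Finset.Ico 1 p, gaussSum (η ^ i) ψ

/-- **REC.** Redei reciprocity. -/
def PropRec : Prop := ∀ (A : ℤ) (N ℓ : ℕ) [Fact ℓ.Prime] (x y z u v w : ℤ),
  A % 4 = 1 → Squarefree A → Squarefree N → N % 4 = 1 → ℓ % 8 = 1 → ¬ (ℓ : ℤ) ∣ A → ¬ ℓ ∣ N →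
  jacobiSym ℓ N = 1 → x ^ 2 - A * y ^ 2 = N * z ^ 2 → IsCoprime x y → z ≠ 0 → ¬ (ℓ : ℤ) ∣ z →
  u ^ 2 - A * v ^ 2 = ℓ * w ^ 2 → IsCoprime u v → w ≠ 0 → IsCoprime (x * v + y * u) (N : ℤ) →
  ∀ r : ZMod ℓ, r ^ 2 = (A : ZMod ℓ) →
    quadraticChar (ZMod ℓ) ((x : ZMod ℓ) + y * r) =
      (if Odd u ∧ Odd v then jacobiSym 2 N else 1) * jacobiSym (y * (x * v + y * u)) N

/-- **CON.** Three families of conics with rational points. -/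
def PropCon : Prop :=
  (∀ (A : ℤ) (ℓ : ℕ), ℓ.Prime → A % 4 = 1 → Squarefree A → A ≠ 1 → (4 * A) ∣ (ℓ : ℤ) - 1 →
    ∃ u v w : ℤ, IsCoprime u v ∧ w ≠ 0 ∧ u ^ 2 - A * v ^ 2 = ℓ * w ^ 2) ∧
  (∀ p q : ℕ, p.Prime → q.Prime → p ≠ 2 → p ≠ q → q % 4 = 1 → IsSquare ((p : ℕ) : ZMod q) →
    ∃ x y z : ℤ, IsCoprime x y ∧ z ≠ 0 ∧ x ^ 2 - st p * y ^ 2 = q * z ^ 2) ∧
  (∀ p q r : ℕ, p.Prime → q.Prime → r.Prime → p ≠ 2 → p ≠ q → p ≠ r → q ≠ r → q % 4 = 1 →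
    r % 4 = 1 → ¬ IsSquare ((p : ℕ) : ZMod q) → ¬ IsSquare ((p : ℕ) : ZMod r) →
    ¬ IsSquare ((q : ℕ) : ZMod r) →
    ∃ x y z : ℤ, IsCoprime x y ∧ z ≠ 0 ∧ x ^ 2 - (st p * r) * y ^ 2 = (q * r : ℕ) * z ^ 2)

/-- **SYM.** Existence of power residue symbols. -/
def PropSym : Prop := ∀ (K : Type) [Field K] [NumberField K] (m : ℕ) (ζ : 𝓞 K),
  IsPrimitiveRoot ζ m → 0 < m → ∀ (σ : K →+* ℂ) (F : Type) [Field F] [Fintype F] (φ : 𝓞 K →+* F),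
    Function.Surjective φ → m ∣ Fintype.card F - 1 →
    ∃ χ : MulChar F ℂ, Pool.Agent.Q59.RL.IsSymbol m σ φ χ

/-- **OM.** A Kummer extension of odd exponent, Galois over the rationals. -/
def PropOm : Prop := ∀ (N : ℕ) [NeZero N] (K : Type) [Field K] [NumberField K]
  [IsCyclotomicExtension {N} ℚ K] (m : ℕ), 0 < m → m ∣ N → ∀ C : Finset (𝓞 K),
    ∃ (Ω : Type) (_ : Field Ω) (_ : NumberField Ω) (j : K →+* Ω), IsGalois ℚ Ω ∧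
      (∀ c ∈ C, ∃ b : Ω, b ^ m = j c) ∧
      ∀ g : Gal(Ω/ℚ), (∀ x : K, g (j x) = j x) → g ^ m = 1

/-- **COMM.** Products of elements of quadratic fields which are not squares in a cyclotomic
field. -/
def PropComm : Prop := ∀ (M : ℕ) [NeZero M] (K : Type) [Field K] [NumberField K]
  [IsCyclotomicExtension {M} ℚ K] (κ : Type) [Fintype κ] (A D : κ → ℤ) (x y z : κ → ℤ) (ρ : κ → K),
  (∀ e, A e % 4 = 1 ∧ Squarefree (A e) ∧ A e ∣ (M : ℤ)) →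
  (∀ e, D e % 4 = 1 ∧ Squarefree (D e) ∧ D e ∣ (M : ℤ)) →
  (∀ e, x e ^ 2 - A e * y e ^ 2 = D e * z e ^ 2 ∧ z e ≠ 0) → (∀ e, ρ e ^ 2 = (A e : K)) →
  ∀ p q : ℕ, p.Prime → q.Prime → p ≠ q →
  Odd (∑ e, ((if (p : ℤ) ∣ A e ∧ (q : ℤ) ∣ D e then 1 else 0) +
    (if (q : ℤ) ∣ A e ∧ (p : ℤ) ∣ D e then 1 else 0) : ℕ)) →
  ¬ IsSquare (∏ e, ((x e : K) + y e * ρ e))

/-- **CHEB.** The choice of the prime. -/
def PropCheb : Prop := ∀ (N : ℕ) [NeZero N] (K : Type) [Field K] [NumberField K]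
  [IsCyclotomicExtension {N} ℚ K] (m M B : ℕ), Odd m → 0 < M → ∀ C : Finset (𝓞 K), 0 ∉ C →
  ∀ (κ : Type) [Fintype κ] (A D : κ → ℤ) (x y z : κ → ℤ),
  (∀ e, A e % 4 = 1 ∧ Squarefree (A e)) → (∀ e, D e % 4 = 1 ∧ Squarefree (D e)) →
  (∀ e, x e ^ 2 - A e * y e ^ 2 = D e * z e ^ 2 ∧ z e ≠ 0) →
  ∀ p q : ℕ, p.Prime → q.Prime → p ≠ q →
  Odd (∑ e, ((if (p : ℤ) ∣ A e ∧ (q : ℤ) ∣ D e then 1 else 0) +
    (if (q : ℤ) ∣ A e ∧ (p : ℤ) ∣ D e then 1 else 0) : ℕ)) →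
  ∃ (ℓ : ℕ) (_ : Fact ℓ.Prime) (φ : 𝓞 K →+* ZMod ℓ) (r : κ → ZMod ℓ), B < ℓ ∧ M ∣ ℓ - 1 ∧
    (∀ c ∈ C, ∃ b : ZMod ℓ, b ≠ 0 ∧ b ^ m = φ c) ∧ (∀ e, r e ^ 2 = (A e : ZMod ℓ)) ∧
    ∏ e, quadraticChar (ZMod ℓ) ((x e : ZMod ℓ) + y e * r e) = -1

/-- **PAR.** The parity of the number of the entries of order a power of `q`. -/
def PropPar : Prop := ∀ (N : ℕ) [NeZero N] (K : Type) [Field K] [NumberField K]
  [IsCyclotomicExtension {N} ℚ K] (σ : K →+* ℂ) (m M q b : ℕ), Odd m → m ∣ N → M * q ^ b = m →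
  0 < b → 3 ≤ M → q.Prime → M.Coprime q → ∀ s : Multiset (ZMod m × 𝓞 K), (∀ z ∈ s, z.2 ≠ 0) →
  Pool.Agent.Q59.RL.Fixed m σ s → Even (s.countP fun z => M ∣ z.1.val)

end Pool.Agent.H180.RS
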