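import Pool.Agent.H180.RS.Pt
import Pool.Agent.H180.RS.Stmts

/-!
# Redei symbols of Gauss sums: statements of the second round
-/

set_option autoImplicit false

namespace Pool.Agent.H180.RS

open Finset NumberField Filter Topology Pool.Agent.H916R2 Pool.Agent.Q59.FS Pool.Agent.Q59.RL

/-- a primitive root modulo a prime -/
noncomputable def gn (p : ℕ) : ℕ :=
  if h : p.Prime then (haveI : Fact p.Prime := ⟨h⟩; (exists_gen p).choose) else 0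

lemma gn_spec (p : ℕ) [hp : Fact p.Prime] : IsGen p (gn p) := by
  unfold gn
  rw [dif_pos hp.out]
  exact (exists_gen p).choose_spec

open scoped Classical in
/-- discrete logarithms -/
noncomputable def lg (p x : ℕ) : ℕ :=
  if h : ∃ k : ℕ, (x : ZMod p) = (gn p : ZMod p) ^ k then h.choose else 0

lemma lg_spec {p x : ℕ} [hp : Fact p.Prime] (hx : (x : ZMod p) ≠ 0) :
    (x : ZMod p) = (gn p : ZMod p) ^ lg p x := by
  have h : ∃ k : ℕ, (x : ZMod p) = (gn p : ZMod p) ^ k := by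
    obtain ⟨k, _, hk⟩ := (gn_spec p).exists_log hx
    exact ⟨k, hk⟩
  unfold lg
  rw [dif_pos h]
  exact h.choose_spec

lemma even_lg {p x : ℕ} [hp : Fact p.Prime] (hp2 : p ≠ 2) (hx : (x : ZMod p) ≠ 0) :
    Even (lg p x) ↔ IsSquare (x : ZMod p) := by
  conv_rhs => rw [lg_spec hx]
  rw [(gn_spec p).isSquare_iff hp2]

/-- the exotic class of two primes -/
noncomputable def Xc {G : Type*} [AddCommGroup G] (m p q : ℕ) (c : ZMod m → G) : G :=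
  XX m p q (gn p) (gn q) (lg p q) (lg q p) c

/-- normalised Gauss sums -/
noncomputable def nz {ℓ : ℕ} [Fact ℓ.Prime] (ψ : AddChar (ZMod ℓ) ℂ) (χ : MulChar (ZMod ℓ) ℂ) : ℂ :=
  gaussSum χ ψ / ((Real.sqrt ℓ : ℝ) : ℂ)

/-- the value of the exotic class at characters `α`, `β` of order `p`, `q` -/
noncomputable def ev {ℓ : ℕ} [Fact ℓ.Prime] (p q : ℕ) (ψ : AddChar (ZMod ℓ) ℂ)
    (α β : MulChar (ZMod ℓ) ℂ) : ℂ :=
  (∏ a ∈ range ((q - 1) / 2), ∏ b ∈ range ((p - 1) / 2), nz ψ (β ^ gn q ^ a * (α ^ gn p ^ b)⁻¹)) *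
    (∏ i ∈ range (lg q p), nz ψ (β ^ gn q ^ i)) / ∏ i ∈ range (lg p q), nz ψ (α ^ gn p ^ i)

/-- the distribution of the normalised Gauss sums -/
noncomputable def cD {ℓ m : ℕ} [Fact ℓ.Prime] (χ : MulChar (ZMod ℓ) ℂ) (ψ : AddChar (ZMod ℓ) ℂ)
    (a : ZMod m) : Additive ℂˣ :=
  if a = 0 then 0 else toU (nz ψ (χ ^ a.val))

/-- **DIST.** Normalised Gauss sums are an odd distribution. -/
def PropDist : Prop := ∀ (ℓ m : ℕ) [Fact ℓ.Prime] [NeZero m], Odd m →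
  ∀ (χ : MulChar (ZMod ℓ) ℂ) (ψ : AddChar (ZMod ℓ) ℂ), ψ ≠ 1 → orderOf χ = m →
  (∀ p : ℕ, p.Prime → p ∣ m → (χ ^ p) (p : ZMod ℓ) = 1) → OddDist (cD (m := m) χ ψ)

/-- **VAL.** The value of the exotic class. -/
def PropVal : Prop := ∀ (ℓ m p q : ℕ) [Fact ℓ.Prime] [NeZero m], Odd m → p.Prime → q.Prime →
  p ≠ q → p ∣ m → q ∣ m → ∀ (χ : MulChar (ZMod ℓ) ℂ) (ψ : AddChar (ZMod ℓ) ℂ), ψ ≠ 1 →
  orderOf χ = m → Xc m p q (cD (m := m) χ ψ) = toU (ev p q ψ (χ ^ (m / p)) (χ ^ (m / q)))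

/-- **SQ.** The value is a sign, and symmetric. -/
def PropSq : Prop := ∀ (ℓ p q : ℕ) [Fact ℓ.Prime], p.Prime → q.Prime → p ≠ 2 → q ≠ 2 → p ≠ q →
  ∀ (α β : MulChar (ZMod ℓ) ℂ) (ψ : AddChar (ZMod ℓ) ℂ), ψ ≠ 1 → orderOf α = p →
  orderOf β = q → α (q : ZMod ℓ) = 1 → β (p : ZMod ℓ) = 1 →
  ev p q ψ α β ^ 2 = 1 ∧ ev q p ψ β α = ev p q ψ α β

/-- **EVS.** The value at a split pair is a Redei symbol. -/
def PropEvS : Prop := ∀ (ℓ p q : ℕ) [Fact ℓ.Prime], p.Prime → q.Prime → p ≠ 2 → q ≠ 2 → p ≠ q →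
  ℓ % 8 = 1 → ∀ (α β : MulChar (ZMod ℓ) ℂ) (ψ : AddChar (ZMod ℓ) ℂ), ψ ≠ 1 → orderOf α = p →
  orderOf β = q → ev p q ψ α β ^ 2 = 1 → q % 4 = 1 → IsSquare ((p : ℕ) : ZMod q) →
  ∀ x y z : ℤ, IsCoprime x y → z ≠ 0 → ¬ (ℓ : ℤ) ∣ z → x ^ 2 - st p * y ^ 2 = q * z ^ 2 →
  ∀ r : ZMod ℓ, r ^ 2 = (st p : ZMod ℓ) →
    ev p q ψ α β = ((quadraticChar (ZMod ℓ) ((x : ZMod ℓ) + y * r) : ℤ) : ℂ)

/-- **EVT.** The value at a nonresidue triangle is a Redei symbol. -/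
def PropEvT : Prop := ∀ (ℓ p q r : ℕ) [Fact ℓ.Prime], p.Prime → q.Prime → r.Prime → p ≠ 2 →
  p ≠ q → p ≠ r → q ≠ r → q % 4 = 1 → r % 4 = 1 → ¬ IsSquare ((p : ℕ) : ZMod q) →
  ¬ IsSquare ((p : ℕ) : ZMod r) → ¬ IsSquare ((q : ℕ) : ZMod r) → ℓ % 8 = 1 →
  ∀ (α β γ : MulChar (ZMod ℓ) ℂ) (ψ : AddChar (ZMod ℓ) ℂ), ψ ≠ 1 → orderOf α = p →
  orderOf β = q → orderOf γ = r → ev p q ψ α β ^ 2 = 1 → ev p r ψ α γ ^ 2 = 1 →
  ev r q ψ γ β ^ 2 = 1 → ∀ x y z : ℤ, IsCoprime x y → z ≠ 0 → ¬ (ℓ : ℤ) ∣ z →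
  x ^ 2 - (st p * r) * y ^ 2 = (q * r : ℕ) * z ^ 2 →
  ∀ s : ZMod ℓ, s ^ 2 = ((st p * r : ℤ) : ZMod ℓ) →
    ev p q ψ α β * ev p r ψ α γ * ev r q ψ γ β =
      ((quadraticChar (ZMod ℓ) ((x : ZMod ℓ) + y * s) : ℤ) : ℂ)

/-- pairs of primes dividing `m` -/
def prs (m : ℕ) : Finset (ℕ × ℕ) := (m.primeFactors ×ˢ m.primeFactors).filter fun e => e.1 < e.2

open scoped Classical in
/-- every prime is in an even number of nonresidue pairs -/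
def Closed (m : ℕ) (E : Finset (ℕ × ℕ)) : Prop := ∀ r ∈ m.primeFactors,
  Even (E.filter fun e => (e.1 = r ∧ ¬ IsSquare ((e.2 : ℕ) : ZMod r)) ∨
    (e.2 = r ∧ ¬ IsSquare ((e.1 : ℕ) : ZMod r))).card

/-- the universal class of a multiset -/
def clU {m : ℕ} (s : Multiset (ZMod m)) : UD m × ZMod 2 :=
  ((s.map (cU m)).sum, ((Multiset.card s : ℕ) : ZMod 2))

/-- the condition on the primes -/
def Good (m : ℕ) : Prop := m.primeFactors.card ≤ 2 ∨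
  ∀ p ∈ m.primeFactors, ∀ q ∈ m.primeFactors, p % 4 = 3 → q % 4 = 3 → p = q

/-- **MC1.** Sums of exotic classes which are not closed are not fixed. -/
def PropMC1 : Prop := ∀ (N : ℕ) [NeZero N] (K : Type) [Field K] [NumberField K]
  [IsCyclotomicExtension {N} ℚ K] (σ : K →+* ℂ) (m : ℕ) [NeZero m], Odd m → m ∣ N →
  ∀ (ι : Type) [Fintype ι] [DecidableEq ι] [Nonempty ι] (L : ι → Multiset (ZMod m × 𝓞 K)),
  (∀ i, ∀ z ∈ L i, z.1 ≠ 0 ∧ z.2 ≠ 0) → (∀ i, ((L i).map Prod.fst).sum = 0) →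
  ∀ E ⊆ prs m, ¬ Closed m E → ∀ x ∈ Rg σ L, ∑ i, x i = 0 →
    lc (fun i => clU ((L i).map Prod.fst)) x ≠ (∑ e ∈ E, Xc m e.1 e.2 (cU m), 0)

/-- **MC2.** Nonempty closed sums of exotic classes are not fixed. -/
def PropMC2 : Prop := ∀ (N : ℕ) [NeZero N] (K : Type) [Field K] [NumberField K]
  [IsCyclotomicExtension {N} ℚ K] (σ : K →+* ℂ) (m : ℕ) [NeZero m], Odd m → m ∣ N → Good m →
  ∀ (ι : Type) [Fintype ι] [DecidableEq ι] [Nonempty ι] (L : ι → Multiset (ZMod m × 𝓞 K)),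
  (∀ i, ∀ z ∈ L i, z.1 ≠ 0 ∧ z.2 ≠ 0) → (∀ i, ((L i).map Prod.fst).sum = 0) →
  ∀ E ⊆ prs m, E.Nonempty → Closed m E → ∀ x ∈ Rg σ L,
    lc (fun i => clU ((L i).map Prod.fst)) x ≠ (∑ e ∈ E, Xc m e.1 e.2 (cU m), 0)

/-- **LAW.** The dyadic law from the independence of the exotic classes. -/
def PropLaw : Prop := ∀ (K : Type) [Field K] [NumberField K] (m : ℕ) [NeZero m]
  (A : Multiset (ZMod m) → Prop), Adm m A → 2 ≤ m → Odd m → ∀ (σ : K →+* ℂ) (ι : Type) [Fintype ι]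
  [DecidableEq ι] [Nonempty ι] (L : ι → Multiset (ZMod m × 𝓞 K)),
  (∀ i, ∀ z ∈ L i, z.1 ≠ 0 ∧ z.2 ≠ 0) → (∀ i, ((L i).map Prod.fst).sum = 0) →
  (∀ E ⊆ prs m, E.Nonempty → ∀ x ∈ Rg σ L, ∑ i, x i = 0 →
    lc (fun i => clU ((L i).map Prod.fst)) x ≠ (∑ e ∈ E, Xc m e.1 e.2 (cU m), 0)) →
  ∃ s ≤ 2 ^ (m.primeFactors.card - 1) - 1 - m.primeFactors.card.choose 2,
      (∀ k : ℕ, Nat.card {p : (Fin k → ι) × (Fin k → ι) //
          IsHodge m ((uni L p).map Prod.fst) ∧ Fixed m σ (uni L p)} ≤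
        2 ^ s * Nat.card {p : (Fin k → ι) × (Fin k → ι) //
          A ((uni L p).map Prod.fst) ∧ Fixed m σ (uni L p)}) ∧
      Tendsto (fun k : ℕ => (Nat.card {p : (Fin k → ι) × (Fin k → ι) //
          A ((uni L p).map Prod.fst) ∧ Fixed m σ (uni L p)} : ℝ) /
        Nat.card {p : (Fin k → ι) × (Fin k → ι) //
          IsHodge m ((uni L p).map Prod.fst) ∧ Fixed m σ (uni L p)}) atTop (𝓝 (1 / 2 ^ s)) ∧
      (s = 0 ↔ ∀ (k : ℕ) (p : (Fin k → ι) × (Fin k → ι)),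
        IsHodge m ((uni L p).map Prod.fst) → Fixed m σ (uni L p) → A ((uni L p).map Prod.fst))

end Pool.Agent.H180.RS
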