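import Pool.Agent.H180.RS.Cyc
import Pool.Agent.H180.RS.HLem
import Pool.Agent.H180.RS.Ram
import Pool.Agent.H180.RS.Stmts2

/-!
# The square root of a product of Gauss sums and an element of a quadratic field
-/

set_option autoImplicit false
set_option linter.unusedSectionVars false

namespace Pool.Agent.H180.RS

open Finset NumberField

section Log

variable {M : ℕ} [NeZero M] {L : Type} [Field L] [NumberField L] [IsCyclotomicExtension {M} ℚ L]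

/-- the discrete logarithm of a Galois element -/
noncomputable def kk (M : ℕ) [NeZero M] {L : Type} [Field L] [NumberField L]
    [IsCyclotomicExtension {M} ℚ L] (p : ℕ) (σ : Gal(L/ℚ)) : ℕ := lg p (ex M σ) % (p - 1)

lemma gn_mod (p : ℕ) [hp : Fact p.Prime] (a : ℕ) :
    (gn p : ZMod p) ^ (a % (p - 1)) = (gn p : ZMod p) ^ a := by
  have h := gn_spec p
  unfold IsGen at h
  rw [← h, pow_mod_orderOf]

lemma kk_spec {p : ℕ} [hp : Fact p.Prime] (hpM : p ∣ M) (σ : Gal(L/ℚ)) :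
    ((ex M σ : ℕ) : ZMod p) = (gn p : ZMod p) ^ kk M p σ := by
  unfold kk
  rw [gn_mod]
  exact lg_spec (ex_ne hpM σ)

lemma kk_lt {p : ℕ} (hp : 2 ≤ p) (σ : Gal(L/ℚ)) : kk M p σ < p - 1 :=
  Nat.mod_lt _ (by omega)

lemma gn_inj {p : ℕ} [hp : Fact p.Prime] {a b : ℕ} (ha : a < p - 1) (hb : b < p - 1)
    (h : (gn p : ZMod p) ^ a = (gn p : ZMod p) ^ b) : a = b := by
  have hg := gn_spec p
  unfold IsGen at hg
  rw [← hg] at ha hb
  exact pow_injOn_Iio_orderOf ha hb h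

lemma kk_mul {p : ℕ} [hp : Fact p.Prime] (hpM : p ∣ M) (σ τ : Gal(L/ℚ)) :
    kk M p (σ * τ) = (kk M p σ + kk M p τ) % (p - 1) := by
  apply gn_inj (kk_lt hp.out.two_le _) (Nat.mod_lt _ (by have := hp.out.two_le; omega))
  rw [gn_mod, pow_add, ← kk_spec hpM, ← kk_spec hpM, ← kk_spec hpM]
  exact ex_mul' hpM σ τ

lemma kk_eq {p : ℕ} [hp : Fact p.Prime] (hpM : p ∣ M) {σ : Gal(L/ℚ)} {a : ℕ} (ha : a < p - 1)
    (h : ((ex M σ : ℕ) : ZMod p) = (gn p : ZMod p) ^ a) : kk M p σ = a := by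
  apply gn_inj (kk_lt hp.out.two_le _) ha
  rw [← kk_spec hpM, h]

end Log

section Sys

variable {M : ℕ} [NeZero M] {L : Type} [Field L] [NumberField L] [IsCyclotomicExtension {M} ℚ L]
  {ℓ : ℕ} [hℓ : Fact ℓ.Prime]

/-- the sequence of a character, as integers of the cyclotomic field -/
noncomputable def gs (p : ℕ) (α : MulChar (ZMod ℓ) (𝓞 L)) (i : ℕ) : 𝓞 L := ga p (gn p) α i

/-- nontrivial additive characters of the prime field -/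
lemma exists_psi (ℓ : ℕ) [hℓ : Fact ℓ.Prime] : ∃ ψ : AddChar (ZMod ℓ) ℂ, ψ ≠ 1 ∧ ψ.IsPrimitive := by
  have h1 := Complex.isPrimitiveRoot_exp ℓ hℓ.out.ne_zero
  refine ⟨AddChar.zmodChar ℓ h1.pow_eq_one, ?_, ?_⟩
  · intro h
    have h2 : AddChar.zmodChar ℓ h1.pow_eq_one 1 = 1 := by rw [h]; rfl
    rw [AddChar.zmodChar_apply, ZMod.val_one_eq_one_mod, Nat.mod_eq_of_lt hℓ.out.one_lt,
      pow_one] at h2
    exact h1.ne_one hℓ.out.one_lt h2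
  · exact AddChar.zmodChar_primitive_of_primitive_root ℓ h1

lemma exists_emb (L : Type) [Field L] [NumberField L] : Nonempty (L →+* ℂ) :=
  inferInstance

lemma gs_mul {p : ℕ} [hp : Fact p.Prime] (hp2 : p ≠ 2) {α : MulChar (ZMod ℓ) (𝓞 L)}
    (hα : orderOf α = p) (i : ℕ) :
    gs p α i * gs p α (i + (p - 1) / 2) = (ℓ : 𝓞 L) ^ p := by
  obtain ⟨ι⟩ := exists_emb L
  obtain ⟨ψ, _, hψ⟩ := exists_psi ℓ
  apply jj_inj ι
  unfold gs
  rw [map_mul, map_ga, map_ga, ga_mul (by rw [orderOf_lift _ (jj_inj ι), hα]) hp2 (gn_spec p) hψ,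
    ZMod.card, map_pow, map_natCast]

lemma gs_period {p : ℕ} [hp : Fact p.Prime] (hp2 : p ≠ 2) {α : MulChar (ZMod ℓ) (𝓞 L)}
    (hα : orderOf α = p) (i : ℕ) :
    gs p α (i + ((p - 1) / 2 + (p - 1) / 2)) = gs p α i :=
  ga_period hα hp2 (gn_spec p) i

lemma smul_gs {p : ℕ} [hp : Fact p.Prime] (hpM : p ∣ M) {α : MulChar (ZMod ℓ) (𝓞 L)}
    (hα : orderOf α = p) (σ : Gal(L/ℚ)) (i : ℕ) : σ • gs p α i = gs p α (i + kk M p σ) :=
  smul_ga hpM hα σ (kk_spec hpM σ) i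

variable (M) in
/-- the cocycle, up to powers of `ℓ` -/
noncomputable def BB (S : Finset ℕ) (α : ℕ → MulChar (ZMod ℓ) (𝓞 L)) (σ : Gal(L/ℚ)) : 𝓞 L :=
  ∏ p ∈ S, bb (gs p (α p)) (kk M p σ)

/-- the product of the Gauss sums -/
noncomputable def Gm (S : Finset ℕ) (α : ℕ → MulChar (ZMod ℓ) (𝓞 L)) : 𝓞 L :=
  ∏ p ∈ S, GG (gs p (α p)) ((p - 1) / 2)

variable (M) in
/-- the exponent -/
noncomputable def kap (S : Finset ℕ) (σ : Gal(L/ℚ)) : ℕ := ∑ p ∈ S, p * kk M p σ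

variable (M) in
/-- the carries -/
noncomputable def car (S : Finset ℕ) (σ τ : Gal(L/ℚ)) : ℕ :=
  ∑ p ∈ S, p * ((p - 1) / 2 * ((kk M p σ + kk M p τ) / (p - 1)))

lemma smul_prod' (σ : Gal(L/ℚ)) {ι : Type*} (s : Finset ι) (f : ι → 𝓞 L) :
    σ • ∏ i ∈ s, f i = ∏ i ∈ s, σ • f i := by
  rw [← gh_apply, map_prod]
  rfl

variable {S : Finset ℕ} {α : ℕ → MulChar (ZMod ℓ) (𝓞 L)}

lemma BB_mul (hS : ∀ p ∈ S, p.Prime ∧ p ≠ 2 ∧ p ∣ M) (hα : ∀ p ∈ S, orderOf (α p) = p)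
    (σ τ : Gal(L/ℚ)) :
    BB M S α σ * σ • BB M S α τ = BB M S α (σ * τ) * (ℓ : 𝓞 L) ^ car M S σ τ := by
  unfold BB car
  rw [smul_prod', ← prod_pow_eq_pow_sum, ← prod_mul_distrib, ← prod_mul_distrib]
  refine prod_congr rfl fun p hp => ?_
  obtain ⟨h1, h2, h3⟩ := hS p hp
  have : Fact p.Prime := ⟨h1⟩
  have hodd := h1.eq_two_or_odd.resolve_left h2
  have htwo := h1.two_le
  have e1 : σ • bb (gs p (α p)) (kk M p τ) = ∏ i ∈ range (kk M p τ), gs p (α p) (i + kk M p σ) := by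
    unfold bb
    rw [smul_prod']
    exact prod_congr rfl fun i _ => smul_gs h3 (hα p hp) σ i
  rw [e1, ← bb_add, kk_mul h3]
  have e2 : kk M p σ + kk M p τ = (kk M p σ + kk M p τ) % (p - 1) +
      ((p - 1) / 2 + (p - 1) / 2) * ((kk M p σ + kk M p τ) / (p - 1)) := by
    rw [show (p - 1) / 2 + (p - 1) / 2 = p - 1 by omega]
    exact (Nat.mod_add_div _ _).symm
  conv_lhs => rw [e2]
  rw [bb_period' (gs_mul h2 (hα p hp)) (gs_period h2 (hα p hp)), ← pow_mul]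

lemma kap_add (hS : ∀ p ∈ S, p.Prime ∧ p ≠ 2 ∧ p ∣ M) (σ τ : Gal(L/ℚ)) :
    kap M S σ + kap M S τ = kap M S (σ * τ) + 2 * car M S σ τ := by
  unfold kap car
  rw [← sum_add_distrib, mul_sum, ← sum_add_distrib]
  refine sum_congr rfl fun p hp => ?_
  obtain ⟨h1, h2, h3⟩ := hS p hp
  have : Fact p.Prime := ⟨h1⟩
  have hodd := h1.eq_two_or_odd.resolve_left h2
  have htwo := h1.two_le
  rw [kk_mul h3]
  have e1 := Nat.mod_add_div (kk M p σ + kk M p τ) (p - 1)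
  have e2 : 2 * ((p - 1) / 2) = p - 1 := by omega
  have e3 : 2 * (p * ((p - 1) / 2 * ((kk M p σ + kk M p τ) / (p - 1)))) =
      p * ((p - 1) * ((kk M p σ + kk M p τ) / (p - 1))) := by
    calc 2 * (p * ((p - 1) / 2 * ((kk M p σ + kk M p τ) / (p - 1)))) =
        p * ((2 * ((p - 1) / 2)) * ((kk M p σ + kk M p τ) / (p - 1))) := by ring
      _ = _ := by rw [e2]
  rw [e3, ← mul_add, ← mul_add, e1]

lemma smul_Gm (hS : ∀ p ∈ S, p.Prime ∧ p ≠ 2 ∧ p ∣ M) (hα : ∀ p ∈ S, orderOf (α p) = p)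
    (σ : Gal(L/ℚ)) : (σ • Gm S α) * (ℓ : 𝓞 L) ^ kap M S σ = Gm S α * BB M S α σ ^ 2 := by
  unfold Gm kap BB
  rw [smul_prod', ← prod_pow_eq_pow_sum, ← prod_mul_distrib, ← prod_pow, ← prod_mul_distrib]
  refine prod_congr rfl fun p hp => ?_
  obtain ⟨h1, h2, h3⟩ := hS p hp
  have : Fact p.Prime := ⟨h1⟩
  rw [← GG_shift (gs_mul h2 (hα p hp)) (gs_period h2 (hα p hp)), ← pow_mul]
  congr 1
  unfold GG
  rw [smul_prod']
  exact prod_congr rfl fun i _ => smul_gs h3 (hα p hp) σ _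

lemma gs_ne {p : ℕ} [hp : Fact p.Prime] (hp2 : p ≠ 2) {α : MulChar (ZMod ℓ) (𝓞 L)}
    (hα : orderOf α = p) (i : ℕ) : gs p α i ≠ 0 := by
  intro h
  have h1 := gs_mul hp2 hα i
  rw [h, zero_mul] at h1
  have h2 : (ℓ : 𝓞 L) ≠ 0 := by exact_mod_cast hℓ.out.ne_zero
  exact pow_ne_zero _ h2 h1.symm

lemma BB_ne (hS : ∀ p ∈ S, p.Prime ∧ p ≠ 2 ∧ p ∣ M) (hα : ∀ p ∈ S, orderOf (α p) = p)
    (σ : Gal(L/ℚ)) : BB M S α σ ≠ 0 := by
  unfold BB bb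
  refine prod_ne_zero_iff.mpr fun p hp => prod_ne_zero_iff.mpr fun i _ => ?_
  obtain ⟨h1, h2, h3⟩ := hS p hp
  have : Fact p.Prime := ⟨h1⟩
  exact gs_ne h2 (hα p hp) i

lemma Gm_ne (hS : ∀ p ∈ S, p.Prime ∧ p ≠ 2 ∧ p ∣ M) (hα : ∀ p ∈ S, orderOf (α p) = p) :
    Gm S α ≠ 0 := by
  unfold Gm GG
  refine prod_ne_zero_iff.mpr fun p hp => prod_ne_zero_iff.mpr fun i _ => ?_
  obtain ⟨h1, h2, h3⟩ := hS p hp
  have : Fact p.Prime := ⟨h1⟩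
  exact gs_ne h2 (hα p hp) _

/-- the product of the Gauss sums divides a power of `ℓ` -/
lemma Gm_dvd (hS : ∀ p ∈ S, p.Prime ∧ p ≠ 2 ∧ p ∣ M) (hα : ∀ p ∈ S, orderOf (α p) = p) :
    ∃ k, Gm S α ∣ (ℓ : 𝓞 L) ^ k := by
  refine ⟨∑ p ∈ S, p * ((p - 1) / 2), ?_⟩
  unfold Gm
  rw [← prod_pow_eq_pow_sum]
  refine prod_dvd_prod_of_dvd _ _ fun p hp => ?_
  obtain ⟨h1, h2, h3⟩ := hS p hp
  have : Fact p.Prime := ⟨h1⟩
  refine ⟨bb (gs p (α p)) ((p - 1) / 2), ?_⟩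
  unfold GG bb
  rw [← prod_mul_distrib, prod_congr rfl fun i _ => by rw [mul_comm, gs_mul h2 (hα p hp) i],
    prod_const, card_range, ← pow_mul]

/-- square roots of `A` -/
lemma smul_sqrt (hS : ∀ p ∈ S, p.Prime ∧ p ≠ 2 ∧ p ∣ M) {ρ : L}
    (hρ : ρ ^ 2 = ((∏ p ∈ S, st p : ℤ) : L)) (σ : Gal(L/ℚ)) :
    σ ρ = (-1) ^ kap M S σ * ρ := by
  classical
  have h1 : ∀ p ∈ S, ∃ ρ : L, ρ ^ 2 = (st p : L) ∧ ∀ σ : Gal(L/ℚ), σ ρ = (-1) ^ kk M p σ * ρ := by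
    intro p hp
    obtain ⟨h1, h2, h3⟩ := hS p hp
    have : Fact p.Prime := ⟨h1⟩
    obtain ⟨ρ, h4, h5⟩ := exists_sqrt (L := L) h3 h2 (gn_spec p)
    exact ⟨ρ, h4, fun σ => h5 σ _ (kk_spec h3 σ)⟩
  choose! f hf1 hf2 using h1
  set ρ0 := ∏ p ∈ S, f p with hρ0
  have e1 : ρ0 ^ 2 = ρ ^ 2 := by
    rw [hρ, hρ0, ← prod_pow, Int.cast_prod]
    exact prod_congr rfl fun p hp => hf1 p hp
  have e2 : σ ρ0 = (-1) ^ kap M S σ * ρ0 := by
    rw [hρ0, map_prod]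
    unfold kap
    rw [← prod_pow_eq_pow_sum, ← prod_mul_distrib]
    refine prod_congr rfl fun p hp => ?_
    rw [hf2 p hp σ]
    congr 1
    obtain ⟨h1, h2, h3⟩ := hS p hp
    rw [pow_mul, (h1.odd_of_ne_two h2).neg_one_pow]
  rcases sq_eq_sq_iff_eq_or_eq_neg.mp e1 with h | h
  · rw [← h, e2]
  · have h' : ρ = - ρ0 := by rw [h, neg_neg]
    rw [h', map_neg, e2]
    ring

end Sys

end Pool.Agent.H180.RS
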