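import Mathlib

/-!
# Products of periodic sequences
-/

set_option autoImplicit false

namespace Pool.Agent.H180.RS

open Finset

section Seq

variable {R : Type*} [CommRing R]

/-- partial products -/
def bb (γ : ℕ → R) (k : ℕ) : R := ∏ i ∈ range k, γ i

/-- the product over the second half -/
def GG (γ : ℕ → R) (n : ℕ) : R := ∏ i ∈ range n, γ (i + n)

variable {γ : ℕ → R} {n : ℕ} {Λ : R}

lemma bb_add (γ : ℕ → R) (a b : ℕ) : bb γ (a + b) = bb γ a * ∏ i ∈ range b, γ (i + a) := by
  unfold bb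
  rw [prod_range_add]
  congr 1
  exact prod_congr rfl fun i _ => by rw [add_comm]

lemma bb_two (h1 : ∀ i, γ i * γ (i + n) = Λ) : bb γ (n + n) = Λ ^ n := by
  rw [bb_add]
  unfold bb
  rw [← prod_mul_distrib, prod_congr rfl fun i _ => h1 i, prod_const, card_range]

lemma bb_period (h1 : ∀ i, γ i * γ (i + n) = Λ) (h2 : ∀ i, γ (i + (n + n)) = γ i) (k : ℕ) :
    bb γ (k + (n + n)) = bb γ k * Λ ^ n := by
  rw [add_comm, bb_add, bb_two h1, mul_comm]
  congr 1
  exact prod_congr rfl fun i _ => h2 i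

lemma bb_period' (h1 : ∀ i, γ i * γ (i + n) = Λ) (h2 : ∀ i, γ (i + (n + n)) = γ i) (k c : ℕ) :
    bb γ (k + (n + n) * c) = bb γ k * Λ ^ (n * c) := by
  induction c with
  | zero => simp
  | succ c ih =>
    rw [Nat.mul_succ, ← add_assoc, bb_period h1 h2, ih, Nat.mul_succ, pow_add, mul_assoc]

/-- the shift of the product over the second half -/
lemma GG_shift (h1 : ∀ i, γ i * γ (i + n) = Λ) (h2 : ∀ i, γ (i + (n + n)) = γ i) (k : ℕ) :
    (∏ i ∈ range n, γ (i + n + k)) * Λ ^ k = GG γ n * bb γ k ^ 2 := by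
  have e1 : (∏ i ∈ range k, γ (i + n)) * ∏ i ∈ range n, γ (i + n + k) = GG γ n * bb γ k := by
    have f1 : ∏ i ∈ range (k + n), γ (i + n) =
        (∏ i ∈ range k, γ (i + n)) * ∏ i ∈ range n, γ (i + n + k) := by
      rw [prod_range_add]
      congr 1
      exact prod_congr rfl fun i _ => by rw [add_comm k i, add_right_comm]
    have f2 : ∏ i ∈ range (n + k), γ (i + n) = GG γ n * bb γ k := by
      rw [prod_range_add]
      unfold GG bb
      congr 1
      exact prod_congr rfl fun i _ => by rw [add_comm n i, add_assoc, h2]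
    rw [← f1, add_comm k n, f2]
  have e2 : Λ ^ k = bb γ k * ∏ i ∈ range k, γ (i + n) := by
    unfold bb
    rw [← prod_mul_distrib, prod_congr rfl fun i _ => h1 i, prod_const, card_range]
  rw [e2]
  linear_combination bb γ k * e1

end Seq

end Pool.Agent.H180.RS
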