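import Pool.Agent.H180.RS.Pt
import Pool.Agent.H180.RS.Seq

/-!
# Powers of Gauss sums as cyclotomic integers
-/

set_option autoImplicit false
set_option linter.unusedSectionVars false

namespace Pool.Agent.H180.RS

open Finset NumberField

section Gam

variable {F : Type} [Field F] [Fintype F] {R : Type*} [CommRing R] [IsDomain R]

/-- the `n`-th power of the Gauss sum of a character of order `n` -/
noncomputable def gam (n : ℕ) (χ : MulChar F R) : R :=
  χ (-1) * Fintype.card F * ∏ i ∈ Ico 1 (n - 1), jacobiSum χ (χ ^ i)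

lemma gam_eq {n : ℕ} {χ : MulChar F R} (hn : 2 ≤ n) (hχ : orderOf χ = n) {ψ : AddChar F R}
    (hψ : ψ.IsPrimitive) : gam n χ = gaussSum χ ψ ^ n := by
  have h1 := gaussSum_pow_eq_prod_jacobiSum (χ := χ) (ψ := ψ) (by rw [hχ]; exact hn) hψ
  rw [hχ] at h1
  exact h1.symm

lemma map_gam {R' : Type*} [CommRing R'] [IsDomain R'] (f : R →+* R') (n : ℕ) (χ : MulChar F R) :
    f (gam n χ) = gam n (χ.ringHomComp f) := by
  unfold gam
  rw [map_mul, map_mul, map_natCast, map_prod]
  congr 1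
  refine prod_congr rfl fun i _ => ?_
  rw [MulChar.ringHomComp_pow, jacobiSum_ringHomComp]

lemma neg_one_eq_one {χ : MulChar F R} (h : Odd (orderOf χ)) : χ (-1) = 1 := by
  have h1 : χ (-1) * χ (-1) = 1 := by
    rw [← map_mul, neg_mul_neg, one_mul, map_one]
  rcases mul_self_eq_one_iff.mp h1 with h2 | h2
  · exact h2
  · have h3 : (χ ^ orderOf χ) (-1) = 1 := by
      rw [pow_orderOf_eq_one]
      exact MulChar.one_apply (isUnit_iff_ne_zero.mpr (neg_ne_zero.mpr one_ne_zero))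
    rw [MulChar.pow_apply' χ h.pos.ne', h2, h.neg_one_pow] at h3
    rw [h2, h3]

lemma gauss_mul_inv {χ : MulChar F R} (hχ : χ ≠ 1) (h : χ (-1) = 1) {ψ : AddChar F R}
    (hψ : ψ.IsPrimitive) : gaussSum χ ψ * gaussSum χ⁻¹ ψ = Fintype.card F := by
  have h1 := gaussSum_mul_gaussSum_eq_card hχ hψ
  have h2 := mul_gaussSum_inv_eq_gaussSum χ⁻¹ ψ
  rw [← h2]
  rw [MulChar.inv_apply', inv_neg_one, h, one_mul, h1]

lemma gam_mul_inv {n : ℕ} {χ : MulChar F R} (hn : 2 ≤ n) (hodd : Odd n) (hχ : orderOf χ = n)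
    {ψ : AddChar F R} (hψ : ψ.IsPrimitive) : gam n χ * gam n χ⁻¹ = (Fintype.card F : R) ^ n := by
  have h1 : χ ≠ 1 := by
    rintro rfl
    rw [orderOf_one] at hχ
    omega
  rw [gam_eq hn hχ hψ, gam_eq hn (by rw [orderOf_inv]; exact hχ) hψ, ← mul_pow,
    gauss_mul_inv h1 (neg_one_eq_one (by rw [hχ]; exact hodd)) hψ]

end Gam

section Lift

variable {F : Type} [Field F] [Fintype F] {R R' : Type*} [CommRing R] [CommRing R']

/-- characters lift to subrings which contain their values -/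
lemma exists_lift (j : R →+* R') (hj : Function.Injective j) (χ : MulChar F R')
    (h : ∀ x, ∃ y, j y = χ x) : ∃ χ' : MulChar F R, χ'.ringHomComp j = χ := by
  choose f hf using h
  refine ⟨{ toFun := f, map_one' := ?_, map_mul' := ?_, map_nonunit' := ?_ }, ?_⟩
  · apply hj
    rw [hf, map_one, map_one]
  · intro x y
    apply hj
    rw [hf, map_mul, map_mul, hf, hf]
  · intro x hx
    apply hj
    rw [hf, MulChar.map_nonunit _ hx, map_zero]
  · ext x
    exact hf x

lemma orderOf_lift (j : R →+* R') (hj : Function.Injective j) (χ : MulChar F R) :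
    orderOf (χ.ringHomComp j) = orderOf χ :=
  orderOf_injective (MulChar.ringHomCompHom j) (MulChar.injective_ringHomComp hj) χ

/-- additive characters lift -/
lemma exists_lift_add (j : R →+* R') (hj : Function.Injective j) (ψ : AddChar F R')
    (h : ∀ x, ∃ y, j y = ψ x) : ∃ ψ' : AddChar F R, ∀ x, j (ψ' x) = ψ x := by
  choose f hf using h
  refine ⟨{ toFun := f, map_zero_eq_one' := ?_, map_add_eq_mul' := ?_ }, hf⟩
  · apply hj
    rw [hf, AddChar.map_zero_eq_one, map_one]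
  · intro x y
    apply hj
    rw [hf, AddChar.map_add_eq_mul, map_mul, hf, hf]

lemma gauss_lift (j : R →+* R') (χ : MulChar F R) (ψ : AddChar F R) (ψ' : AddChar F R')
    (h : ∀ x, j (ψ x) = ψ' x) : j (gaussSum χ ψ) = gaussSum (χ.ringHomComp j) ψ' := by
  unfold gaussSum
  rw [map_sum]
  exact sum_congr rfl fun x _ => by rw [map_mul, h]; rfl

end Lift

section Sq

variable {F : Type} [Field F] [Fintype F] {R : Type*} [CommRing R] [IsDomain R]
  {p g : ℕ} [hp : Fact p.Prime]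

/-- the sequence -/
noncomputable def ga (p g : ℕ) (α : MulChar F R) (i : ℕ) : R := gam p (α ^ g ^ i)

lemma pow_congr {α : MulChar F R} (hα : orderOf α = p) {a b : ℕ} (h : (a : ZMod p) = b) :
    α ^ a = α ^ b := by
  rw [pow_eq_pow_iff_modEq, hα]
  exact (ZMod.natCast_eq_natCast_iff _ _ _).mp h

lemma pow_inv {α : MulChar F R} (hα : orderOf α = p) {a b : ℕ} (h : (a : ZMod p) = -(b : ZMod p)) :
    α ^ a = (α ^ b)⁻¹ := by
  rw [eq_inv_iff_mul_eq_one, ← pow_add, ← orderOf_dvd_iff_pow_eq_one, hα,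
    ← ZMod.natCast_eq_zero_iff]
  push_cast
  rw [h, neg_add_cancel]

lemma orderOf_pow_gen {α : MulChar F R} (hα : orderOf α = p) (hg : IsGen p g) (i : ℕ) :
    orderOf (α ^ g ^ i) = p := by
  rw [Nat.Coprime.orderOf_pow, hα]
  rw [hα, Nat.coprime_comm]
  apply (Nat.Coprime.pow_left i)
  rw [Nat.coprime_comm, Nat.Prime.coprime_iff_not_dvd hp.out, ← ZMod.natCast_eq_zero_iff]
  exact hg.ne_zero

lemma ga_add_half {α : MulChar F R} (hα : orderOf α = p) (hp2 : p ≠ 2) (hg : IsGen p g) (i : ℕ) :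
    α ^ g ^ (i + (p - 1) / 2) = (α ^ g ^ i)⁻¹ :=
  pow_inv hα (by push_cast; exact hg.half_add hp2 i)

lemma ga_period {α : MulChar F R} (hα : orderOf α = p) (hp2 : p ≠ 2) (hg : IsGen p g) (i : ℕ) :
    ga p g α (i + ((p - 1) / 2 + (p - 1) / 2)) = ga p g α i := by
  unfold ga
  rw [← add_assoc, ga_add_half hα hp2 hg, ga_add_half hα hp2 hg, inv_inv]

lemma ga_mul {α : MulChar F R} (hα : orderOf α = p) (hp2 : p ≠ 2) (hg : IsGen p g)
    {ψ : AddChar F R} (hψ : ψ.IsPrimitive) (i : ℕ) :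
    ga p g α i * ga p g α (i + (p - 1) / 2) = (Fintype.card F : R) ^ p := by
  unfold ga
  rw [ga_add_half hα hp2 hg]
  exact gam_mul_inv hp.out.two_le (hp.out.odd_of_ne_two hp2) (orderOf_pow_gen hα hg i) hψ

lemma map_ga {R' : Type*} [CommRing R'] [IsDomain R'] (f : R →+* R') (α : MulChar F R) (i : ℕ) :
    f (ga p g α i) = ga p g (α.ringHomComp f) i := by
  unfold ga
  rw [map_gam, MulChar.ringHomComp_pow]

end Sq

end Pool.Agent.H180.RS
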