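import Pool.Agent.H180.RS.Core

/-!
# The square root: the main statement
-/

set_option autoImplicit false
set_option linter.unusedSectionVars false

namespace Pool.Agent.H180.RS

open Finset NumberField

section Core

variable {M : ℕ} [NeZero M] {L : Type} [Field L] [NumberField L] [IsCyclotomicExtension {M} ℚ L]
  {ℓ : ℕ} [hℓ : Fact ℓ.Prime] {S : Finset ℕ} {α : ℕ → MulChar (ZMod ℓ) (𝓞 L)}

lemma st_dvd {p : ℕ} : st p ∣ (p : ℤ) ∧ (p : ℤ) ∣ st p := by
  unfold st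
  split_ifs
  · exact ⟨dvd_rfl, dvd_rfl⟩
  · exact ⟨⟨-1, by ring⟩, ⟨-1, by ring⟩⟩

lemma st_mod {p : ℕ} (hp : p.Prime) (hp2 : p ≠ 2) : st p % 4 = 1 := by
  have := hp.eq_two_or_odd.resolve_left hp2
  unfold st
  split_ifs with h
  · omega
  · omega

lemma prod_mod {S : Finset ℕ} (hS : ∀ p ∈ S, p.Prime ∧ p ≠ 2) : (∏ p ∈ S, st p) % 4 = 1 := by
  classical
  induction S using Finset.induction_on with
  | empty => simp
  | insert a S ha ih =>
    rw [prod_insert ha, Int.mul_emod, ih fun p hp => hS p (mem_insert_of_mem hp),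
      st_mod (hS a (mem_insert_self a S)).1 (hS a (mem_insert_self a S)).2]
    norm_num

lemma prime_dvd_prod {S : Finset ℕ} {r : ℕ} (hr : r.Prime) (hS : ∀ p ∈ S, p.Prime ∧ p ≠ 2 ∧ p ∣ M)
    (h : (r : ℤ) ∣ ∏ p ∈ S, st p) : r ∣ M := by
  have hr' : Prime (r : ℤ) := Nat.prime_iff_prime_int.mp hr
  obtain ⟨p, hp, h1⟩ := (hr'.dvd_finsetProd_iff st).mp h
  have h2 : (r : ℤ) ∣ (p : ℤ) := h1.trans st_dvd.1
  have h3 : r ∣ p := by exact_mod_cast h2
  exact h3.trans (hS p hp).2.2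

/-- **The square root.** -/
theorem core (hM : Odd M) (hℓ2 : ℓ ≠ 2)
    (hS : ∀ p ∈ S, p.Prime ∧ p ≠ 2 ∧ p ∣ M) (hα : ∀ p ∈ S, orderOf (α p) = p) {ρ : 𝓞 L}
    {u v w : ℤ} (hρ : ρ ^ 2 = ((∏ p ∈ S, st p : ℤ) : 𝓞 L)) (huv : IsCoprime u v) (hw : w ≠ 0)
    (hN : u ^ 2 - (∏ p ∈ S, st p) * v ^ 2 = ℓ * w ^ 2) :
    ∃ (ε : 𝓞 L) (d : ℤ), ε ≠ 0 ∧ Squarefree d ∧ ε ^ 2 = d * (Gm S α * (u + v * ρ)) ∧
      (∀ σ : Gal(L/ℚ), Even (kap M S σ) →
        (σ • ε) * (ℓ : 𝓞 L) ^ (kap M S σ / 2) = BB M S α σ * ε) ∧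
      (∀ σ : Gal(L/ℚ), Odd (kap M S σ) →
        (σ • ε) * (ℓ : 𝓞 L) ^ (kap M S σ / 2) * (u + v * ρ) = BB M S α σ * w * ε) ∧
      (∀ r : ℕ, r.Prime → (r : ℤ) ∣ d → r = 2 ∨ r = ℓ ∨ r ∣ M) ∧
      ((2 : ℤ) ∣ d ↔ Odd u ∧ Odd v) := by
  have : IsGalois ℚ L := IsCyclotomicExtension.isGalois {M} ℚ L
  set A : ℤ := ∏ p ∈ S, st p with hA
  have hodd : ¬ (2 ∣ M) := by
    intro h
    rw [Nat.odd_iff] at hM
    omega
  have hℓo := hℓ.out.eq_two_or_odd.resolve_left hℓ2
  have hA4 : A % 4 = 1 := prod_mod fun p hp => ⟨(hS p hp).1, (hS p hp).2.1⟩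
  have hρL : (ρ : L) ^ 2 = (A : L) := by
    have := congrArg (algebraMap (𝓞 L) L) hρ
    simpa using this
  set β : 𝓞 L := u + v * ρ with hβ
  set β' : 𝓞 L := u - v * ρ with hβ'
  have hββ : β * β' = ((ℓ * w ^ 2 : ℤ) : 𝓞 L) := by
    rw [← hN, hβ, hβ']
    push_cast
    linear_combination (-(v : 𝓞 L) ^ 2) * hρ
  have hℓ0 : (ℓ : 𝓞 L) ≠ 0 := by exact_mod_cast hℓ.out.ne_zero
  have hw0 : (w : 𝓞 L) ≠ 0 := by exact_mod_cast hw
  have hββ' : β * β' = ℓ * (w : 𝓞 L) ^ 2 := by rw [hββ]; push_cast; ring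
  have hne : β * β' ≠ 0 := by
    rw [hββ']
    exact mul_ne_zero hℓ0 (pow_ne_zero _ hw0)
  have hβ0 : β ≠ 0 := left_ne_zero_of_mul hne
  have hβ'0 : β' ≠ 0 := right_ne_zero_of_mul hne
  have hG0 := Gm_ne hS hα
  have coe_ne : ∀ x : 𝓞 L, x ≠ 0 → (x : L) ≠ 0 := fun x hx => by
    rw [Ne, RingOfIntegers.coe_eq_zero_iff]; exact hx
  have hσρ : ∀ σ : Gal(L/ℚ), σ (ρ : L) = (-1) ^ kap M S σ * (ρ : L) := fun σ =>
    smul_sqrt hS hρL σ
  have cβ : (β : L) = u + v * (ρ : L) := by rw [hβ]; simp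
  have cβ' : (β' : L) = u - v * (ρ : L) := by rw [hβ']; simp
  have hev : ∀ σ : Gal(L/ℚ), Even (kap M S σ) → σ (β : L) = β ∧ σ (β' : L) = β' := by
    intro σ hs
    have h1 := hσρ σ
    rw [hs.neg_one_pow, one_mul] at h1
    rw [cβ, cβ', map_add, map_sub, map_mul, map_intCast, map_intCast, h1]
    exact ⟨rfl, rfl⟩
  have hod : ∀ σ : Gal(L/ℚ), Odd (kap M S σ) → σ (β : L) = β' ∧ σ (β' : L) = β := by
    intro σ hs
    have h1 := hσρ σ
    rw [hs.neg_one_pow] at h1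
    rw [cβ, cβ', map_add, map_sub, map_mul, map_intCast, map_intCast, h1]
    constructor <;> ring
  obtain ⟨ε, d, hε, hd, e1, e2, e3⟩ := h90_int (L := L) (B := fun σ => (BB M S α σ : L))
    (κ := kap M S) (C := car M S) (Γ := (Gm S α : L)) (β := (β : L)) (β' := (β' : L)) (ℓ := ℓ)
    (w := w) (coe_ne _ hG0) (coe_ne _ hβ0) (coe_ne _ hβ'0) hℓ.out.ne_zero hw
    (fun σ => coe_ne _ (BB_ne hS hα σ))
    (fun σ τ => by
      have h1 := congrArg (algebraMap (𝓞 L) L) (BB_mul hS hα σ τ)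
      rw [map_mul, map_mul, map_pow, map_natCast] at h1
      exact h1)
    (kap_add hS)
    (fun σ => by
      have h1 := congrArg (algebraMap (𝓞 L) L) (smul_Gm hS hα σ)
      rw [map_mul, map_mul, map_pow, map_pow, map_natCast] at h1
      exact h1)
    hev hod
    (by
      have h1 := congrArg (algebraMap (𝓞 L) L) hββ'
      rw [map_mul, map_mul, map_pow, map_natCast, map_intCast] at h1
      exact h1)
    (by
      have h1 : (Gm S α : L) * (β : L) = ((Gm S α * β : 𝓞 L) : L) := by simp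
      rw [h1]
      exact RingOfIntegers.isIntegral_coe _)
  have e1' : ε ^ 2 = d * (Gm S α * β) := by
    apply RingOfIntegers.coe_injective
    have h1 : ((ε ^ 2 : 𝓞 L) : L) = (ε : L) ^ 2 := by simp
    have h2 : ((d * (Gm S α * β) : 𝓞 L) : L) = d * ((Gm S α : L) * (β : L)) := by simp
    change ((ε ^ 2 : 𝓞 L) : L) = ((d * (Gm S α * β) : 𝓞 L) : L)
    rw [h1, h2, e1]
  -- primes dividing `d`
  have hprime : ∀ r : ℕ, r.Prime → r ≠ 2 → r ≠ ℓ → ¬ r ∣ M → ¬ (r : ℤ) ∣ d := by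
    intro r hr hr2 hrℓ hrM
    have hrr : ¬ ((r : ℤ) * r) ∣ d := by
      intro h
      exact (Nat.prime_iff_prime_int.mp hr).not_isUnit (hd _ h)
    refine ram (M := M) (L := L) (ℓ := ℓ) hr hrM (fun h => hrℓ ((Nat.prime_dvd_prime_iff_eq hr hℓ.out).mp h))
      (Gm_dvd hS hα) hββ' hw ?_ hrr hd.ne_zero e1' hG0 hβ0
    have hr' : Prime (r : ℤ) := Nat.prime_iff_prime_int.mp hr
    have hr2' : ¬ (r : ℤ) ∣ 2 := by
      intro h
      have h1 : r ∣ 2 := by exact_mod_cast h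
      exact hr2 ((Nat.prime_dvd_prime_iff_eq hr Nat.prime_two).mp h1)
    -- integers
    have hcop : ∃ a b c : ℤ, a * r + b * (2 * u) + c * (4 * v ^ 2 * A) = 1 := by
      by_cases hru : (r : ℤ) ∣ u
      · have hrv : ¬ (r : ℤ) ∣ v := by
          intro h
          exact hr'.not_isUnit (huv.isUnit_of_dvd' hru h)
        have hrA : ¬ (r : ℤ) ∣ A := fun h => hrM (prime_dvd_prod hr hS h)
        have h1 : ¬ (r : ℤ) ∣ 4 * v ^ 2 * A := by
          intro h
          rcases hr'.dvd_or_dvd h with h | h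
          · rcases hr'.dvd_or_dvd h with h | h
            · have : (4 : ℤ) = 2 * 2 := by norm_num
              rw [this] at h
              rcases hr'.dvd_or_dvd h with h | h <;> exact hr2' h
            · exact hrv (hr'.dvd_of_dvd_pow h)
          · exact hrA h
        obtain ⟨a, c, hac⟩ := (hr'.coprime_iff_not_dvd).mpr h1
        exact ⟨a, 0, c, by linear_combination hac⟩
      · have h1 : ¬ (r : ℤ) ∣ 2 * u := by
          intro h
          rcases hr'.dvd_or_dvd h with h | h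
          · exact hr2' h
          · exact hru h
        obtain ⟨a, b, hab⟩ := (hr'.coprime_iff_not_dvd).mpr h1
        exact ⟨a, b, 0, by linear_combination hab⟩
    obtain ⟨a, b, c, habc⟩ := hcop
    refine ⟨a, b + c * (β - β'), b - c * (β - β'), ?_⟩
    have h1 := congrArg (Int.cast : ℤ → 𝓞 L) habc
    push_cast at h1
    rw [← h1, hβ, hβ']
    linear_combination (4 * (v : 𝓞 L) ^ 2 * c) * hρ
  have h2r : ¬ ((2 : ℕ) : ℤ) * ((2 : ℕ) : ℤ) ∣ d := by
    intro h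
    exact Int.prime_two.not_isUnit (hd _ h)
  have hfin : (2 : ℤ) ∣ d ↔ Odd u ∧ Odd v := by
    constructor
    · intro h2d
      by_contra hcon
      have hoddN : ¬ (2 : ℤ) ∣ ℓ * w ^ 2 := by
        rw [← hN]
        have hAo : A % 2 = 1 := by omega
        have h1 : ¬ (Even u ∧ Even v) := by
          rintro ⟨⟨a, ha⟩, ⟨b, hb⟩⟩
          exact Int.prime_two.not_isUnit
            (huv.isUnit_of_dvd' (x := 2) ⟨a, by rw [ha]; ring⟩ ⟨b, by rw [hb]; ring⟩)
        rw [← even_iff_two_dvd, Int.even_sub, Int.even_pow, Int.even_mul, Int.even_pow]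
        have hAe : ¬ Even A := by rw [Int.even_iff]; omega
        rw [← Int.not_even_iff_odd, ← Int.not_even_iff_odd] at hcon
        simp only [ne_eq, OfNat.ofNat_ne_zero, not_false_eq_true, and_true]
        tauto
      have h3 : IsCoprime ((2 : ℤ)) (ℓ * w ^ 2) := (Int.prime_two.coprime_iff_not_dvd).mpr hoddN
      obtain ⟨a, b, hab⟩ := h3
      refine ram (M := M) (L := L) (ℓ := ℓ) Nat.prime_two hodd
        (fun h => by omega) (Gm_dvd hS hα) hββ' hw
        ⟨a, b * β', 0, ?_⟩ h2r hd.ne_zero e1' hG0 hβ0 (by exact_mod_cast h2d)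
      have h1 := congrArg (Int.cast : ℤ → 𝓞 L) hab
      push_cast at h1 hββ ⊢
      linear_combination h1 + b * hββ
    · rintro ⟨hu, hv⟩
      by_contra h2d
      -- the half of `β`
      obtain ⟨u1, hu1⟩ := hu
      obtain ⟨v1, hv1⟩ := hv
      have h4 : (4 : ℤ) ∣ u ^ 2 - A * v ^ 2 := by
        obtain ⟨a, ha⟩ : ∃ a, A = 4 * a + 1 := ⟨A / 4, by omega⟩
        rw [hu1, hv1, ha]
        exact ⟨u1 ^ 2 + u1 - (4 * a + 1) * (v1 ^ 2 + v1) - a, by ring⟩
      have hw2 : (2 : ℤ) ∣ w := by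
        rw [hN] at h4
        have h5 : (2 : ℤ) ∣ ℓ * w ^ 2 := (by norm_num : (2 : ℤ) ∣ 4).trans h4
        rcases Int.prime_two.dvd_or_dvd h5 with h6 | h6
        · exfalso; omega
        · exact Int.prime_two.dvd_of_dvd_pow h6
      obtain ⟨w1, hw1⟩ := hw2
      obtain ⟨n, hn⟩ := h4
      have hint : ∀ s : ℤ, s = 1 ∨ s = -1 →
          IsIntegral ℤ (((u : L) + s * v * (ρ : L)) / 2) := by
        intro s hs
        refine ⟨Polynomial.X ^ 2 - Polynomial.C u * Polynomial.X + Polynomial.C n, ?_, ?_⟩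
        · have : (Polynomial.X ^ 2 - Polynomial.C u * Polynomial.X + Polynomial.C n : Polynomial ℤ) =
              Polynomial.X ^ 2 + (- Polynomial.C u * Polynomial.X + Polynomial.C n) := by ring
          rw [this]
          apply Polynomial.monic_X_pow_add
          refine lt_of_le_of_lt (Polynomial.degree_linear_le (a := -u) (b := n) |> fun h => by
            simpa using h) (by norm_num)
        · have h5 : ((u : L) ^ 2 - A * v ^ 2) = 4 * n := by exact_mod_cast hn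
          have hs2 : ((s : ℤ) : L) ^ 2 = 1 := by rcases hs with rfl | rfl <;> norm_num
          simp only [Polynomial.eval₂_add, Polynomial.eval₂_sub, Polynomial.eval₂_pow,
            Polynomial.eval₂_mul, Polynomial.eval₂_X, Polynomial.eval₂_C]
          simp only [eq_intCast]
          linear_combination (1 / 4 : L) * (v : L) ^ 2 * ((s : ℤ) : L) ^ 2 * hρL +
            (1 / 4 : L) * (A : L) * v ^ 2 * hs2 - (1 / 4 : L) * h5
      set b0 : 𝓞 L := ⟨_, hint 1 (Or.inl rfl)⟩ with hb0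
      set b1 : 𝓞 L := ⟨_, hint (-1) (Or.inr rfl)⟩ with hb1
      have cb0 : (b0 : L) = ((u : L) + ((1 : ℤ) : L) * v * (ρ : L)) / 2 := rfl
      have cb1 : (b1 : L) = ((u : L) + ((-1 : ℤ) : L) * v * (ρ : L)) / 2 := rfl
      have hb2 : (2 : 𝓞 L) * b0 = β := by
        apply RingOfIntegers.coe_injective
        change ((2 * b0 : 𝓞 L) : L) = (β : L)
        have h5 : ((2 * b0 : 𝓞 L) : L) = 2 * (b0 : L) := by
          have h6 := map_mul (algebraMap (𝓞 L) L) 2 b0
          rw [map_ofNat] at h6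
          exact h6
        rw [h5, cβ, cb0]
        push_cast
        ring
      have hbb : b0 * b1 = ℓ * (w1 : 𝓞 L) ^ 2 := by
        apply RingOfIntegers.coe_injective
        change ((b0 * b1 : 𝓞 L) : L) = ((ℓ * (w1 : 𝓞 L) ^ 2 : 𝓞 L) : L)
        have h5 : ((b0 * b1 : 𝓞 L) : L) = (b0 : L) * (b1 : L) := by simp
        have h6 : ((ℓ * (w1 : 𝓞 L) ^ 2 : 𝓞 L) : L) = ℓ * (w1 : L) ^ 2 := by simp
        have h7 : ((u : L) ^ 2 - A * v ^ 2) = ℓ * (2 * w1) ^ 2 := by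
          have := congrArg (Int.cast : ℤ → L) hN
          rw [hw1] at this
          push_cast at this
          exact this
        rw [h5, h6, cb0, cb1]
        push_cast
        linear_combination (-(1 / 4 : L)) * (v : L) ^ 2 * hρL + (1 / 4 : L) * h7
      have hbs : b0 + b1 = (u : 𝓞 L) := by
        apply RingOfIntegers.coe_injective
        change ((b0 + b1 : 𝓞 L) : L) = (((u : ℤ) : 𝓞 L) : L)
        have h5 : ((b0 + b1 : 𝓞 L) : L) = (b0 : L) + (b1 : L) := by simp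
        have h6 : ((((u : ℤ) : 𝓞 L)) : L) = (u : L) := by simp
        rw [h5, h6, cb0, cb1]
        push_cast
        ring
      have hw10 : w1 ≠ 0 := by
        rintro rfl
        rw [mul_zero] at hw1
        exact hw hw1
      have hb00 : b0 ≠ 0 := by
        intro h
        rw [h, mul_zero] at hb2
        exact hβ0 hb2.symm
      have e4 : ε ^ 2 = ((2 * d : ℤ) : 𝓞 L) * (Gm S α * b0) := by
        rw [e1', ← hb2]
        push_cast
        ring
      have h2dd : ¬ ((2 : ℕ) : ℤ) * ((2 : ℕ) : ℤ) ∣ 2 * d := by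
        intro h
        apply h2d
        push_cast at h
        exact (mul_dvd_mul_iff_left (by norm_num : (2 : ℤ) ≠ 0)).mp h
      refine ram (M := M) (L := L) (ℓ := ℓ) Nat.prime_two hodd (fun h => by omega)
        (Gm_dvd hS hα) hbb hw10 ⟨-u1, 1, 1, ?_⟩ h2dd
        (mul_ne_zero two_ne_zero hd.ne_zero) e4 hG0 hb00 ⟨d, by push_cast; ring⟩
      have h5 : (u : 𝓞 L) = 2 * u1 + 1 := by rw [hu1]; push_cast; ring
      push_cast
      linear_combination hbs + h5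
  refine ⟨ε, d, hε, hd, e1', ?_, ?_, ?_, hfin⟩
  · intro σ hs
    apply RingOfIntegers.coe_injective
    have h1 := e2 σ hs
    change (((σ • ε) * (ℓ : 𝓞 L) ^ (kap M S σ / 2) : 𝓞 L) : L) = ((BB M S α σ * ε : 𝓞 L) : L)
    have h5 : (((σ • ε) * (ℓ : 𝓞 L) ^ (kap M S σ / 2) : 𝓞 L) : L) =
      σ (ε : L) * (ℓ : L) ^ (kap M S σ / 2) := by rw [← coe_smul]; simp
    rw [h5, h1]
    simp
  · intro σ hs
    apply RingOfIntegers.coe_injective
    have h1 := e3 σ hs
    change (((σ • ε) * (ℓ : 𝓞 L) ^ (kap M S σ / 2) * β : 𝓞 L) : L) =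
      ((BB M S α σ * w * ε : 𝓞 L) : L)
    have h5 : (((σ • ε) * (ℓ : 𝓞 L) ^ (kap M S σ / 2) * β : 𝓞 L) : L) =
      σ (ε : L) * (ℓ : L) ^ (kap M S σ / 2) * (β : L) := by rw [← coe_smul]; simp
    rw [h5, h1]
    simp
  · intro r hr hrd
    by_contra hcon
    push Not at hcon
    exact hprime r hr hcon.1 hcon.2.1 hcon.2.2 hrd

end Core

end Pool.Agent.H180.RS
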