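import Pool.Agent.H180.RS.Gs
import Pool.Agent.H180.RS.Stmts
import Pool.Agent.H916K.Sign

/-!
# Galois action and Frobenius elements in cyclotomic fields
-/

set_option autoImplicit false
set_option linter.unusedSectionVars false

namespace Pool.Agent.H180.RS

open Finset NumberField

section Cyc

variable {M : ℕ} [NeZero M] {L : Type} [Field L] [NumberField L] [IsCyclotomicExtension {M} ℚ L]

/-- the exponent of a Galois element -/
noncomputable def ex (M : ℕ) [NeZero M] {L : Type} [Field L] [NumberField L]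
    [IsCyclotomicExtension {M} ℚ L] (σ : Gal(L/ℚ)) : ℕ :=
  (IsCyclotomicExtension.Rat.galEquivZMod M L σ).val.val

lemma ex_smul (σ : Gal(L/ℚ)) {x : 𝓞 L} (hx : x ^ M = 1) : σ • x = x ^ ex M σ :=
  IsCyclotomicExtension.Rat.galEquivZMod_smul_of_pow_eq M L σ hx

lemma ex_apply (σ : Gal(L/ℚ)) {x : L} (hx : x ^ M = 1) : σ x = x ^ ex M σ :=
  IsCyclotomicExtension.Rat.galEquivZMod_apply_of_pow_eq M L σ hx

lemma ex_cast (σ : Gal(L/ℚ)) : ((ex M σ : ℕ) : ZMod M) =
    (IsCyclotomicExtension.Rat.galEquivZMod M L σ : ZMod M) := by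
  unfold ex
  rw [ZMod.natCast_zmod_val]

lemma ex_mul (σ τ : Gal(L/ℚ)) : ((ex M (σ * τ) : ℕ) : ZMod M) = ex M σ * ex M τ := by
  rw [ex_cast, ex_cast, ex_cast, map_mul, Units.val_mul]

lemma cast_dvd {p : ℕ} (hp : p ∣ M) {a b : ℕ} (h : (a : ZMod M) = b) : (a : ZMod p) = b := by
  rw [ZMod.natCast_eq_natCast_iff] at h ⊢
  exact h.of_dvd hp

lemma ex_mul' {p : ℕ} (hp : p ∣ M) (σ τ : Gal(L/ℚ)) :
    ((ex M (σ * τ) : ℕ) : ZMod p) = ex M σ * ex M τ := by
  have h1 : ((ex M (σ * τ) : ℕ) : ZMod M) = ((ex M σ * ex M τ : ℕ) : ZMod M) := by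
    rw [ex_mul]; push_cast; rfl
  rw [cast_dvd hp h1]
  push_cast
  rfl

lemma ex_ne {p : ℕ} [hpp : Fact p.Prime] (hp : p ∣ M) (σ : Gal(L/ℚ)) :
    ((ex M σ : ℕ) : ZMod p) ≠ 0 := by
  have h1 := (IsCyclotomicExtension.Rat.galEquivZMod M L σ).isUnit
  rw [← ex_cast] at h1
  rw [ZMod.isUnit_iff_coprime] at h1
  have h2 : (ex M σ).Coprime p := h1.of_dvd_right hp
  rw [Ne, ZMod.natCast_eq_zero_iff]
  intro h3
  exact hpp.out.one_lt.ne' (Nat.Coprime.eq_one_of_dvd h2.symm h3)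

/-- Galois elements with given exponent -/
lemma exists_gal {t : ℕ} (ht : t.Coprime M) : ∃ σ : Gal(L/ℚ), ((ex M σ : ℕ) : ZMod M) = t := by
  refine ⟨(IsCyclotomicExtension.Rat.galEquivZMod M L).symm (ZMod.unitOfCoprime t ht), ?_⟩
  rw [ex_cast, MulEquiv.apply_symm_apply, ZMod.coe_unitOfCoprime]

/-- the Galois action as a ring homomorphism -/
noncomputable def gh (σ : Gal(L/ℚ)) : 𝓞 L →+* 𝓞 L := MulSemiringAction.toRingHom Gal(L/ℚ) (𝓞 L) σ

lemma gh_apply (σ : Gal(L/ℚ)) (x : 𝓞 L) : gh σ x = σ • x := rfl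

lemma coe_smul (σ : Gal(L/ℚ)) (x : 𝓞 L) : ((σ • x : 𝓞 L) : L) = σ (x : L) := rfl

/-- ring homomorphisms are determined by the image of a root of unity -/
lemma hom_ext {k : Type*} [CommRing k] {f f' : 𝓞 L →+* k}
    (h : ∀ x : 𝓞 L, x ^ M = 1 → f x = f' x) : f = f' := by
  have h1 := IsCyclotomicExtension.Rat.adjoin_singleton_eq_top
    (IsCyclotomicExtension.zeta_spec M ℚ L)
  set ζ := (IsCyclotomicExtension.zeta_spec M ℚ L).toInteger
  have hζ : ζ ^ M = 1 := (IsCyclotomicExtension.zeta_spec M ℚ L).toInteger_isPrimitiveRoot.pow_eq_one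
  have h2 : f.toIntAlgHom = f'.toIntAlgHom := by
    apply AlgHom.ext_of_adjoin_eq_top h1
    intro x hx
    rw [Set.mem_singleton_iff] at hx
    rw [hx]
    exact h ζ hζ
  ext x
  exact DFunLike.congr_fun h2 x

/-- in characteristic `q`, roots of unity of order `q ^ e * M'` have order dividing `M'` -/
lemma root_red {k : Type} [Field k] {q : ℕ} [hq : Fact q.Prime] [CharP k q] {e M' : ℕ}
    (hM : q ^ e * M' = M) (φ : 𝓞 L →+* k) {x : 𝓞 L} (hx : x ^ M = 1) : φ x ^ M' = 1 := by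
  apply Pool.Agent.H916K.pow_one_of_char (q := q) (b := e)
  rw [← pow_mul, ← map_pow, mul_comm, hM, hx, map_one]

/-- Frobenius elements -/
lemma frob {k : Type} [Field k] {q : ℕ} [hq : Fact q.Prime] [CharP k q] {e M' : ℕ}
    (hM : q ^ e * M' = M) (φ : 𝓞 L →+* k) {σ : Gal(L/ℚ)} (hσ : ((ex M σ : ℕ) : ZMod M') = q)
    (x : 𝓞 L) : φ (σ • x) = φ x ^ q := by
  have h1 : φ.comp (gh σ) = (frobenius k q).comp φ := by
    apply hom_ext (M := M)
    intro x hx
    change φ (σ • x) = φ x ^ q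
    rw [ex_smul σ hx, map_pow]
    exact pow_eq_pow_of_modEq ((ZMod.natCast_eq_natCast_iff _ _ _).mp hσ) (root_red hM φ hx)
  exact DFunLike.congr_fun h1 x

/-- inertia -/
lemma inert {k : Type} [Field k] {q : ℕ} [hq : Fact q.Prime] [CharP k q] {e M' : ℕ}
    (hM : q ^ e * M' = M) (φ : 𝓞 L →+* k) {σ : Gal(L/ℚ)} (hσ : ((ex M σ : ℕ) : ZMod M') = 1)
    (x : 𝓞 L) : φ (σ • x) = φ x := by
  have h1 : φ.comp (gh σ) = φ := by
    apply hom_ext (M := M)
    intro x hx
    change φ (σ • x) = φ x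
    rw [ex_smul σ hx, map_pow]
    have h2 : ex M σ ≡ 1 [MOD M'] := (ZMod.natCast_eq_natCast_iff _ _ _).mp (by simpa using hσ)
    have h3 := pow_eq_pow_of_modEq h2 (root_red hM φ hx)
    rw [h3, pow_one]
  exact DFunLike.congr_fun h1 x

/-- the embedding of the integers -/
noncomputable def jj (ι : L →+* ℂ) : 𝓞 L →+* ℂ := ι.comp (algebraMap (𝓞 L) L)

lemma jj_inj (ι : L →+* ℂ) : Function.Injective (jj ι) :=
  ι.injective.comp (RingOfIntegers.coe_injective)

/-- roots of unity in the image -/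
lemma exists_root (ι : L →+* ℂ) {z : ℂ} (hz : z ^ M = 1) : ∃ x : 𝓞 L, jj ι x = z := by
  have h1 := (IsCyclotomicExtension.zeta_spec M ℚ L).toInteger_isPrimitiveRoot
  have h2 := h1.map_of_injective (jj_inj ι)
  obtain ⟨i, _, hi⟩ := h2.eq_pow_of_pow_eq_one hz
  exact ⟨_, by rw [map_pow]; exact hi⟩

/-- characters lift to the integers of the cyclotomic field -/
lemma exists_lift_cyc {F : Type} [Field F] [Fintype F] (ι : L →+* ℂ) {p : ℕ} (hp0 : p ≠ 0)
    (hp : p ∣ M) {α : MulChar F ℂ} (hα : orderOf α = p) :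
    ∃ α' : MulChar F (𝓞 L), α'.ringHomComp (jj ι) = α ∧ orderOf α' = p := by
  obtain ⟨α', h1⟩ := exists_lift (jj ι) (jj_inj ι) α (by
    intro x
    by_cases hx : x = 0
    · exact ⟨0, by rw [map_zero, hx, MulChar.map_zero]⟩
    · apply exists_root (M := M) ι
      obtain ⟨d, hd⟩ := hp
      rw [hd, pow_mul]
      have h2 : (α ^ p) x = 1 := by
        rw [← hα, pow_orderOf_eq_one]
        exact MulChar.one_apply (isUnit_iff_ne_zero.mpr hx)
      rw [MulChar.pow_apply' α hp0] at h2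
      rw [h2, one_pow])
  exact ⟨α', h1, by rw [← orderOf_lift (jj ι) (jj_inj ι), h1, hα]⟩

variable {F : Type} [Field F] [Fintype F] {p g : ℕ} [hp : Fact p.Prime]

/-- the Galois action on characters -/
lemma comp_gh (hpM : p ∣ M) {α : MulChar F (𝓞 L)} (hα : orderOf α = p) (σ : Gal(L/ℚ)) :
    α.ringHomComp (gh σ) = α ^ ex M σ := by
  refine MulChar.ext fun x => ?_
  rw [MulChar.pow_apply_coe, MulChar.ringHomComp_apply, gh_apply]
  apply ex_smul (M := M)
  obtain ⟨d, rfl⟩ := hpM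
  have h2 : (α ^ p) (x : F) = 1 := by
    rw [← hα, pow_orderOf_eq_one]
    exact MulChar.one_apply x.isUnit
  rw [MulChar.pow_apply_coe] at h2
  rw [pow_mul, h2, one_pow]

/-- the Galois action on the sequence -/
lemma smul_ga (hpM : p ∣ M) {α : MulChar F (𝓞 L)} (hα : orderOf α = p) (σ : Gal(L/ℚ)) {k : ℕ}
    (hk : ((ex M σ : ℕ) : ZMod p) = (g : ZMod p) ^ k) (i : ℕ) :
    σ • ga p g α i = ga p g α (i + k) := by
  rw [← gh_apply, map_ga, comp_gh hpM hα]
  unfold ga
  rw [← pow_mul]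
  congr 1
  apply pow_congr hα
  push_cast
  rw [hk, ← pow_add, add_comm]

end Cyc

section Quad

variable {M : ℕ} [NeZero M] {L : Type} [Field L] [NumberField L] [IsCyclotomicExtension {M} ℚ L]
  {p g : ℕ} [hp : Fact p.Prime]

/-- the square root of `p*` -/
lemma exists_sqrt (hpM : p ∣ M) (hp2 : p ≠ 2) (hg : IsGen p g) : ∃ ρ : L, ρ ^ 2 = (st p : L) ∧
    ∀ (σ : Gal(L/ℚ)) (k : ℕ), ((ex M σ : ℕ) : ZMod p) = (g : ZMod p) ^ k →
      σ ρ = (-1) ^ k * ρ := by
  classical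
  have hodd := hp.out.eq_two_or_odd.resolve_left hp2
  have h2 := hp.out.two_le
  obtain ⟨d, hd⟩ := hpM
  have hz := IsCyclotomicExtension.zeta_spec M ℚ L
  set ζ : L := (IsCyclotomicExtension.zeta M ℚ L) ^ d with hζ
  have hζp : IsPrimitiveRoot ζ p := hz.pow (NeZero.pos M) (by rw [hd, mul_comm])
  set ψ : AddChar (ZMod p) L := AddChar.zmodChar p hζp.pow_eq_one with hψ
  have hψa : ∀ a : ZMod p, ψ a = ζ ^ a.val := fun a => AddChar.zmodChar_apply _ a
  have hψ1 : ψ ≠ 1 := by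
    intro h
    have h1 : ψ 1 = 1 := by rw [h]; rfl
    rw [hψa, ZMod.val_one_eq_one_mod, Nat.mod_eq_of_lt hp.out.one_lt, pow_one] at h1
    exact hζp.ne_one hp.out.one_lt h1
  have hprim : ψ.IsPrimitive := AddChar.IsPrimitive.of_ne_one hψ1
  set χ : MulChar (ZMod p) L := (quadraticChar (ZMod p)).ringHomComp (Int.castRingHom L) with hχ
  have hchar : ringChar (ZMod p) ≠ 2 := by rw [ZMod.ringChar_zmod_n]; exact hp2
  have hχa : ∀ a : ZMod p, χ a = ((quadraticChar (ZMod p) a : ℤ) : L) := fun a => rfl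
  have hχ1 : χ ≠ 1 := by
    intro h
    obtain ⟨a, ha⟩ := quadraticChar_exists_neg_one' hchar
    have h1 : χ (a : ZMod p) = 1 := by rw [h]; exact MulChar.one_apply a.isUnit
    rw [hχa, ha] at h1
    push_cast at h1
    have h3 : (2 : L) = 0 := by linear_combination (-1 : L) * h1
    exact two_ne_zero h3
  have hχ2 : χ.IsQuadratic := (quadraticChar_isQuadratic (ZMod p)).comp _
  refine ⟨gaussSum χ ψ, ?_, ?_⟩
  · rw [gaussSum_sq hχ1 hχ2 hprim, hχa, quadraticChar_neg_one hchar, ZMod.card]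
    unfold st
    split_ifs with h4
    · rw [ZMod.χ₄_nat_one_mod_four h4]
      push_cast
      ring
    · rw [ZMod.χ₄_nat_three_mod_four (by omega)]
      push_cast
      ring
  · intro σ k hk
    have hζM : ζ ^ M = 1 := by
      rw [hd, pow_mul, hζp.pow_eq_one, one_pow]
    have e1 : σ (gaussSum χ ψ) = gaussSum χ (ψ.mulShift ((ex M σ : ℕ) : ZMod p)) := by
      unfold gaussSum
      rw [map_sum]
      refine sum_congr rfl fun a _ => ?_
      rw [map_mul, hχa, map_intCast, AddChar.mulShift_apply, hψa, hψa, map_pow, ex_apply σ hζM,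
        ← pow_mul]
      congr 1
      apply pow_eq_pow_of_modEq _ hζp.pow_eq_one
      rw [← ZMod.natCast_eq_natCast_iff]
      push_cast
      rw [ZMod.natCast_zmod_val, ZMod.natCast_zmod_val]
    have e2 := gaussSum_mulShift χ ψ (Units.mk0 _ (ex_ne (Dvd.intro _ hd.symm) σ))
    rw [Units.val_mk0] at e2
    rw [e1, ← e2, ← mul_assoc]
    have e3 : χ ((ex M σ : ℕ) : ZMod p) = (-1) ^ k := by
      rw [hk, map_pow]
      congr 1
      rw [hχa]
      have h5 : ¬ IsSquare (g : ZMod p) := by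
        have := hg.isSquare_iff hp2 1
        rw [pow_one] at this
        rw [this]
        decide
      rw [(quadraticChar_neg_one_iff_not_isSquare (F := ZMod p)).mpr h5]
      push_cast
      rfl
    rw [e3, ← mul_pow]
    norm_num

end Quad

end Pool.Agent.H180.RS
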