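import Pool.Agent.H180.RS.Sym

/-!
# The value at a split pair
-/

set_option autoImplicit false
set_option linter.unusedSectionVars false

namespace Pool.Agent.H180.RS

open Finset NumberField

section St

lemma st_ne_one {p : ℕ} (hp : p.Prime) : st p ≠ 1 ∧ Squarefree (st p) := by
  have h2 := hp.two_le
  unfold st
  split_ifs
  · exact ⟨by omega, Int.squarefree_natCast.mpr hp.prime.squarefree⟩
  · refine ⟨by omega, ?_⟩
    rw [← Int.squarefree_natAbs, Int.natAbs_neg, Int.natAbs_natCast]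
    exact hp.prime.squarefree

/-- integral square roots -/
lemma exists_sqrt_int {M : ℕ} [NeZero M] {L : Type} [Field L] [NumberField L]
    [IsCyclotomicExtension {M} ℚ L] {S : Finset ℕ} (hS : ∀ p ∈ S, p.Prime ∧ p ≠ 2 ∧ p ∣ M) :
    ∃ ρ : 𝓞 L, ρ ^ 2 = ((∏ p ∈ S, st p : ℤ) : 𝓞 L) := by
  have h1 : ∀ p ∈ S, ∃ ρ : 𝓞 L, ρ ^ 2 = ((st p : ℤ) : 𝓞 L) := by
    intro p hp
    obtain ⟨h1, h2, h3⟩ := hS p hp
    have : Fact p.Prime := ⟨h1⟩
    obtain ⟨ρ, h4, _⟩ := exists_sqrt (L := L) h3 h2 (gn_spec p)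
    have hI : IsIntegral ℤ ρ := by
      apply IsIntegral.of_pow (n := 2) two_pos
      rw [h4]
      exact isIntegral_algebraMap (R := ℤ) (A := L) (x := st p)
    refine ⟨⟨ρ, hI⟩, ?_⟩
    apply RingOfIntegers.coe_injective
    have h5 := map_intCast (algebraMap (𝓞 L) L) (st p)
    exact h4.trans h5.symm
  choose! f hf using h1
  refine ⟨∏ p ∈ S, f p, ?_⟩
  rw [← prod_pow, Int.cast_prod]
  exact prod_congr rfl fun p hp => hf p hp

end St

lemma exists_cyc (n : ℕ) [NeZero n] :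
    ∃ (L : Type) (_ : Field L) (_ : NumberField L), IsCyclotomicExtension {n} ℚ L := by
  have h := CyclotomicField.isCyclotomicExtension n ℚ
  exact ⟨CyclotomicField n ℚ, inferInstance, inferInstance, h⟩

lemma even_mod {a n : ℕ} (hn : Even n) : Even (a % n) ↔ Even a := by
  conv_rhs => rw [← Nat.mod_add_div a n, Nat.even_add]
  have h1 : Even (n * (a / n)) := hn.mul_right _
  tauto

lemma jac_l {ℓ N : ℕ} (hℓ1 : 1 ≤ ℓ) (h : N ∣ ℓ - 1) : jacobiSym ℓ N = 1 := by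
  have h7 : (ℓ : ℤ) % N = 1 % N := by
    rw [Int.emod_eq_emod_iff_emod_sub_eq_zero]
    apply Int.emod_eq_zero_of_dvd
    have h8 : ((N : ℕ) : ℤ) ∣ ((ℓ - 1 : ℕ) : ℤ) := by exact_mod_cast h
    rw [Nat.cast_sub hℓ1] at h8
    exact_mod_cast h8
  rw [jacobiSym.mod_left' h7]
  exact jacobiSym.one_left N

section S

/-- **The value at a split pair.** -/
theorem evS (hRec : PropRec) (hCon : PropCon) : PropEvS := by
  intro ℓ p q hℓ hp hq hp2 hq2 hpq hℓ8 α β ψ hψ hα hβ hev hq4 hsq x y z hxy hz hℓz hN r hr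
  have : Fact p.Prime := ⟨hp⟩
  have : Fact q.Prime := ⟨hq⟩
  have hpo := hp.eq_two_or_odd.resolve_left hp2
  have hqo := hq.eq_two_or_odd.resolve_left hq2
  have hp' : Prime (p : ℤ) := Nat.prime_iff_prime_int.mp hp
  have hq' : Prime (q : ℤ) := Nat.prime_iff_prime_int.mp hq
  have hℓ' : Prime (ℓ : ℤ) := Nat.prime_iff_prime_int.mp hℓ.out
  have hpℓ := dvd_sub_one hα
  have hqℓ := dvd_sub_one hβ
  have hℓtwo := hℓ.out.two_le
  have hℓ1 : 1 ≤ ℓ := hℓ.out.one_lt.le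
  have hℓ2 : ℓ ≠ 2 := by omega
  have hℓp : ℓ ≠ p := by
    rintro rfl
    have := Nat.le_of_dvd (by omega) hpℓ
    omega
  have hℓq : ℓ ≠ q := by
    rintro rfl
    have := Nat.le_of_dvd (by omega) hqℓ
    omega
  have hstq : ¬ (q : ℤ) ∣ st p := by
    intro h
    have h1 : (q : ℤ) ∣ (p : ℤ) := h.trans st_dvd.1
    have h2 : q ∣ p := by exact_mod_cast h1
    exact hpq ((Nat.prime_dvd_prime_iff_eq hq hp).mp h2).symm
  have hstℓ : ¬ (ℓ : ℤ) ∣ st p := by
    intro h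
    have h1 : (ℓ : ℤ) ∣ (p : ℤ) := h.trans st_dvd.1
    have h2 : ℓ ∣ p := by exact_mod_cast h1
    exact hℓp ((Nat.prime_dvd_prime_iff_eq hℓ.out hp).mp h2)
  -- the solution `u, v, w`
  have h4A : (4 * st p) ∣ (ℓ : ℤ) - 1 := by
    have h1 : (4 * p) ∣ ℓ - 1 := by
      apply Nat.Coprime.mul_dvd_of_dvd_of_dvd _ (by omega) hpℓ
      have h2 : Nat.Coprime 2 p := (Nat.coprime_primes Nat.prime_two hp).mpr (fun h => hp2 h.symm)
      exact Nat.Coprime.mul_left h2 h2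
    have h2 : ((4 * p : ℕ) : ℤ) ∣ ((ℓ - 1 : ℕ) : ℤ) := by exact_mod_cast h1
    rw [Nat.cast_sub hℓ1] at h2
    push_cast at h2
    exact (mul_dvd_mul_left 4 st_dvd.1).trans h2
  obtain ⟨u, v0, w, huv0, hw, huvw0⟩ := hCon.1 (st p) ℓ hℓ.out (st_mod hp hp2) (st_ne_one hp).2
    (st_ne_one hp).1 h4A
  have hqx2 : (q : ℤ) ∣ x ^ 2 - st p * y ^ 2 := ⟨z ^ 2, hN⟩
  have hqy : ¬ (q : ℤ) ∣ y := by
    intro h
    have h1 : (q : ℤ) ∣ x ^ 2 := by
      have h2 := dvd_add hqx2 ((dvd_pow h two_ne_zero).mul_left (st p))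
      rwa [sub_add_cancel] at h2
    exact hq'.not_isUnit (hxy.isUnit_of_dvd' (hq'.dvd_of_dvd_pow h1) h)
  have hqx : ¬ (q : ℤ) ∣ x := by
    intro h
    have h1 : (q : ℤ) ∣ st p * y ^ 2 := by
      have h2 := dvd_sub (dvd_pow h two_ne_zero) hqx2
      rwa [sub_sub_cancel] at h2
    rcases hq'.dvd_or_dvd h1 with h2 | h2
    · exact hstq h2
    · exact hqy (hq'.dvd_of_dvd_pow h2)
  obtain ⟨s, hs, hT⟩ := choose_sign hq hq2 hqx hqy huv0
  set v : ℤ := s * v0 with hv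
  have hs2 : s ^ 2 = 1 := by rcases hs with rfl | rfl <;> norm_num
  have huv : IsCoprime u v := by
    rcases hs with rfl | rfl
    · rw [hv, one_mul]; exact huv0
    · rw [hv, neg_one_mul]; exact huv0.neg_right
  have huvw : u ^ 2 - st p * v ^ 2 = ℓ * w ^ 2 := by
    rw [hv, mul_pow, hs2, one_mul]; exact huvw0
  -- the field
  have : NeZero p := ⟨hp.ne_zero⟩
  obtain ⟨L, _, _, hL⟩ := exists_cyc p
  obtain ⟨ι⟩ := exists_emb L
  obtain ⟨α', hα'1, hα'⟩ := exists_lift_cyc (M := p) ι hp.ne_zero (dvd_refl p) hα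
  obtain ⟨k, _, _, ⟨Φ⟩⟩ := Pool.Agent.H916K.exists_red hq
  set φ : 𝓞 L →+* k := Φ.comp (jA ι) with hφ
  have hℓk : ((ℓ : ℕ) : k) = 1 := by
    have h3 : ((ℓ - 1 : ℕ) : k) = 0 := by
      rw [CharP.cast_eq_zero_iff k q]; exact hqℓ
    rw [Nat.cast_sub hℓ1, Nat.cast_one] at h3
    exact sub_eq_zero.mp h3
  have hS : ∀ r ∈ ({p} : Finset ℕ), r.Prime ∧ r ≠ 2 ∧ r ∣ p := by
    intro r hr
    rw [mem_singleton] at hr
    subst hr
    exact ⟨hp, hp2, dvd_refl _⟩
  have hαS : ∀ r ∈ ({p} : Finset ℕ), orderOf ((fun _ : ℕ => α') r) = r := by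
    intro r hr
    rw [mem_singleton] at hr
    subst hr
    exact hα'
  have intk : ∀ a : ℤ, (a : k) = 0 ↔ (q : ℤ) ∣ a := fun a => CharP.intCast_eq_zero_iff k q a
  have hyk : (y : k) ≠ 0 := by rw [Ne, intk]; exact hqy
  -- the square root
  have hρex : ∃ ρ : 𝓞 L, ρ ^ 2 = ((∏ r ∈ ({p} : Finset ℕ), st r : ℤ) : 𝓞 L) ∧ φ ρ * y = x := by
    obtain ⟨ρ, hρ⟩ := exists_sqrt_int (M := p) (L := L) hS
    have h1 : (φ ρ * y) ^ 2 = (x : k) ^ 2 := by
      rw [mul_pow, ← map_pow, hρ, map_intCast, prod_singleton]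
      have h2 : ((x ^ 2 - st p * y ^ 2 : ℤ) : k) = 0 := by rw [intk]; exact hqx2
      push_cast at h2
      linear_combination -h2
    rcases sq_eq_sq_iff_eq_or_eq_neg.mp h1 with h2 | h2
    · exact ⟨ρ, hρ, h2⟩
    · refine ⟨-ρ, by rw [neg_sq, hρ], ?_⟩
      rw [map_neg, neg_mul, h2, neg_neg]
  obtain ⟨ρ, hρ, hρx⟩ := hρex
  obtain ⟨ε, d, hε, hd, hεd, hE, _, hdp, hd2⟩ := core (M := p) (L := L) (ℓ := ℓ) (S := {p})
    (α := fun _ => α') (Nat.odd_iff.mpr hpo) hℓ2 hS hαS hρ huv hw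
    (by rw [prod_singleton]; exact huvw)
  -- Frobenius
  have hqp : q.Coprime p := (Nat.coprime_primes hq hp).mpr (fun h => hpq h.symm)
  obtain ⟨σ, hσ⟩ := exists_gal (M := p) (L := L) hqp
  have hqp0 : ((q : ℕ) : ZMod p) ≠ 0 := by
    rw [Ne, ZMod.natCast_eq_zero_iff]
    intro h
    exact hpq ((Nat.prime_dvd_prime_iff_eq hp hq).mp h)
  have hlgev : Even (lg p q) := by
    rw [even_lg hp2 hqp0]
    exact (ZMod.exists_sq_eq_prime_iff_of_mod_four_eq_one hq4 hp2).mp hsq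
  have htwo := hp.two_le
  have hkk : kk p p σ = lg p q % (p - 1) := by
    apply kk_eq (dvd_refl p) (Nat.mod_lt _ (by omega))
    rw [gn_mod, ← lg_spec hqp0]
    exact hσ
  have hkkev : Even (kk p p σ) := by
    rw [hkk, even_mod (by rw [Nat.even_iff]; omega)]
    exact hlgev
  have hkap : kap p {p} σ = p * kk p p σ := by
    unfold kap
    rw [sum_singleton]
  have hrel := hE σ (by rw [hkap]; exact hkkev.mul_left p)
  have hBB : BB p {p} (fun _ => α') σ = bb (gs p α') (kk p p σ) := by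
    unfold BB
    rw [prod_singleton]
  have hGm : Gm {p} (fun _ => α') = GG (gs p α') ((p - 1) / 2) := by
    unfold Gm
    rw [prod_singleton]
  rw [hBB] at hrel
  rw [hGm] at hεd
  have hGdvd := Gm_dvd hS hαS
  rw [hGm] at hGdvd
  -- reduction
  have hφG : φ (GG (gs p α') ((p - 1) / 2)) ≠ 0 := by
    obtain ⟨n, hn⟩ := hGdvd
    intro h
    have h1 := map_dvd φ hn
    rw [h, map_pow, map_natCast, hℓk, one_pow, zero_dvd_iff] at h1
    exact one_ne_zero h1
  have hφβ : φ (u + v * ρ) * y = ((x * v + y * u : ℤ) : k) := by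
    rw [map_add, map_mul, map_intCast, map_intCast]
    push_cast
    linear_combination (v : k) * hρx
  have hTk : ((x * v + y * u : ℤ) : k) ≠ 0 := by rw [Ne, intk]; exact hT
  have hqd : ¬ (q : ℤ) ∣ d := by
    intro h
    rcases hdp q hq h with h1 | h1 | h1
    · exact hq2 h1
    · exact hℓq h1.symm
    · exact hpq ((Nat.prime_dvd_prime_iff_eq hq hp).mp h1).symm
  have hdk : (d : k) ≠ 0 := by rw [Ne, intk]; exact hqd
  have hφβ0 : φ (u + v * ρ) ≠ 0 := by
    intro h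
    rw [h, zero_mul] at hφβ
    exact hTk hφβ.symm
  have hε2 : φ ε ^ 2 = d * (φ (GG (gs p α') ((p - 1) / 2)) * φ (u + v * ρ)) := by
    rw [← map_pow, hεd, map_mul, map_mul, map_intCast]
  have hε0 : φ ε ≠ 0 := by
    intro h
    rw [h, zero_pow two_ne_zero] at hε2
    exact mul_ne_zero hdk (mul_ne_zero hφG hφβ0) hε2.symm
  have hfrob : φ (σ • ε) = φ ε ^ q := by
    apply frob (M := p) (q := q) (e := 0) (M' := p) (by rw [pow_zero, one_mul])
    exact hσ
  have h1 := congrArg φ hrel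
  rw [map_mul, map_pow, map_natCast, hℓk, one_pow, mul_one, hfrob, map_mul] at h1
  have hq1 : q = (q - 1) + 1 := by have := hq.two_le; omega
  have h2 : φ ε ^ (q - 1) = φ (bb (gs p α') (kk p p σ)) := by
    apply mul_right_cancel₀ hε0
    rw [← pow_succ, ← hq1, h1]
  have h3 : φ ε ^ (q - 1) = (φ ε ^ 2) ^ ((q - 1) / 2) := by
    rw [← pow_mul]; congr 1; omega
  -- the value
  have hev' : ∃ e : ℤ, (e = 1 ∨ e = -1) ∧ ev p q ψ α β = e := by
    have hev1 : ev p q ψ α β * ev p q ψ α β = 1 := by rw [← sq]; exact hev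
    rcases mul_self_eq_one_iff.mp hev1 with h | h
    · exact ⟨1, Or.inl rfl, by rw [h]; norm_num⟩
    · exact ⟨-1, Or.inr rfl, by rw [h]; norm_num⟩
  obtain ⟨e, he, hee⟩ := hev'
  have hst := star ι Φ hp2 hq2 hpq hq4 hα' hβ hψ hℓk (e := e)
    (by rw [hα'1]; exact hee) he
  have hst' : (e : k) * φ (bb (gs p α') (lg p q)) = φ (GG (gs p α') ((p - 1) / 2)) ^ ((q - 1) / 2) := by
    rw [hlgev.neg_one_pow, mul_one] at hst
    exact hst
  rw [bb_mod hp2 hα' φ hℓk, ← hkk, ← h2, h3, hε2, mul_pow, mul_pow] at hst'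
  have hcan : (e : k) * ((d : k) ^ ((q - 1) / 2) * φ (u + v * ρ) ^ ((q - 1) / 2)) = 1 := by
    apply mul_right_cancel₀ (pow_ne_zero ((q - 1) / 2) hφG)
    linear_combination hst'
  have hek : (e : k) * e = 1 := by
    rcases he with h | h <;> rw [h] <;> push_cast <;> ring
  have hval : (e : k) = (d : k) ^ ((q - 1) / 2) * φ (u + v * ρ) ^ ((q - 1) / 2) := by
    have hne : (e : k) ≠ 0 := left_ne_zero_of_mul (a := (e : k)) (b := e) (by rw [hek]; exact one_ne_zero)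
    apply mul_left_cancel₀ hne
    rw [hcan, hek]
  have hy1 : ((y : k) ^ ((q - 1) / 2)) * ((y : k) ^ ((q - 1) / 2)) = 1 := by
    rw [← leg_k hq2]
    rcases leg_sign hqy with h | h <;> rw [h] <;> push_cast <;> ring
  have hleg : ((legendreSym q (d * (y * (x * v + y * u))) : ℤ) : k) = e := by
    rw [leg_k hq2]
    push_cast
    rw [mul_pow, mul_pow, hval]
    have h5 := congrArg (fun t => t ^ ((q - 1) / 2)) hφβ
    simp only [mul_pow] at h5
    push_cast at h5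
    rw [← h5]
    linear_combination (d : k) ^ ((q - 1) / 2) * φ (u + v * ρ) ^ ((q - 1) / 2) * hy1
  have hndvd : ¬ (q : ℤ) ∣ d * (y * (x * v + y * u)) := by
    intro h
    rcases hq'.dvd_or_dvd h with h6 | h6
    · exact hqd h6
    · rcases hq'.dvd_or_dvd h6 with h7 | h7
      · exact hqy h7
      · exact hT h7
  have heq : legendreSym q (d * (y * (x * v + y * u))) = e :=
    sign_eq hq2 (leg_sign hndvd) he hleg
  rw [jacobiSym.legendreSym.to_jacobiSym, jacobiSym.mul_left] at heq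
  have hjd : jacobiSym d q = if Odd u ∧ Odd v then jacobiSym 2 q else 1 := by
    rw [jac_d hq4 hd]
    · simp only [hd2]
    · intro r hr hr2 hrd
      rcases hdp r hr hrd with h6 | h6 | h6
      · exact absurd h6 hr2
      · rw [h6]
        exact jac_l hℓ1 hqℓ
      · have h7 : r = p := (Nat.prime_dvd_prime_iff_eq hr hp).mp h6
        rw [h7, ← jacobiSym.legendreSym.to_jacobiSym]
        have hpq0 : ((p : ℤ) : ZMod q) ≠ 0 := by
          rw [Ne, ZMod.intCast_zmod_eq_zero_iff_dvd]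
          intro h8
          have h9 : q ∣ p := by exact_mod_cast h8
          exact hpq ((Nat.prime_dvd_prime_iff_eq hq hp).mp h9).symm
        rw [legendreSym.eq_one_iff q hpq0]
        simpa using hsq
  have hfin := hRec (st p) q ℓ x y z u v w (st_mod hp hp2) (st_ne_one hp).2
    hq.prime.squarefree hq4 hℓ8 hstℓ
    (fun h => hℓq ((Nat.prime_dvd_prime_iff_eq hℓ.out hq).mp h))
    (jac_l hℓ1 hqℓ)
    hN hxy hz hℓz huvw huv hw ((hq'.coprime_iff_not_dvd.mpr hT).symm) r hr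
  rw [hfin, hee]
  rw [hjd] at heq
  rw [heq]

end S

end Pool.Agent.H180.RS
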