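import Pool.Agent.H180.RS.EvS

/-!
# The value at a nonresidue triangle
-/

set_option autoImplicit false
set_option linter.unusedSectionVars false

namespace Pool.Agent.H180.RS

open Finset NumberField

lemma cast_ne_of_prime {p q : ℕ} (hp : p.Prime) (hq : q.Prime) (h : p ≠ q) :
    ((q : ℕ) : ZMod p) ≠ 0 := by
  rw [Ne, ZMod.natCast_eq_zero_iff]
  intro h1
  exact h ((Nat.prime_dvd_prime_iff_eq hp hq).mp h1)

lemma sign_of_sq {z : ℂ} (h : z ^ 2 = 1) : ∃ e : ℤ, (e = 1 ∨ e = -1) ∧ z = e := by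
  have h1 : z * z = 1 := by rw [← sq]; exact h
  rcases mul_self_eq_one_iff.mp h1 with h | h
  · exact ⟨1, Or.inl rfl, by rw [h]; norm_num⟩
  · exact ⟨-1, Or.inr rfl, by rw [h]; norm_num⟩

/-- divisibility of square roots by integers -/
lemma int_div {L : Type} [Field L] [NumberField L] {x : 𝓞 L} {n : ℤ} (hn : n ≠ 0) {y : 𝓞 L}
    (h : x ^ 2 = (n : 𝓞 L) ^ 2 * y) : ∃ z : 𝓞 L, x = n * z ∧ z ^ 2 = y := by
  have hnL : (n : L) ≠ 0 := by exact_mod_cast hn
  have h1 : ((x : L) / n) ^ 2 = (y : L) := by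
    have h2 := congrArg (algebraMap (𝓞 L) L) h
    rw [map_pow, map_mul, map_pow, map_intCast] at h2
    rw [div_pow, div_eq_iff (pow_ne_zero _ hnL)]
    refine h2.trans ?_
    ring
  have hI : IsIntegral ℤ ((x : L) / n) := by
    apply IsIntegral.of_pow (n := 2) two_pos
    rw [h1]
    exact RingOfIntegers.isIntegral_coe y
  refine ⟨⟨_, hI⟩, ?_, ?_⟩
  · apply RingOfIntegers.coe_injective
    have h3 := map_mul (algebraMap (𝓞 L) L) (n : 𝓞 L) ⟨_, hI⟩
    rw [map_intCast] at h3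
    refine Eq.trans ?_ h3.symm
    change (x : L) = n * ((x : L) / n)
    field_simp
  · apply RingOfIntegers.coe_injective
    have h3 := map_pow (algebraMap (𝓞 L) L) (⟨_, hI⟩ : 𝓞 L) 2
    refine h3.trans ?_
    exact h1

section T

/-- **The value at a nonresidue triangle.** -/
theorem evT (hRec : PropRec) (hCon : PropCon) : PropEvT := by
  intro ℓ p q r hℓ hp hq hr hp2 hpq hpr hqr hq4 hr4 hpq1 hpr1 hqr1 hℓ8 α β γ ψ hψ hα hβ hγ
    hev1 hev2 hev3 x y z hxy hz hℓz hN t ht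
  have : Fact p.Prime := ⟨hp⟩
  have : Fact q.Prime := ⟨hq⟩
  have : Fact r.Prime := ⟨hr⟩
  have hq2 : q ≠ 2 := by omega
  have hr2 : r ≠ 2 := by omega
  have hpo := hp.eq_two_or_odd.resolve_left hp2
  have hqo := hq.eq_two_or_odd.resolve_left hq2
  have hro := hr.eq_two_or_odd.resolve_left hr2
  have hptwo := hp.two_le
  have hqtwo := hq.two_le
  have hrtwo := hr.two_le
  have hp' : Prime (p : ℤ) := Nat.prime_iff_prime_int.mp hp
  have hq' : Prime (q : ℤ) := Nat.prime_iff_prime_int.mp hq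
  have hr' : Prime (r : ℤ) := Nat.prime_iff_prime_int.mp hr
  have hpℓ := dvd_sub_one hα
  have hqℓ := dvd_sub_one hβ
  have hrℓ := dvd_sub_one hγ
  have hℓtwo := hℓ.out.two_le
  have hℓ1 : 1 ≤ ℓ := hℓ.out.one_lt.le
  have hℓ2 : ℓ ≠ 2 := by omega
  have hne : ∀ s : ℕ, s ∣ ℓ - 1 → ℓ ≠ s := by
    rintro s hs rfl
    have := Nat.le_of_dvd (by omega) hs
    omega
  have hstr : st r = r := by unfold st; rw [if_pos hr4]
  set A : ℤ := st p * r with hA
  have hprN : Nat.Coprime p r := (Nat.coprime_primes hp hr).mpr hpr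
  have hA4 : A % 4 = 1 := by
    rw [hA, Int.mul_emod, st_mod hp hp2]
    omega
  have hcopst : IsCoprime (st p) (r : ℤ) := by
    have h1 : IsCoprime (p : ℤ) (r : ℤ) := Nat.isCoprime_iff_coprime.mpr hprN
    exact IsCoprime.of_isCoprime_of_dvd_left h1 st_dvd.1
  have hAsq : Squarefree A := by
    rw [hA]
    exact (Int.isCoprime_iff_gcd_eq_one.mp hcopst |> fun h => by
      exact (squarefree_mul_iff.mpr ⟨hcopst.isRelPrime, (st_ne_one hp).2,
        Int.squarefree_natCast.mpr hr.prime.squarefree⟩))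
  have hA1 : A ≠ 1 := by
    intro h
    have h1 : (r : ℤ) ∣ 1 := by rw [← h, hA]; exact dvd_mul_left _ _
    exact hr'.not_isUnit (isUnit_of_dvd_one h1)
  have hdvdA : ∀ s : ℕ, s.Prime → (s : ℤ) ∣ A → s = p ∨ s = r := by
    intro s hs h
    have hs' : Prime (s : ℤ) := Nat.prime_iff_prime_int.mp hs
    rcases hs'.dvd_or_dvd h with h1 | h1
    · have h2 : (s : ℤ) ∣ (p : ℤ) := h1.trans st_dvd.1
      have h3 : s ∣ p := by exact_mod_cast h2
      exact Or.inl ((Nat.prime_dvd_prime_iff_eq hs hp).mp h3)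
    · have h3 : s ∣ r := by exact_mod_cast h1
      exact Or.inr ((Nat.prime_dvd_prime_iff_eq hs hr).mp h3)
  have hqA : ¬ (q : ℤ) ∣ A := by
    intro h
    rcases hdvdA q hq h with h1 | h1
    · exact hpq h1.symm
    · exact hqr h1
  have hℓA : ¬ (ℓ : ℤ) ∣ A := by
    intro h
    rcases hdvdA ℓ hℓ.out h with h1 | h1
    · exact hne p hpℓ h1
    · exact hne r hrℓ h1
  -- the solution `u, v, w`
  have h4A : (4 * A) ∣ (ℓ : ℤ) - 1 := by
    have h1 : (4 * (p * r)) ∣ ℓ - 1 := by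
      apply Nat.Coprime.mul_dvd_of_dvd_of_dvd _ (by omega)
        (Nat.Coprime.mul_dvd_of_dvd_of_dvd hprN hpℓ hrℓ)
      have h2 : Nat.Coprime 2 (p * r) := Nat.Coprime.mul_right
        ((Nat.coprime_primes Nat.prime_two hp).mpr (fun h => hp2 h.symm))
        ((Nat.coprime_primes Nat.prime_two hr).mpr (fun h => hr2 h.symm))
      exact Nat.Coprime.mul_left h2 h2
    have h2 : ((4 * (p * r) : ℕ) : ℤ) ∣ ((ℓ - 1 : ℕ) : ℤ) := by exact_mod_cast h1
    rw [Nat.cast_sub hℓ1] at h2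
    push_cast at h2
    exact (mul_dvd_mul_left 4 (mul_dvd_mul_right st_dvd.1 _)).trans h2
  obtain ⟨u, v0, w0, huv0, hw00, huvw0⟩ := hCon.1 A ℓ hℓ.out hA4 hAsq hA1 h4A
  have hNq : ((q * r : ℕ) : ℤ) = q * r := by push_cast; rfl
  have hqx2 : (q : ℤ) ∣ x ^ 2 - A * y ^ 2 := by
    rw [hN, hNq]
    exact ⟨r * z ^ 2, by ring⟩
  have hqy : ¬ (q : ℤ) ∣ y := by
    intro h
    have h1 : (q : ℤ) ∣ x ^ 2 := by
      have h2 := dvd_add hqx2 ((dvd_pow h two_ne_zero).mul_left A)
      rwa [sub_add_cancel] at h2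
    exact hq'.not_isUnit (hxy.isUnit_of_dvd' (hq'.dvd_of_dvd_pow h1) h)
  have hqx : ¬ (q : ℤ) ∣ x := by
    intro h
    have h1 : (q : ℤ) ∣ A * y ^ 2 := by
      have h2 := dvd_sub (dvd_pow h two_ne_zero) hqx2
      rwa [sub_sub_cancel] at h2
    rcases hq'.dvd_or_dvd h1 with h2 | h2
    · exact hqA h2
    · exact hqy (hq'.dvd_of_dvd_pow h2)
  have hrx : (r : ℤ) ∣ x := by
    have h1 : (r : ℤ) ∣ x ^ 2 := by
      have h2 : x ^ 2 = r * (st p * y ^ 2 + q * z ^ 2) := by
        rw [hNq] at hN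
        rw [hA] at hN
        linear_combination hN
      rw [h2]
      exact dvd_mul_right _ _
    exact hr'.dvd_of_dvd_pow h1
  have hry : ¬ (r : ℤ) ∣ y := fun h => hr'.not_isUnit (hxy.isUnit_of_dvd' hrx h)
  obtain ⟨s, hs, hT⟩ := choose_sign hq hq2 hqx hqy huv0
  set v : ℤ := s * v0 with hv
  have hs2 : s ^ 2 = 1 := by rcases hs with rfl | rfl <;> norm_num
  have huv : IsCoprime u v := by
    rcases hs with rfl | rfl
    · rw [hv, one_mul]; exact huv0
    · rw [hv, neg_one_mul]; exact huv0.neg_right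
  have hru : ¬ (r : ℤ) ∣ u := by
    intro h
    have h1 : (r : ℤ) ∣ ℓ * w0 ^ 2 := by
      rw [← huvw0]
      exact dvd_sub (dvd_pow h two_ne_zero) (Dvd.dvd.mul_right (dvd_mul_left _ _) _)
    have hrw : (r : ℤ) ∣ w0 := by
      rcases hr'.dvd_or_dvd h1 with h2 | h2
      · have h3 : r ∣ ℓ := by exact_mod_cast h2
        exact absurd ((Nat.prime_dvd_prime_iff_eq hr hℓ.out).mp h3).symm (hne r hrℓ)
      · exact hr'.dvd_of_dvd_pow h2
    obtain ⟨a, ha⟩ := h
    obtain ⟨b, hb⟩ := hrw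
    have hr0 : (r : ℤ) ≠ 0 := hr'.ne_zero
    have h2 : st p * v0 ^ 2 = r * (a ^ 2 - ℓ * b ^ 2) := by
      apply mul_left_cancel₀ hr0
      rw [ha, hb, hA] at huvw0
      linear_combination -huvw0
    have h3 : (r : ℤ) ∣ st p * v0 ^ 2 := ⟨_, h2⟩
    rcases hr'.dvd_or_dvd h3 with h4 | h4
    · have h5 : (r : ℤ) ∣ (p : ℤ) := h4.trans st_dvd.1
      have h6 : r ∣ p := by exact_mod_cast h5
      exact hpr ((Nat.prime_dvd_prime_iff_eq hr hp).mp h6).symm
    · exact hr'.not_isUnit (huv0.isUnit_of_dvd' ⟨a, ha⟩ (hr'.dvd_of_dvd_pow h4))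
  have hrℓ1 : (r : ℤ) ∣ ℓ - 1 := by
    have h8 : ((r : ℕ) : ℤ) ∣ ((ℓ - 1 : ℕ) : ℤ) := by exact_mod_cast hrℓ
    rw [Nat.cast_sub hℓ1] at h8
    exact_mod_cast h8
  -- the sign of `w`
  obtain ⟨w, hw, huvw, hwu⟩ : ∃ w : ℤ, w ≠ 0 ∧ u ^ 2 - A * v ^ 2 = ℓ * w ^ 2 ∧ (r : ℤ) ∣ w + u := by
    have h1 : (r : ℤ) ∣ (w0 + u) * (w0 - u) := by
      have h2 : (w0 + u) * (w0 - u) = -(A * v0 ^ 2) - (ℓ - 1) * w0 ^ 2 := by
        linear_combination -huvw0
      rw [h2]
      apply dvd_sub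
      · rw [dvd_neg]
        exact Dvd.dvd.mul_right (dvd_mul_left _ _) _
      · exact hrℓ1.mul_right _
    rcases hr'.dvd_or_dvd h1 with h2 | h2
    · exact ⟨w0, hw00, by rw [hv, mul_pow, hs2, one_mul]; exact huvw0, h2⟩
    · refine ⟨-w0, neg_ne_zero.mpr hw00, ?_, ?_⟩
      · rw [hv, mul_pow, hs2, one_mul, neg_sq]; exact huvw0
      · rw [show -w0 + u = -(w0 - u) by ring, dvd_neg]; exact h2
  -- the field
  have hpr0 : p * r ≠ 0 := mul_ne_zero hp.ne_zero hr.ne_zero
  have : NeZero (p * r) := ⟨hpr0⟩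
  obtain ⟨L, _, _, hL⟩ := exists_cyc (p * r)
  obtain ⟨ι⟩ := exists_emb L
  obtain ⟨α', hα'1, hα'⟩ := exists_lift_cyc (M := p * r) ι hp.ne_zero (dvd_mul_right p r) hα
  obtain ⟨γ', hγ'1, hγ'⟩ := exists_lift_cyc (M := p * r) ι hr.ne_zero (dvd_mul_left r p) hγ
  set af : ℕ → MulChar (ZMod ℓ) (𝓞 L) := fun s => if s = p then α' else γ' with haf
  have hafp : af p = α' := by rw [haf]; simp
  have hafr : af r = γ' := by rw [haf]; simp [hpr.symm]
  have hS : ∀ s ∈ ({p, r} : Finset ℕ), s.Prime ∧ s ≠ 2 ∧ s ∣ p * r := by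
    intro s hs
    rcases mem_insert.mp hs with rfl | hs
    · exact ⟨hp, hp2, dvd_mul_right _ _⟩
    · rw [mem_singleton] at hs
      subst hs
      exact ⟨hr, hr2, dvd_mul_left _ _⟩
  have hαS : ∀ s ∈ ({p, r} : Finset ℕ), orderOf (af s) = s := by
    intro s hs
    rcases mem_insert.mp hs with rfl | hs
    · rw [hafp, hα']
    · rw [mem_singleton] at hs
      subst hs
      rw [hafr, hγ']
  have hprod : ∏ s ∈ ({p, r} : Finset ℕ), st s = A := by
    rw [prod_pair hpr, hstr]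
  obtain ⟨k, _, _, ⟨Φ⟩⟩ := Pool.Agent.H916K.exists_red hq
  set φ : 𝓞 L →+* k := Φ.comp (jA ι) with hφ
  have hℓk : ((ℓ : ℕ) : k) = 1 := by
    have h3 : ((ℓ - 1 : ℕ) : k) = 0 := by
      rw [CharP.cast_eq_zero_iff k q]; exact hqℓ
    rw [Nat.cast_sub hℓ1, Nat.cast_one] at h3
    exact sub_eq_zero.mp h3
  have intk : ∀ a : ℤ, (a : k) = 0 ↔ (q : ℤ) ∣ a := fun a => CharP.intCast_eq_zero_iff k q a
  -- the square root
  have hρex : ∃ ρ : 𝓞 L, ρ ^ 2 = ((∏ s ∈ ({p, r} : Finset ℕ), st s : ℤ) : 𝓞 L) ∧ φ ρ * y = x := by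
    obtain ⟨ρ, hρ⟩ := exists_sqrt_int (M := p * r) (L := L) hS
    have h1 : (φ ρ * y) ^ 2 = (x : k) ^ 2 := by
      rw [mul_pow, ← map_pow, hρ, map_intCast, hprod]
      have h2 : ((x ^ 2 - A * y ^ 2 : ℤ) : k) = 0 := by rw [intk]; exact hqx2
      push_cast at h2
      linear_combination -h2
    rcases sq_eq_sq_iff_eq_or_eq_neg.mp h1 with h2 | h2
    · exact ⟨ρ, hρ, h2⟩
    · refine ⟨-ρ, by rw [neg_sq, hρ], ?_⟩
      rw [map_neg, neg_mul, h2, neg_neg]
  obtain ⟨ρ, hρ, hρx⟩ := hρex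
  have hModd : Odd (p * r) := (Nat.odd_iff.mpr hpo).mul (Nat.odd_iff.mpr hro)
  obtain ⟨ε, d, hε, hd, hεd, hE, hO, hdp, hd2⟩ := core (M := p * r) (L := L) (ℓ := ℓ) (S := {p, r})
    (α := af) hModd hℓ2 hS hαS hρ huv hw (by rw [hprod]; exact huvw)
  rw [hprod] at hρ
  have hGm : Gm {p, r} af = GG (gs p α') ((p - 1) / 2) * GG (gs r γ') ((r - 1) / 2) := by
    unfold Gm
    rw [prod_pair hpr, hafp, hafr]
  have hBB : ∀ σ : Gal(L/ℚ), BB (p * r) {p, r} af σ =
      bb (gs p α') (kk (p * r) p σ) * bb (gs r γ') (kk (p * r) r σ) := by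
    intro σ
    unfold BB
    rw [prod_pair hpr, hafp, hafr]
  have hkap : ∀ σ : Gal(L/ℚ), kap (p * r) {p, r} σ =
      p * kk (p * r) p σ + r * kk (p * r) r σ := by
    intro σ
    unfold kap
    rw [sum_pair hpr]
  have hGdvd := Gm_dvd hS hαS
  obtain ⟨e1, he1, hee1⟩ := sign_of_sq hev1
  obtain ⟨e2, he2, hee2⟩ := sign_of_sq hev2
  obtain ⟨e3, he3, hee3⟩ := sign_of_sq hev3
  have hqp0 := cast_ne_of_prime hp hq hpq
  have hqr0 := cast_ne_of_prime hr hq (Ne.symm hqr)
  have hrp0 := cast_ne_of_prime hp hr hpr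
  have hqd : ¬ (q : ℤ) ∣ d := by
    intro h
    rcases hdp q hq h with h1 | h1 | h1
    · exact hq2 h1
    · exact hne q hqℓ h1.symm
    · rcases (Nat.Prime.dvd_mul hq).mp h1 with h2 | h2
      · exact hpq ((Nat.prime_dvd_prime_iff_eq hq hp).mp h2).symm
      · exact hqr ((Nat.prime_dvd_prime_iff_eq hq hr).mp h2)
  -- first reduction
  have key1 : legendreSym q (d * (y * (x * v + y * u))) = e1 * e3 := by
    have hφG : φ (Gm {p, r} af) ≠ 0 := by
      obtain ⟨n, hn⟩ := hGdvd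
      intro h
      have h1 := map_dvd φ hn
      rw [h, map_pow, map_natCast, hℓk, one_pow, zero_dvd_iff] at h1
      exact one_ne_zero h1
    have hφβ : φ (u + v * ρ) * y = ((x * v + y * u : ℤ) : k) := by
      rw [map_add, map_mul, map_intCast, map_intCast]
      push_cast
      linear_combination (v : k) * hρx
    have hTk : ((x * v + y * u : ℤ) : k) ≠ 0 := by rw [Ne, intk]; exact hT
    have hdk : (d : k) ≠ 0 := by rw [Ne, intk]; exact hqd
    have hφβ0 : φ (u + v * ρ) ≠ 0 := by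
      intro h
      rw [h, zero_mul] at hφβ
      exact hTk hφβ.symm
    have hε2 : φ ε ^ 2 = d * (φ (Gm {p, r} af) * φ (u + v * ρ)) := by
      rw [← map_pow, hεd, map_mul, map_mul, map_intCast]
    have hε0 : φ ε ≠ 0 := by
      intro h
      rw [h, zero_pow two_ne_zero] at hε2
      exact mul_ne_zero hdk (mul_ne_zero hφG hφβ0) hε2.symm
    -- Frobenius
    have hqc : q.Coprime (p * r) := Nat.Coprime.mul_right
      ((Nat.coprime_primes hq hp).mpr (Ne.symm hpq)) ((Nat.coprime_primes hq hr).mpr hqr)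
    obtain ⟨σ, hσ⟩ := exists_gal (M := p * r) (L := L) hqc
    have hkp : kk (p * r) p σ = lg p q % (p - 1) := by
      apply kk_eq (dvd_mul_right p r) (Nat.mod_lt _ (by omega))
      rw [gn_mod, ← lg_spec hqp0]
      exact cast_dvd (dvd_mul_right p r) hσ
    have hkr : kk (p * r) r σ = lg r q % (r - 1) := by
      apply kk_eq (dvd_mul_left r p) (Nat.mod_lt _ (by omega))
      rw [gn_mod, ← lg_spec hqr0]
      exact cast_dvd (dvd_mul_left r p) hσ
    have hlp : Odd (lg p q) := by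
      rw [← Nat.not_even_iff_odd, even_lg hp2 hqp0,
        ← ZMod.exists_sq_eq_prime_iff_of_mod_four_eq_one hq4 hp2]
      exact hpq1
    have hlr : Odd (lg r q) := by
      rw [← Nat.not_even_iff_odd, even_lg hr2 hqr0]
      exact hqr1
    have hpe : Even (p - 1) := by rw [Nat.even_iff]; omega
    have hre : Even (r - 1) := by rw [Nat.even_iff]; omega
    have hkpo : Odd (kk (p * r) p σ) := by
      rw [← Nat.not_even_iff_odd, hkp, even_mod hpe, Nat.not_even_iff_odd]; exact hlp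
    have hkro : Odd (kk (p * r) r σ) := by
      rw [← Nat.not_even_iff_odd, hkr, even_mod hre, Nat.not_even_iff_odd]; exact hlr
    have hrel := hE σ (by
      rw [hkap]
      exact ((Nat.odd_iff.mpr hpo).mul hkpo).add_odd ((Nat.odd_iff.mpr hro).mul hkro))
    have hfrob : φ (σ • ε) = φ ε ^ q := by
      apply frob (M := p * r) (q := q) (e := 0) (M' := p * r) (by rw [pow_zero, one_mul])
      exact hσ
    have h1 := congrArg φ hrel
    rw [map_mul, map_pow, map_natCast, hℓk, one_pow, mul_one, hfrob, map_mul, hBB, map_mul] at h1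
    have hq1 : q = (q - 1) + 1 := by omega
    have h2 : φ ε ^ (q - 1) = φ (bb (gs p α') (kk (p * r) p σ)) *
        φ (bb (gs r γ') (kk (p * r) r σ)) := by
      apply mul_right_cancel₀ hε0
      rw [← pow_succ, ← hq1, h1]
    have h3 : φ ε ^ (q - 1) = (φ ε ^ 2) ^ ((q - 1) / 2) := by
      rw [← pow_mul]; congr 1; omega
    have s1 := star ι Φ hp2 hq2 hpq hq4 hα' hβ hψ hℓk (e := e1) (by rw [hα'1]; exact hee1) he1
    have s3 := star ι Φ hr2 hq2 (Ne.symm hqr) hq4 hγ' hβ hψ hℓk (e := e3)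
      (by rw [hγ'1]; exact hee3) he3
    rw [hlp.neg_one_pow] at s1
    rw [hlr.neg_one_pow] at s3
    have s1' : (e1 : k) * φ (bb (gs p α') (kk (p * r) p σ)) =
        φ (GG (gs p α') ((p - 1) / 2)) ^ ((q - 1) / 2) * -1 := by
      rw [hkp, ← bb_mod hp2 hα' φ hℓk]; exact s1
    have s3' : (e3 : k) * φ (bb (gs r γ') (kk (p * r) r σ)) =
        φ (GG (gs r γ') ((r - 1) / 2)) ^ ((q - 1) / 2) * -1 := by
      rw [hkr, ← bb_mod hr2 hγ' φ hℓk]; exact s3
    have s13 : ((e1 * e3 : ℤ) : k) * (φ ε ^ (q - 1)) = φ (Gm {p, r} af) ^ ((q - 1) / 2) := by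
      rw [h2, hGm, map_mul, mul_pow]
      push_cast
      linear_combination (e3 : k) * φ (bb (gs r γ') (kk (p * r) r σ)) * s1' -
        φ (GG (gs p α') ((p - 1) / 2)) ^ ((q - 1) / 2) * s3'
    rw [h3, hε2, mul_pow, mul_pow] at s13
    have hcan : ((e1 * e3 : ℤ) : k) * ((d : k) ^ ((q - 1) / 2) * φ (u + v * ρ) ^ ((q - 1) / 2)) = 1 := by
      apply mul_right_cancel₀ (pow_ne_zero ((q - 1) / 2) hφG)
      linear_combination s13
    have he13 : e1 * e3 = 1 ∨ e1 * e3 = -1 := by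
      rcases he1 with h | h <;> rcases he3 with h' | h' <;> rw [h, h'] <;> norm_num
    have hek : ((e1 * e3 : ℤ) : k) * ((e1 * e3 : ℤ) : k) = 1 := by
      rcases he13 with h | h <;> rw [h] <;> push_cast <;> ring
    have hval : ((e1 * e3 : ℤ) : k) = (d : k) ^ ((q - 1) / 2) * φ (u + v * ρ) ^ ((q - 1) / 2) := by
      have hne' : ((e1 * e3 : ℤ) : k) ≠ 0 := by
        intro h
        rw [h, zero_mul] at hek
        exact zero_ne_one hek
      apply mul_left_cancel₀ hne'
      rw [hcan, hek]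
    have hy1 : ((y : k) ^ ((q - 1) / 2)) * ((y : k) ^ ((q - 1) / 2)) = 1 := by
      rw [← leg_k hq2]
      rcases leg_sign hqy with h | h <;> rw [h] <;> push_cast <;> ring
    have hleg : ((legendreSym q (d * (y * (x * v + y * u))) : ℤ) : k) = ((e1 * e3 : ℤ) : k) := by
      rw [leg_k hq2, hval]
      push_cast
      rw [mul_pow, mul_pow]
      have h5 := congrArg (fun t => t ^ ((q - 1) / 2)) hφβ
      simp only [mul_pow] at h5
      push_cast at h5
      rw [← h5]
      linear_combination (d : k) ^ ((q - 1) / 2) * φ (u + v * ρ) ^ ((q - 1) / 2) * hy1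
    have hndvd : ¬ (q : ℤ) ∣ d * (y * (x * v + y * u)) := by
      intro h
      rcases hq'.dvd_or_dvd h with h6 | h6
      · exact hqd h6
      · rcases hq'.dvd_or_dvd h6 with h7 | h7
        · exact hqy h7
        · exact hT h7
    exact sign_eq hq2 (leg_sign hndvd) he13 hleg
  -- second reduction
  have key2 : ¬ (r : ℤ) ∣ d ∧ legendreSym r (d * u) = e2 := by
    obtain ⟨k2, _, _, ⟨Φ2⟩⟩ := Pool.Agent.H916K.exists_red hr
    set φ2 : 𝓞 L →+* k2 := Φ2.comp (jA ι) with hφ2
    have hℓk2 : ((ℓ : ℕ) : k2) = 1 := by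
      have h3 : ((ℓ - 1 : ℕ) : k2) = 0 := by
        rw [CharP.cast_eq_zero_iff k2 r]; exact hrℓ
      rw [Nat.cast_sub hℓ1, Nat.cast_one] at h3
      exact sub_eq_zero.mp h3
    have intk2 : ∀ a : ℤ, (a : k2) = 0 ↔ (r : ℤ) ∣ a := fun a => CharP.intCast_eq_zero_iff k2 r a
    have hρ0 : φ2 ρ = 0 := by
      have h1 : φ2 ρ ^ 2 = 0 := by
        rw [← map_pow, hρ, map_intCast, intk2, hA]
        exact dvd_mul_left _ _
      exact pow_eq_zero_iff two_ne_zero |>.mp h1
    have hφ2β : φ2 (u + v * ρ) = u := by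
      rw [map_add, map_mul, map_intCast, map_intCast, hρ0, mul_zero, add_zero]
    have hu0 : (u : k2) ≠ 0 := by rw [Ne, intk2]; exact hru
    have hwk : (w : k2) = -u := by
      have h1 : ((w + u : ℤ) : k2) = 0 := by rw [intk2]; exact hwu
      push_cast at h1
      linear_combination h1
    have h2k : (2 : k2) ≠ 0 := by
      intro h0
      have h1 : ((2 : ℕ) : k2) = 0 := by exact_mod_cast h0
      rw [CharP.cast_eq_zero_iff k2 r] at h1
      exact hr2 ((Nat.prime_dvd_prime_iff_eq hr Nat.prime_two).mp h1)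
    have hφG : φ2 (Gm {p, r} af) ≠ 0 := by
      obtain ⟨n, hn⟩ := hGdvd
      intro h
      have h1 := map_dvd φ2 hn
      rw [h, map_pow, map_natCast, hℓk2, one_pow, zero_dvd_iff] at h1
      exact one_ne_zero h1
    have hgr : ∀ i, φ2 (gs r γ' i) = -1 := by
      intro i
      -- the reduction of a Gauss sum of order `r`
      obtain ⟨ψ1, hψ1, hψ1'⟩ := exists_liftA_add ψ hψ
      have hjA : Function.Injective (jA ι) := by
        intro a b h
        apply jj_inj ι
        rw [← ia_jA, h, ia_jA]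
      have hprim : ψ1.IsPrimitive := by
        intro a ha h
        apply hψ1'
        ext c
        have h1 : (ψ1.mulShift a) (a⁻¹ * c) = 1 := by rw [h]; rfl
        rw [AddChar.mulShift_apply, mul_inv_cancel_left₀ ha] at h1
        rw [h1]; rfl
      have hγo : orderOf (γ'.ringHomComp (jA ι)) = r := by rw [orderOf_lift _ hjA, hγ']
      have h1 : jA ι (gs r γ' i) = gaussSum ((γ'.ringHomComp (jA ι)) ^ gn r ^ i) ψ1 ^ r := by
        unfold gs
        rw [map_ga]
        unfold ga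
        rw [← gam_eq hr.two_le (orderOf_pow_gen hγo (gn_spec r) i) hprim]
      have h2 : Φ2 (gaussSum ((γ'.ringHomComp (jA ι)) ^ gn r ^ i) ψ1) = -1 := by
        have h3 := red_G Φ2 (χ := 1) (q := r) (e := 1)
          (by rw [pow_one]; exact orderOf_pow_gen hγo (gn_spec r) i) ψ1
        rw [mul_one] at h3
        rw [h3, gaussSum_one_left hψ1', map_neg, map_one]
      rw [hφ2, RingHom.comp_apply, h1, map_pow, h2, (Nat.odd_iff.mpr hro).neg_one_pow]
    have hε2 : φ2 ε ^ 2 = d * (φ2 (Gm {p, r} af) * u) := by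
      rw [← map_pow, hεd, map_mul, map_mul, map_intCast, hφ2β]
    -- the prime `r` does not divide `d`
    have hrd : ¬ (r : ℤ) ∣ d := by
      rintro ⟨d', hd'⟩
      have hrd' : ¬ (r : ℤ) ∣ d' := by
        rintro ⟨f, hf⟩
        exact hr'.not_isUnit (hd _ ⟨f, by rw [hd', hf]; ring⟩)
      have h1 : (ε * ρ) ^ 2 = ((r : ℤ) : 𝓞 L) ^ 2 *
          (((d' * st p : ℤ) : 𝓞 L) * (Gm {p, r} af * (u + v * ρ))) := by
        rw [mul_pow, hεd, hρ, hd', hA]
        push_cast
        ring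
      obtain ⟨η, hη1, hη2⟩ := int_div hr'.ne_zero h1
      have hη0 : φ2 η ≠ 0 := by
        intro h
        have h2 := congrArg φ2 hη2
        rw [map_pow, h, zero_pow two_ne_zero, map_mul, map_mul, map_intCast, hφ2β] at h2
        have h3 : ((d' * st p : ℤ) : k2) ≠ 0 := by
          rw [Ne, intk2]
          intro h4
          rcases hr'.dvd_or_dvd h4 with h5 | h5
          · exact hrd' h5
          · have h6 : (r : ℤ) ∣ (p : ℤ) := h5.trans st_dvd.1
            have h7 : r ∣ p := by exact_mod_cast h6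
            exact hpr ((Nat.prime_dvd_prime_iff_eq hr hp).mp h7).symm
        exact mul_ne_zero h3 (mul_ne_zero hφG hu0) h2.symm
      -- an inertia element
      obtain ⟨c, hc1, hc2⟩ : ∃ c : ℕ, c ≡ 1 [MOD p] ∧ c ≡ gn r [MOD r] :=
        ⟨(Nat.chineseRemainder hprN 1 (gn r) : ℕ), (Nat.chineseRemainder hprN 1 (gn r)).2⟩
      have hcr : ((c : ℕ) : ZMod r) = (gn r : ZMod r) := (ZMod.natCast_eq_natCast_iff _ _ _).mpr hc2
      have hcp : ((c : ℕ) : ZMod p) = 1 := by
        have := (ZMod.natCast_eq_natCast_iff _ _ _).mpr hc1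
        simpa using this
      have hcc : c.Coprime (p * r) := by
        apply Nat.Coprime.mul_right
        · rw [← ZMod.isUnit_iff_coprime, hcp]; exact isUnit_one
        · rw [← ZMod.isUnit_iff_coprime, hcr]; exact isUnit_iff_ne_zero.mpr (gn_spec r).ne_zero
      obtain ⟨τ, hτ⟩ := exists_gal (M := p * r) (L := L) hcc
      have hkp : kk (p * r) p τ = 0 := by
        apply kk_eq (dvd_mul_right p r) (by omega)
        rw [cast_dvd (dvd_mul_right p r) hτ, hcp, pow_zero]
      have hkr : kk (p * r) r τ = 1 := by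
        apply kk_eq (dvd_mul_left r p) (by omega)
        rw [cast_dvd (dvd_mul_left r p) hτ, hcr, pow_one]
      have hodd : Odd (kap (p * r) {p, r} τ) := by
        rw [hkap, hkp, hkr, mul_zero, zero_add, mul_one]
        exact Nat.odd_iff.mpr hro
      have hrel := hO τ hodd
      have hτρ : τ • ρ = -ρ := by
        apply RingOfIntegers.coe_injective
        have h2 : (ρ : L) ^ 2 = ((∏ s ∈ ({p, r} : Finset ℕ), st s : ℤ) : L) := by
          have h3 := congrArg (algebraMap (𝓞 L) L) hρ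
          rw [map_pow, map_intCast] at h3
          rw [hprod]
          exact h3
        have h3 := smul_sqrt (M := p * r) hS h2 τ
        rw [hodd.neg_one_pow, neg_one_mul] at h3
        refine Eq.trans h3 ?_
        exact (map_neg (algebraMap (𝓞 L) L) ρ).symm
      have hr0 : ((r : ℤ) : 𝓞 L) ≠ 0 := by exact_mod_cast hr.ne_zero
      have h4 : (τ • η) * (ℓ : 𝓞 L) ^ (kap (p * r) {p, r} τ / 2) * (u + v * ρ) =
          -(BB (p * r) {p, r} af τ * w * η) := by
        apply mul_left_cancel₀ hr0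
        have h5 : ((r : ℤ) : 𝓞 L) * (τ • η) = (τ • ε) * (-ρ) := by
          have h6 := congrArg (gh τ) hη1
          rw [map_mul, map_mul, map_intCast, gh_apply, gh_apply, gh_apply, hτρ] at h6
          exact h6.symm
        calc ((r : ℤ) : 𝓞 L) * ((τ • η) * (ℓ : 𝓞 L) ^ (kap (p * r) {p, r} τ / 2) * (u + v * ρ))
            = (((r : ℤ) : 𝓞 L) * (τ • η)) * (ℓ : 𝓞 L) ^ (kap (p * r) {p, r} τ / 2) *
              (u + v * ρ) := by ring
          _ = (-ρ) * ((τ • ε) * (ℓ : 𝓞 L) ^ (kap (p * r) {p, r} τ / 2) * (u + v * ρ)) := by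
              rw [h5]; ring
          _ = (-ρ) * (BB (p * r) {p, r} af τ * w * ε) := by rw [hrel]
          _ = -(BB (p * r) {p, r} af τ * w * (ε * ρ)) := by ring
          _ = ((r : ℤ) : 𝓞 L) * -(BB (p * r) {p, r} af τ * w * η) := by rw [hη1]; ring
      have h7 := congrArg φ2 h4
      have hin : φ2 (τ • η) = φ2 η := by
        apply inert (M := p * r) (q := r) (e := 1) (M' := p) (by rw [pow_one, mul_comm])
        rw [cast_dvd (dvd_mul_right p r) hτ, hcp]
      rw [map_neg, map_mul, map_mul, map_mul, map_mul, map_pow, map_natCast, hℓk2, one_pow, mul_one,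
        hφ2β, hin, map_intCast, hBB, hkp, hkr, map_mul] at h7
      have h8 : φ2 (bb (gs p α') 0) = 1 := by unfold bb; simp
      have h9 : φ2 (bb (gs r γ') 1) = -1 := by
        unfold bb
        rw [prod_range_one]
        exact hgr 0
      rw [h8, h9, hwk] at h7
      have h10 : φ2 η * u * 2 = 0 := by linear_combination h7
      exact mul_ne_zero (mul_ne_zero hη0 hu0) h2k h10
    refine ⟨hrd, ?_⟩
    have hdk : (d : k2) ≠ 0 := by rw [Ne, intk2]; exact hrd
    have hε0 : φ2 ε ≠ 0 := by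
      intro h
      rw [h, zero_pow two_ne_zero] at hε2
      exact mul_ne_zero hdk (mul_ne_zero hφG hu0) hε2.symm
    -- the Frobenius element
    obtain ⟨c, hc1, hc2⟩ : ∃ c : ℕ, c ≡ r [MOD p] ∧ c ≡ 1 [MOD r] :=
      ⟨(Nat.chineseRemainder hprN r 1 : ℕ), (Nat.chineseRemainder hprN r 1).2⟩
    have hcp : ((c : ℕ) : ZMod p) = (r : ZMod p) := (ZMod.natCast_eq_natCast_iff _ _ _).mpr hc1
    have hcr : ((c : ℕ) : ZMod r) = 1 := by
      have := (ZMod.natCast_eq_natCast_iff _ _ _).mpr hc2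
      simpa using this
    have hcc : c.Coprime (p * r) := by
      apply Nat.Coprime.mul_right
      · rw [← ZMod.isUnit_iff_coprime, hcp]; exact isUnit_iff_ne_zero.mpr hrp0
      · rw [← ZMod.isUnit_iff_coprime, hcr]; exact isUnit_one
    obtain ⟨τ, hτ⟩ := exists_gal (M := p * r) (L := L) hcc
    have hkp : kk (p * r) p τ = lg p r % (p - 1) := by
      apply kk_eq (dvd_mul_right p r) (Nat.mod_lt _ (by omega))
      rw [gn_mod, ← lg_spec hrp0, cast_dvd (dvd_mul_right p r) hτ, hcp]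
    have hkr : kk (p * r) r τ = 0 := by
      apply kk_eq (dvd_mul_left r p) (by omega)
      rw [cast_dvd (dvd_mul_left r p) hτ, hcr, pow_zero]
    have hlp : Odd (lg p r) := by
      rw [← Nat.not_even_iff_odd, even_lg hp2 hrp0,
        ← ZMod.exists_sq_eq_prime_iff_of_mod_four_eq_one hr4 hp2]
      exact hpr1
    have hpe : Even (p - 1) := by rw [Nat.even_iff]; omega
    have hkpo : Odd (kk (p * r) p τ) := by
      rw [← Nat.not_even_iff_odd, hkp, even_mod hpe, Nat.not_even_iff_odd]; exact hlp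
    have hrel := hO τ (by
      rw [hkap, hkr, mul_zero, add_zero]
      exact (Nat.odd_iff.mpr hpo).mul hkpo)
    have hfrob : φ2 (τ • ε) = φ2 ε ^ r := by
      apply frob (M := p * r) (q := r) (e := 1) (M' := p) (by rw [pow_one, mul_comm])
      rw [cast_dvd (dvd_mul_right p r) hτ, hcp]
    have h1 := congrArg φ2 hrel
    rw [map_mul, map_mul, map_pow, map_natCast, hℓk2, one_pow, mul_one, hfrob, hφ2β, map_mul,
      map_mul, map_intCast, hBB, hkr, map_mul, hwk] at h1
    have h8 : φ2 (bb (gs r γ') 0) = 1 := by unfold bb; simp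
    rw [h8, mul_one] at h1
    have hr1 : r = (r - 1) + 1 := by omega
    have h2 : φ2 ε ^ (r - 1) = - φ2 (bb (gs p α') (kk (p * r) p τ)) := by
      apply mul_right_cancel₀ hε0
      apply mul_right_cancel₀ hu0
      rw [← pow_succ, ← hr1, h1]
      ring
    have h3 : φ2 ε ^ (r - 1) = (φ2 ε ^ 2) ^ ((r - 1) / 2) := by
      rw [← pow_mul]; congr 1; omega
    have s2 := star ι Φ2 hp2 hr2 hpr hr4 hα' hγ hψ hℓk2 (e := e2) (by rw [hα'1]; exact hee2) he2
    rw [hlp.neg_one_pow] at s2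
    have s2' : (e2 : k2) * φ2 (bb (gs p α') (kk (p * r) p τ)) =
        φ2 (GG (gs p α') ((p - 1) / 2)) ^ ((r - 1) / 2) * -1 := by
      rw [hkp, ← bb_mod hp2 hα' φ2 hℓk2]; exact s2
    have hGr : φ2 (GG (gs r γ') ((r - 1) / 2)) = 1 := by
      unfold GG
      rw [map_prod, prod_congr rfl fun i _ => hgr _, prod_const, card_range]
      have : Even ((r - 1) / 2) := by rw [Nat.even_iff]; omega
      exact this.neg_one_pow
    have hGm2 : φ2 (Gm {p, r} af) = φ2 (GG (gs p α') ((p - 1) / 2)) := by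
      rw [hGm, map_mul, hGr, mul_one]
    rw [hGm2] at hφG hε2
    have s4 : (e2 : k2) * (φ2 ε ^ (r - 1)) = φ2 (GG (gs p α') ((p - 1) / 2)) ^ ((r - 1) / 2) := by
      rw [h2]
      linear_combination -s2'
    rw [h3, hε2, mul_pow, mul_pow] at s4
    have hcan : (e2 : k2) * ((d : k2) ^ ((r - 1) / 2) * (u : k2) ^ ((r - 1) / 2)) = 1 := by
      apply mul_right_cancel₀ (pow_ne_zero ((r - 1) / 2) hφG)
      linear_combination s4
    have hek : (e2 : k2) * e2 = 1 := by
      rcases he2 with h | h <;> rw [h] <;> push_cast <;> ring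
    have hval : (e2 : k2) = (d : k2) ^ ((r - 1) / 2) * (u : k2) ^ ((r - 1) / 2) := by
      have hne' : (e2 : k2) ≠ 0 := by
        intro h
        rw [h, zero_mul] at hek
        exact zero_ne_one hek
      apply mul_left_cancel₀ hne'
      rw [hcan, hek]
    have hleg : ((legendreSym r (d * u) : ℤ) : k2) = e2 := by
      rw [leg_k hr2, hval]
      push_cast
      rw [mul_pow]
    have hndvd : ¬ (r : ℤ) ∣ d * u := by
      intro h
      rcases hr'.dvd_or_dvd h with h6 | h6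
      · exact hrd h6
      · exact hru h6
    exact sign_eq hr2 (leg_sign hndvd) he2 hleg
  obtain ⟨hrd, key2⟩ := key2
  -- the final computation
  have hN4 : (q * r) % 4 = 1 := by rw [Nat.mul_mod, hq4, hr4]
  have hqrN : Nat.Coprime q r := (Nat.coprime_primes hq hr).mpr hqr
  have hNℓ : q * r ∣ ℓ - 1 := Nat.Coprime.mul_dvd_of_dvd_of_dvd hqrN hqℓ hrℓ
  have hjp : jacobiSym p (q * r) = 1 := by
    have h1 : legendreSym q (p : ℤ) = -1 := by
      have h2 : ((p : ℤ) : ZMod q) ≠ 0 := by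
        push_cast
        exact cast_ne_of_prime hq hp (Ne.symm hpq)
      rw [legendreSym.eq_neg_one_iff]
      simpa using hpq1
    have h3 : legendreSym r (p : ℤ) = -1 := by
      rw [legendreSym.eq_neg_one_iff]
      simpa using hpr1
    rw [jacobiSym.mul_right, ← jacobiSym.legendreSym.to_jacobiSym,
      ← jacobiSym.legendreSym.to_jacobiSym, h1, h3]
    norm_num
  have hjd : jacobiSym d (q * r) = if Odd u ∧ Odd v then jacobiSym 2 (q * r) else 1 := by
    rw [jac_d hN4 hd]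
    · simp only [hd2]
    · intro s hs hs2' hsd
      rcases hdp s hs hsd with h6 | h6 | h6
      · exact absurd h6 hs2'
      · rw [h6]
        exact jac_l hℓ1 hNℓ
      · rcases (Nat.Prime.dvd_mul hs).mp h6 with h7 | h7
        · rw [(Nat.prime_dvd_prime_iff_eq hs hp).mp h7]
          exact hjp
        · exfalso
          rw [(Nat.prime_dvd_prime_iff_eq hs hr).mp h7] at hsd
          exact hrd hsd
  have hTr : ¬ (r : ℤ) ∣ x * v + y * u := by
    intro h
    have h1 : (r : ℤ) ∣ y * u := by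
      have h2 := dvd_sub h (hrx.mul_right v)
      rwa [add_sub_cancel_left] at h2
    rcases hr'.dvd_or_dvd h1 with h2 | h2
    · exact hry h2
    · exact hru h2
  have hcopT : IsCoprime (x * v + y * u) (((q * r : ℕ)) : ℤ) := by
    rw [hNq]
    exact IsCoprime.mul_right (hq'.coprime_iff_not_dvd.mpr hT).symm
      (hr'.coprime_iff_not_dvd.mpr hTr).symm
  have hℓN : ¬ ℓ ∣ q * r := by
    intro h
    rcases (Nat.Prime.dvd_mul hℓ.out).mp h with h1 | h1
    · exact hne q hqℓ ((Nat.prime_dvd_prime_iff_eq hℓ.out hq).mp h1)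
    · exact hne r hrℓ ((Nat.prime_dvd_prime_iff_eq hℓ.out hr).mp h1)
  have hNsq : Squarefree (q * r) :=
    (Nat.squarefree_mul hqrN).mpr ⟨hq.prime.squarefree, hr.prime.squarefree⟩
  have hfin := hRec A (q * r) ℓ x y z u v w hA4 hAsq hNsq hN4 hℓ8 hℓA hℓN
    (jac_l hℓ1 hNℓ) hN hxy hz hℓz huvw huv hw hcopT t ht
  have hleg_r : legendreSym r (y * (x * v + y * u)) = legendreSym r u := by
    have h1 : ((y * (x * v + y * u) : ℤ) : ZMod r) = ((y * y * u : ℤ) : ZMod r) := by
      rw [← sub_eq_zero, ← Int.cast_sub, ZMod.intCast_zmod_eq_zero_iff_dvd]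
      rw [show y * (x * v + y * u) - y * y * u = x * (y * v) by ring]
      exact hrx.mul_right _
    have h2 : legendreSym r (y * (x * v + y * u)) = legendreSym r (y * y * u) := by
      unfold legendreSym
      rw [h1]
    rw [h2, legendreSym.mul, legendreSym.mul]
    have h3 := leg_sign hry
    rcases h3 with h4 | h4 <;> rw [h4] <;> ring
  have hjj : jacobiSym d (q * r) * jacobiSym (y * (x * v + y * u)) (q * r) = e1 * e3 * e2 := by
    rw [jacobiSym.mul_right, jacobiSym.mul_right, ← jacobiSym.legendreSym.to_jacobiSym,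
      ← jacobiSym.legendreSym.to_jacobiSym, ← jacobiSym.legendreSym.to_jacobiSym,
      ← jacobiSym.legendreSym.to_jacobiSym, hleg_r]
    rw [legendreSym.mul] at key1 key2
    rw [← key1, ← key2]
    ring
  rw [hfin, hee1, hee2, hee3, ← hjd, hjj]
  push_cast
  ring

end T

end Pool.Agent.H180.RS
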