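import Pool.Agent.Q210.RS.Par

/-!
# The parity of the number of the entries of order a power of `q`, over subfields of cyclotomic fields

Adapted from `Pool.Agent.Q210.RS.Par` (helper210).
-/

set_option autoImplicit false

namespace Pool.Agent.H180.RS

open NumberField Finset Pool.Agent.H916K Pool.Agent.Q210.RS

/-- integers of the subfield -/
noncomputable abbrev io {K0 K : Type} [Field K0] [NumberField K0] [Field K] [NumberField K]
    (j0 : K0 →+* K) : 𝓞 K0 →+* 𝓞 K := RingOfIntegers.mapRingHom j0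

theorem parK (h1 : Pool.Agent.H180.RS.PropOm) (h2 : Pool.Agent.H180.RS.PropSym)
    (N : ℕ) [NeZero N] (K : Type) [Field K] [NumberField K] [IsCyclotomicExtension {N} ℚ K]
    (K0 : Type) [Field K0] [NumberField K0] (j0 : K0 →+* K) (σ : K0 →+* ℂ) (m M q b : ℕ)
    (hmodd : Odd m) (hmN : m ∣ N) (ζ0 : 𝓞 K0) (hζ0 : IsPrimitiveRoot ζ0 m) (hm : M * q ^ b = m)
    (hb : 0 < b) (hM : 3 ≤ M) (hq : q.Prime) (hcop : M.Coprime q)
    (s : Multiset (ZMod m × 𝓞 K0)) (hs : ∀ z ∈ s, z.2 ≠ 0)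
    (hfix : Pool.Agent.Q59.RL.Fixed m σ s) : Even (s.countP fun z => M ∣ z.1.val) := by
  classical
  have hN0 : 0 < N := Nat.pos_of_ne_zero (NeZero.ne N)
  have hm0 : 0 < m := by obtain ⟨k, rfl⟩ := hmodd; omega
  have hq2 : q ≠ 2 := by
    rintro rfl
    have : 2 ∣ m := hm ▸ (dvd_pow_self 2 hb.ne').mul_left M
    obtain ⟨k, hk⟩ := hmodd
    omega
  have hMm : M ∣ m := hm ▸ Dvd.intro _ rfl
  have hModd : Odd M := hmodd.of_dvd_nat hMm
  obtain ⟨e, N1, hN1, hN⟩ := Nat.exists_eq_pow_mul_and_not_dvd (NeZero.ne N) q hq.one_lt.ne'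
  have hcopN : (q ^ e).Coprime N1 := ((Nat.Prime.coprime_iff_not_dvd hq).mpr hN1).pow_left e
  have hN10 : 0 < N1 := by
    rcases Nat.eq_zero_or_pos N1 with h | h
    · rw [h, mul_zero] at hN; omega
    · exact h
  have hMN1 : M ∣ N1 := by
    have h3 : M ∣ q ^ e * N1 := hN ▸ (hMm.trans hmN)
    exact Nat.Coprime.dvd_of_dvd_mul_left (hcop.pow_right e) h3
  have hqbe : q ^ b ∣ q ^ e := by
    have h3 : q ^ b ∣ q ^ e * N1 := hN ▸ ((hm ▸ Dvd.intro_left _ rfl : q ^ b ∣ m).trans hmN)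
    exact Nat.Coprime.dvd_of_dvd_mul_right
      (((Nat.Prime.coprime_iff_not_dvd hq).mpr hN1).pow_left b) h3
  obtain ⟨t, htN, htt, htN1, htq⟩ := exists_exp2 hN hN10 hcopN
  -- the automorphism of `K`
  have hζ := IsCyclotomicExtension.zeta_spec N ℚ K
  set ζ := IsCyclotomicExtension.zeta N ℚ K with hζdef
  have hζt := hζ.pow_of_coprime t htN
  obtain ⟨g1, hg1⟩ : ∃ g1 : K ≃ₐ[ℚ] K, g1 ζ = ζ ^ t :=
    ⟨_, IsCyclotomicExtension.fromZetaAut_spec hζt (Polynomial.cyclotomic.irreducible_rat hN0)⟩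
  have hg11 : ∀ x, g1 (g1 x) = x := by
    have h3 : g1 * g1 = 1 := by
      apply IsCyclotomicExtension.algEquiv_eq_of_apply_eq {N} ℚ K
      intro n hn _
      rw [Set.mem_singleton_iff] at hn
      subst hn
      refine ⟨ζ, hζ, ?_⟩
      rw [AlgEquiv.mul_apply, hg1, map_pow, hg1, ← pow_mul, AlgEquiv.one_apply]
      have h4 := pow_eq_pow_of_modEq htt hζ.pow_eq_one
      rw [pow_one] at h4
      exact h4
    intro x
    exact congrArg (fun f : K ≃ₐ[ℚ] K => f x) h3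
  -- the Kummer extension
  obtain ⟨Ω, _, _, j, hgal, hroots, hexp⟩ := h1 N K m hm0 hmN
    ((s.map fun z => io j0 z.2).toFinset)
  have : IsGalois ℚ Ω := hgal
  letI : Algebra K Ω := j.toAlgebra
  set g0 : Gal(Ω/ℚ) := g1.liftNormal Ω with hg0
  have hg0j : ∀ x : K, g0 (j x) = j (g1 x) := fun x => AlgEquiv.liftNormal_commutes g1 Ω x
  have hg02 : ∀ x : K, (g0 ^ 2) (j x) = j x := by
    intro x
    rw [sq, AlgEquiv.mul_apply, hg0j, hg0j, hg11]
  set g : Gal(Ω/ℚ) := g0 ^ m with hg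
  have hgsq : g ^ 2 = 1 := by
    rw [hg, ← pow_mul, mul_comm, pow_mul]
    exact hexp _ hg02
  have hgj : ∀ x : K, g (j x) = j (g1 x) := by
    intro x
    obtain ⟨k, hk⟩ := hmodd
    have h3 : ∀ k : ℕ, ((g0 ^ 2) ^ k) (j x) = j x := by
      intro k
      induction k with
      | zero => rw [pow_zero, AlgEquiv.one_apply]
      | succ k ih => rw [pow_succ, AlgEquiv.mul_apply, hg02, ih]
    rw [hg, hk, pow_succ', pow_mul, AlgEquiv.mul_apply, h3, hg0j]
  -- bounds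
  obtain ⟨B1, hB1⟩ := hfix
  have hbd : ∃ B2 : ℕ, ∀ z ∈ s, ∀ (F : Type) [Field F] [Fintype F] (φ : 𝓞 K0 →+* F),
      Function.Surjective φ → B2 < Fintype.card F → φ z.2 ≠ 0 := by
    have h3 : ∀ z : ZMod m × 𝓞 K0, ∃ B : ℕ, z ∈ s → ∀ (F : Type) [Field F] [Fintype F]
        (φ : 𝓞 K0 →+* F), Function.Surjective φ → B < Fintype.card F → φ z.2 ≠ 0 := by
      intro z
      by_cases hz : z ∈ s
      · obtain ⟨B, hB⟩ := Pool.Agent.Q59.RL.exists_bound (hs z hz)
        exact ⟨B, fun _ => hB⟩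
      · exact ⟨0, fun h => absurd h hz⟩
    choose Bf hBf using h3
    refine ⟨(s.map Bf).sum, fun z hz F _ _ φ hφ hF => hBf z hz F φ hφ ?_⟩
    exact lt_of_le_of_lt (Multiset.single_le_sum (fun _ _ => Nat.zero_le _) _
      (Multiset.mem_map_of_mem _ hz)) hF
  obtain ⟨B2, hB2⟩ := hbd
  obtain ⟨ℓ, hℓF, Φ, hℓB, hΦ⟩ := exists_frob_field Ω g hgsq (N + B1 + B2 + 2)
  have hℓ : ℓ.Prime := hℓF.out
  have : Fact q.Prime := ⟨hq⟩
  have : Fintype (GaloisField ℓ 2) := Fintype.ofFinite _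
  have hcard : Fintype.card (GaloisField ℓ 2) = ℓ ^ 2 := by
    rw [← Nat.card_eq_fintype_card]; exact GaloisField.card ℓ 2 (by norm_num)
  have hℓ2 := hℓ.two_le
  have hbig : ℓ ≤ Fintype.card (GaloisField ℓ 2) := by
    rw [hcard, sq]; exact Nat.le_mul_self ℓ
  set φ : 𝓞 K →+* GaloisField ℓ 2 := Φ.comp (RingOfIntegers.mapRingHom j) with hφ
  -- the Frobenius on `φ`
  have hφfrob : ∀ x y : 𝓞 K, g1 (x : K) = (y : K) → φ y = φ x ^ ℓ := by
    intro x y hxy
    have h3 := hΦ (RingOfIntegers.mapRingHom j x)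
    have h4 : g • (RingOfIntegers.mapRingHom j x) = RingOfIntegers.mapRingHom j y := by
      apply RingOfIntegers.ext
      change g (j x) = j y
      rw [hgj, hxy]
    rw [h4] at h3
    exact h3
  have hζi : IsPrimitiveRoot hζ.toInteger N := hζ.toInteger_isPrimitiveRoot
  set ζi : 𝓞 K := hζ.toInteger with hζidef
  have hφζ : φ (ζi ^ t) = φ ζi ^ ℓ := by
    apply hφfrob
    have h3 : algebraMap (𝓞 K) K ζi = ζ := rfl
    change g1 (algebraMap (𝓞 K) K ζi) = algebraMap (𝓞 K) K (ζi ^ t)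
    rw [map_pow, h3, hg1]
  have : NeZero ((N : ℕ) : GaloisField ℓ 2) := by
    refine ⟨fun h0 => ?_⟩
    rw [CharP.cast_eq_zero_iff (GaloisField ℓ 2) ℓ] at h0
    have := Nat.le_of_dvd hN0 h0
    omega
  have hprim : IsPrimitiveRoot (φ ζi) N := by
    rw [← Polynomial.isRoot_cyclotomic_iff]
    have h3 := (hζi.isRoot_cyclotomic hN0).map (f := φ)
    rwa [Polynomial.map_cyclotomic] at h3
  have hℓt : ℓ ≡ t [MOD N] := by
    have h3 : φ ζi ^ ℓ = φ ζi ^ t := by rw [← hφζ, map_pow]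
    have hu := hprim.isUnit hN0.ne'
    obtain ⟨u, hu⟩ := hu
    have h4 : u ^ ℓ = u ^ t := by
      apply Units.ext
      push_cast
      rw [hu, h3]
    rw [pow_eq_pow_iff_modEq] at h4
    have h5 : orderOf u = N := by
      rw [← orderOf_units, hu]; exact hprim.eq_orderOf.symm
    rwa [h5] at h4
  have hMℓ : M ∣ ℓ + 1 := by
    have h3 : ℓ ≡ t [MOD N1] := hℓt.of_dvd (hN ▸ Dvd.intro_left _ rfl)
    have h4 : ℓ + 1 ≡ 0 [MOD N1] := (h3.add_right 1).trans htN1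
    exact hMN1.trans ((Nat.modEq_zero_iff_dvd).mp h4)
  have hqbℓ : q ^ b ∣ ℓ - 1 := by
    have h3 : ℓ ≡ t [MOD q ^ e] := hℓt.of_dvd (hN ▸ Dvd.intro _ rfl)
    have h4 : 1 ≡ ℓ [MOD q ^ e] := (h3.trans htq).symm
    exact hqbe.trans ((Nat.modEq_iff_dvd' (by omega)).mp h4)
  have hℓodd : ℓ % 2 = 1 := by
    rcases hℓ.eq_two_or_odd with h | h
    · omega
    · exact h
  have h2M : 2 * M ∣ ℓ + 1 := by
    apply Nat.Coprime.mul_dvd_of_dvd_of_dvd _ (by omega) hMℓ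
    exact (Nat.coprime_two_left).mpr hModd
  have hfac : ℓ ^ 2 - 1 = (ℓ + 1) * (ℓ - 1) := by
    obtain ⟨k, rfl⟩ : ∃ k, ℓ = k + 1 := ⟨ℓ - 1, by omega⟩
    simp only [Nat.add_sub_cancel]
    have : (k + 1) ^ 2 = (k + 1 + 1) * k + 1 := by ring
    omega
  have hmdvd : m ∣ Fintype.card (GaloisField ℓ 2) - 1 := by
    rw [hcard, hfac, ← hm]; exact Nat.mul_dvd_mul hMℓ hqbℓ
  -- surjectivity
  set φ0 : 𝓞 K0 →+* GaloisField ℓ 2 := φ.comp (io j0) with hφ0
  have : NeZero ((m : ℕ) : GaloisField ℓ 2) := by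
    refine ⟨fun h0 => ?_⟩
    rw [CharP.cast_eq_zero_iff (GaloisField ℓ 2) ℓ] at h0
    have := Nat.le_of_dvd hm0 h0
    have := Nat.le_of_dvd hN0 hmN
    omega
  have hprim0 : IsPrimitiveRoot (φ0 ζ0) m := by
    rw [← Polynomial.isRoot_cyclotomic_iff]
    have h3 := (hζ0.isRoot_cyclotomic hm0).map (f := φ0)
    rwa [Polynomial.map_cyclotomic] at h3
  have hsurj : Function.Surjective φ0 := by
    refine surj_of_frob hcard φ0 ζ0 ?_
    intro h3
    have h4 : ℓ ≡ 1 [MOD m] := by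
      have hu := hprim0.isUnit hm0.ne'
      obtain ⟨u, hu⟩ := hu
      have h4 : u ^ ℓ = u ^ 1 := by
        apply Units.ext
        push_cast
        rw [hu, h3, pow_one]
      rw [pow_eq_pow_iff_modEq] at h4
      have h5 : orderOf u = m := by
        rw [← orderOf_units, hu]; exact hprim0.eq_orderOf.symm
      rwa [h5] at h4
    have h5 : m ∣ ℓ - 1 := (Nat.modEq_iff_dvd' (by omega)).mp h4.symm
    have h6 : M ∣ ℓ - 1 := hMm.trans h5
    have h7 : M ∣ (ℓ + 1) - (ℓ - 1) := Nat.dvd_sub hMℓ h6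
    have h8 : (ℓ + 1) - (ℓ - 1) = 2 := by omega
    rw [h8] at h7
    have := Nat.le_of_dvd (by norm_num) h7
    omega
  -- the symbol
  obtain ⟨χ, hχ⟩ := h2 K0 m ζ0 hζ0 hm0 σ (GaloisField ℓ 2) φ0 hsurj hmdvd
  obtain ⟨χ', hχ'⟩ := exists_lift χ
  have hinj : Function.Injective (algebraMap AI ℂ) := Subtype.val_injective
  have hordχ : orderOf χ' = m := by
    rw [← hχ.order, ← hχ']
    exact (orderOf_injective (MulChar.ringHomCompHom (algebraMap AI ℂ))
      (MulChar.injective_ringHomComp hinj) χ').symm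
  -- the additive character
  obtain ⟨ξ, hξ⟩ : ∃ ξ : AI, IsPrimitiveRoot ξ ℓ := by
    have h1 := Complex.isPrimitiveRoot_exp ℓ hℓ.ne_zero
    have h2 : IsIntegral ℤ (Complex.exp (2 * Real.pi * Complex.I / ℓ)) :=
      h1.isIntegral hℓ.pos
    refine ⟨⟨_, h2⟩, ?_⟩
    exact IsPrimitiveRoot.of_map_of_injective (f := algebraMap AI ℂ) h1 hinj
  set ψ0 : AddChar (ZMod ℓ) AI := AddChar.zmodChar ℓ hξ.pow_eq_one with hψ0
  have hψ1 : ψ0 ≠ 1 := by
    intro h
    have h1 : ψ0 1 = 1 := by rw [h]; rfl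
    rw [hψ0, AddChar.zmodChar_apply] at h1
    have : Fact (1 < ℓ) := ⟨hℓ.one_lt⟩
    rw [ZMod.val_one, pow_one] at h1
    exact hξ.ne_one hℓ.one_lt h1
  set ψ := ψ0.compAddMonoidHom (Algebra.trace (ZMod ℓ) (GaloisField ℓ 2)).toAddMonoidHom with hψdef
  set ψ' : AddChar (GaloisField ℓ 2) ℂ := (algebraMap AI ℂ).toMonoidHom.compAddChar ψ with hψ'
  have hψ'1 : ψ' ≠ 1 := by
    intro h
    apply hψ1
    ext c
    obtain ⟨x, hx⟩ := Algebra.trace_surjective (ZMod ℓ) (GaloisField ℓ 2) c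
    have h1 : ψ' x = 1 := by rw [h]; rfl
    rw [← hx]
    exact h1
  have hmain := hB1 (GaloisField ℓ 2) φ0 hsurj (by omega) χ ψ' hχ hψ'1
  -- the coefficients are powers
  have hcoef : ∀ z ∈ s, (χ ^ z.1.val) (φ0 z.2) = 1 := by
    intro z hz
    have h0 : φ0 z.2 ≠ 0 := hB2 z hz _ φ0 hsurj (by omega)
    obtain ⟨β, hβ⟩ := hroots (io j0 z.2) (by
      rw [Multiset.mem_toFinset]; exact Multiset.mem_map_of_mem (fun z => io j0 z.2) hz)
    have hβi : IsIntegral ℤ β := by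
      refine IsIntegral.of_pow hm0 ?_
      rw [hβ]
      exact (RingOfIntegers.mapRingHom j (io j0 z.2)).2
    obtain ⟨βi, hβi'⟩ : ∃ βi : 𝓞 Ω, algebraMap (𝓞 Ω) Ω βi = β := ⟨⟨β, hβi⟩, rfl⟩
    have h3 : φ0 z.2 = Φ βi ^ m := by
      have h6 : RingOfIntegers.mapRingHom j (io j0 z.2) = βi ^ m := by
        apply RingOfIntegers.ext
        change j (io j0 z.2) = algebraMap (𝓞 Ω) Ω (βi ^ m)
        rw [map_pow, hβi', hβ]
      rw [← map_pow, ← h6]
      rfl
    have h4 : Φ βi ≠ 0 := by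
      intro h5
      apply h0
      rw [h3, h5, zero_pow hm0.ne']
    rw [mulChar_pow_apply χ _ h0, h3, map_pow, mulChar_pow_one hχ.order h4, one_pow]
  have hg' : ∀ a : ℕ, gaussSum (χ ^ a) ψ' = algebraMap AI ℂ (gaussSum (χ' ^ a) ψ) := by
    intro a
    unfold gaussSum
    rw [map_sum]
    refine sum_congr rfl fun x _ => ?_
    rw [map_mul, ← hχ', MulChar.ringHomComp_pow, MulChar.ringHomComp_apply]
    rfl
  have h3 : (s.map fun z => gaussSum (χ' ^ z.1.val) ψ).prod =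
      (Fintype.card (GaloisField ℓ 2) : AI) ^ (Multiset.card s / 2) := by
    apply hinj
    rw [map_pow, map_natCast, map_multiset_prod, Multiset.map_map]
    have e1 : (s.map ((algebraMap AI ℂ) ∘ fun z => gaussSum (χ' ^ z.1.val) ψ)) =
        s.map fun z => gaussSum (χ ^ z.1.val) ψ' :=
      Multiset.map_congr rfl fun z _ => (hg' _).symm
    have e2 : (s.map fun z => (χ ^ z.1.val) (φ0 z.2)) = s.map fun _ => (1 : ℂ) :=
      Multiset.map_congr rfl fun z hz => hcoef z hz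
    rw [e1, hmain, e2, Multiset.map_const', Multiset.prod_replicate, one_pow, mul_one]
  obtain ⟨k, _, _, ⟨red⟩⟩ := exists_red hq
  have hℓk : ((ℓ : ℕ) : k) = 1 := by
    have h4 : ((ℓ - 1 : ℕ) : k) = 0 := by
      rw [CharP.cast_eq_zero_iff k q]
      exact (dvd_pow_self q hb.ne').trans hqbℓ
    rw [Nat.cast_sub (by omega), Nat.cast_one] at h4
    exact sub_eq_zero.mp h4
  have hχm : orderOf χ' = M * q ^ b := by rw [hordχ, hm]
  have h4 := congrArg red h3
  rw [map_pow, map_natCast, map_multiset_prod, Multiset.map_map] at h4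
  have e1 : (s.map (red ∘ fun z => gaussSum (χ' ^ z.1.val) ψ)) =
      s.map fun z => if M ∣ z.1.val then (-1 : k) else 1 :=
    Multiset.map_congr rfl fun z _ => red_gauss red hcard h2M hcop hℓk hχm hψ1 _
  rw [e1, prod_signs, hcard] at h4
  push_cast at h4
  rw [hℓk, one_pow, one_pow] at h4
  by_contra hodd
  rw [Nat.not_even_iff_odd] at hodd
  rw [hodd.neg_one_pow] at h4
  have h5 : ((2 : ℕ) : k) = 0 := by push_cast; linear_combination -h4
  rw [CharP.cast_eq_zero_iff k q] at h5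
  have := (Nat.prime_dvd_prime_iff_eq hq Nat.prime_two).mp h5
  exact hq2 this

end Pool.Agent.H180.RS
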