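import Pool.Agent.Q202.RS.MC2
import Pool.Agent.H180.RS.ParK

/-!
# Nonempty closed sums of exotic classes are not fixed, over subfields of cyclotomic fields

Adapted from `Pool.Agent.Q202.RS.MC2` (helper202).
-/

set_option autoImplicit false

namespace Pool.Agent.H180.RS

open Finset NumberField Pool.Agent.H916R2 Pool.Agent.Q59.FS Pool.Agent.Q59.RL Pool.Agent.Q202.RS

/-- at most two prime factors are `3` modulo `4` -/
def Gd (m : ℕ) : Prop := (m.primeFactors.filter fun p => p % 4 = 3).card ≤ 2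

section Split

variable {m : ℕ} {E : Finset (ℕ × ℕ)}

open scoped Classical in
lemma sum_pair_ite {e : ℕ × ℕ} (h1 : e.1 ∈ m.primeFactors) (h2 : e.2 ∈ m.primeFactors)
    (hne : e.1 ≠ e.2) :
    ∑ r ∈ m.primeFactors, (if (e.1 = r ∧ ¬ IsSquare ((e.2 : ℕ) : ZMod r)) ∨
      (e.2 = r ∧ ¬ IsSquare ((e.1 : ℕ) : ZMod r)) then 1 else 0) =
    (if ¬ IsSquare ((e.2 : ℕ) : ZMod e.1) then 1 else 0) +
      (if ¬ IsSquare ((e.1 : ℕ) : ZMod e.2) then 1 else 0) := by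
  have h3 : ∀ r ∈ m.primeFactors, (if (e.1 = r ∧ ¬ IsSquare ((e.2 : ℕ) : ZMod r)) ∨
      (e.2 = r ∧ ¬ IsSquare ((e.1 : ℕ) : ZMod r)) then 1 else 0) =
      (if e.1 = r then (if ¬ IsSquare ((e.2 : ℕ) : ZMod e.1) then 1 else 0) else 0) +
      (if e.2 = r then (if ¬ IsSquare ((e.1 : ℕ) : ZMod e.2) then 1 else 0) else 0) := by
    intro r _
    by_cases hr1 : e.1 = r
    · subst hr1
      simp [hne.symm]
    · by_cases hr2 : e.2 = r
      · subst hr2
        simp [hne]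
      · simp [hr1, hr2]
  rw [sum_congr rfl h3, sum_add_distrib, sum_ite_eq, sum_ite_eq, if_pos h1, if_pos h2]

lemma not_threeK (hgood : Gd m) (hodd : Odd m) (hE : E ⊆ prs m) (hcl : Closed m E) {e : ℕ × ℕ}
    (he : e ∈ E) (h1 : e.1 % 4 = 3) (h2 : e.2 % 4 = 3) : False := by
  classical
  obtain ⟨hp, hq, hlt⟩ := mem_prs hE he
  have hset : ({e.1, e.2} : Finset ℕ) = m.primeFactors.filter fun p => p % 4 = 3 := by
    apply eq_of_subset_of_card_le
    · intro r hr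
      rw [mem_filter]
      rcases mem_insert.mp hr with rfl | hr
      · exact ⟨hp, h1⟩
      · rw [mem_singleton.mp hr]
        exact ⟨hq, h2⟩
    · rw [card_pair hlt.ne]
      exact hgood
  have hev : Even (∑ r ∈ m.primeFactors, (E.filter fun e =>
      (e.1 = r ∧ ¬ IsSquare ((e.2 : ℕ) : ZMod r)) ∨
        (e.2 = r ∧ ¬ IsSquare ((e.1 : ℕ) : ZMod r))).card) := by
    apply even_sum
    intro r hr
    exact hcl r hr
  simp only [card_filter] at hev
  rw [sum_comm, ← add_sum_erase _ _ he, sum_pair_ite hp hq hlt.ne] at hev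
  have f1 : Fact e.1.Prime := ⟨Nat.prime_of_mem_primeFactors hp⟩
  have f2 : Fact e.2.Prime := ⟨Nat.prime_of_mem_primeFactors hq⟩
  have key := ZMod.exists_sq_eq_prime_iff_of_mod_four_eq_three h1 h2 hlt.ne
  have hrest : Even (∑ x ∈ E.erase e, ∑ r ∈ m.primeFactors,
      (if (x.1 = r ∧ ¬ IsSquare ((x.2 : ℕ) : ZMod r)) ∨
        (x.2 = r ∧ ¬ IsSquare ((x.1 : ℕ) : ZMod r)) then 1 else 0)) := by
    apply even_sum
    intro f hf
    obtain ⟨hfe, hfE⟩ := mem_erase.mp hf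
    obtain ⟨fp, fq, flt⟩ := mem_prs hE hfE
    rw [sum_pair_ite fp fq flt.ne]
    have g1 : Fact f.1.Prime := ⟨Nat.prime_of_mem_primeFactors fp⟩
    have g2 : Fact f.2.Prime := ⟨Nat.prime_of_mem_primeFactors fq⟩
    have o1 : f.1 % 2 = 1 := Nat.odd_iff.mp (hodd.of_dvd_nat (Nat.dvd_of_mem_primeFactors fp))
    have o2 : f.2 % 2 = 1 := Nat.odd_iff.mp (hodd.of_dvd_nat (Nat.dvd_of_mem_primeFactors fq))
    have h4 : f.1 % 4 = 1 ∨ f.2 % 4 = 1 := by
      by_contra hcon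
      push Not at hcon
      have m1 : f.1 ∈ m.primeFactors.filter fun p => p % 4 = 3 := mem_filter.mpr ⟨fp, by omega⟩
      have m2 : f.2 ∈ m.primeFactors.filter fun p => p % 4 = 3 := mem_filter.mpr ⟨fq, by omega⟩
      rw [← hset, mem_insert, mem_singleton] at m1 m2
      exact hfe (Prod.ext (by omega) (by omega))
    have h5 : IsSquare ((f.1 : ℕ) : ZMod f.2) ↔ IsSquare ((f.2 : ℕ) : ZMod f.1) := by
      rcases h4 with h | h
      · exact (ZMod.exists_sq_eq_prime_iff_of_mod_four_eq_one h (by omega)).symm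
      · exact ZMod.exists_sq_eq_prime_iff_of_mod_four_eq_one h (by omega)
    by_cases h6 : IsSquare ((f.2 : ℕ) : ZMod f.1)
    · rw [if_neg (not_not.mpr h6), if_neg (not_not.mpr (h5.mpr h6))]
      exact Even.zero
    · rw [if_pos h6, if_pos (fun h => h6 (h5.mp h))]
      exact ⟨1, rfl⟩
  have h7 := (Nat.even_add.mp hev).mpr hrest
  by_cases h8 : IsSquare ((e.2 : ℕ) : ZMod e.1)
  · rw [if_neg (not_not.mpr h8), if_pos (key.mp h8)] at h7
    exact Nat.not_even_one h7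
  · have h9 : IsSquare ((e.1 : ℕ) : ZMod e.2) := by
      by_contra hcon
      exact h8 (key.mpr hcon)
    rw [if_pos h8, if_neg (not_not.mpr h9)] at h7
    exact Nat.not_even_one h7

lemma split_orK (hodd : Odd m) (hgood : Gd m) (hE : E ⊆ prs m)
    (hcl : Closed m E) {e : ℕ × ℕ} (he : e ∈ E) : (e.1 % 4 = 1 ∨ e.2 % 4 = 1) ∧
    (IsSquare ((e.1 : ℕ) : ZMod e.2) ↔ IsSquare ((e.2 : ℕ) : ZMod e.1)) := by
  obtain ⟨hp, hq, hlt⟩ := mem_prs hE he
  have h3 := not_threeK hgood hodd hE hcl he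
  have f1 : Fact e.1.Prime := ⟨Nat.prime_of_mem_primeFactors hp⟩
  have f2 : Fact e.2.Prime := ⟨Nat.prime_of_mem_primeFactors hq⟩
  have o1 : e.1 % 2 = 1 := Nat.odd_iff.mp (hodd.of_dvd_nat (Nat.dvd_of_mem_primeFactors hp))
  have o2 : e.2 % 2 = 1 := Nat.odd_iff.mp (hodd.of_dvd_nat (Nat.dvd_of_mem_primeFactors hq))
  have h4 : e.1 % 4 = 1 ∨ e.2 % 4 = 1 := by
    by_contra hcon
    push Not at hcon
    exact h3 (by omega) (by omega)
  refine ⟨h4, ?_⟩
  rcases h4 with h | h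
  · exact (ZMod.exists_sq_eq_prime_iff_of_mod_four_eq_one h (by omega)).symm
  · exact ZMod.exists_sq_eq_prime_iff_of_mod_four_eq_one h (by omega)

end Split

theorem mc2K (h1 : PropDist) (h2 : PropVal) (h3 : PropSq) (h4 : PropEvS) (h5 : PropEvT)
    (h6 : PropCheb) (h7 : PropCon) (h8 : PropSym) (N : ℕ) [NeZero N] (K : Type) [Field K]
    [NumberField K] [IsCyclotomicExtension {N} ℚ K] (K0 : Type) [Field K0] [NumberField K0]
    (j0 : K0 →+* K) (σ : K0 →+* ℂ) (m : ℕ) [NeZero m] (hodd : Odd m) (ζ0 : 𝓞 K0)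
    (hζ0 : IsPrimitiveRoot ζ0 m) (hgood : Gd m) (ι : Type) [Fintype ι] [DecidableEq ι]
    [Nonempty ι] (L : ι → Multiset (ZMod m × 𝓞 K0)) (hL : ∀ i, ∀ z ∈ L i, z.1 ≠ 0 ∧ z.2 ≠ 0)
    (E : Finset (ℕ × ℕ)) (hE : E ⊆ prs m) (hEne : E.Nonempty) (hcl : Closed m E) (x : ι → ℤ)
    (hx : x ∈ Rg σ L) :
    lc (fun i => clU ((L i).map Prod.fst)) x ≠ (∑ e ∈ E, Xc m e.1 e.2 (cU m), 0) := by
  classical
  intro heq
  have hm0 : m ≠ 0 := NeZero.ne m
  obtain ⟨t, ht, ht4, htm, hts⟩ := exists_t hodd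
  have hodd' : ∀ p, p ∣ m → p ≠ 2 := by
    rintro p hp rfl
    have := hodd.of_dvd_nat hp
    exact absurd this (by decide)
  have hpr : ∀ e ∈ E, Pr t e := by
    intro e he
    obtain ⟨hp, hq, hlt⟩ := mem_prs hE he
    exact ⟨Nat.prime_of_mem_primeFactors hp, Nat.prime_of_mem_primeFactors hq,
      hodd' _ (Nat.dvd_of_mem_primeFactors hp), hodd' _ (Nat.dvd_of_mem_primeFactors hq), hlt.ne,
      fun h => htm (h ▸ Nat.dvd_of_mem_primeFactors hp),
      fun h => htm (h ▸ Nat.dvd_of_mem_primeFactors hq), hts _ hp, hts _ hq⟩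
  have hd : ∀ e : E, ∃ A D X Y Z, Dat t e.1 A D X Y Z := fun e =>
    exists_dat h7 ht ht4 (hpr e.1 e.2) (split_orK hodd hgood hE hcl e.2).1
  choose A D X Y Z hdat using hd
  obtain ⟨n0, hn0⟩ := hx
  -- the coefficients
  set C : Finset (𝓞 K) := (univ.biUnion fun i => ((L i).map fun z => io j0 z.2).toFinset) ∪
    (m * t).primeFactors.image (fun p => ((p : ℕ) : 𝓞 K)) with hC
  have hC0 : (0 : 𝓞 K) ∉ C := by
    rw [hC, mem_union, mem_biUnion, mem_image]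
    rintro (⟨i, -, h⟩ | ⟨p, hp, h⟩)
    · rw [Multiset.mem_toFinset, Multiset.mem_map] at h
      obtain ⟨z, hz, hz0⟩ := h
      apply (hL i z hz).2
      apply RingOfIntegers.coe_injective
      have h9 : j0 (z.2 : K0) = j0 0 := by
        rw [map_zero]
        exact congrArg (fun y : 𝓞 K => (y : K)) hz0
      exact (j0.injective h9).trans (map_zero _).symm
    · have := (Nat.prime_of_mem_primeFactors hp).ne_zero
      exact this (by exact_mod_cast h)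
  obtain ⟨e0, he0⟩ := hEne
  have hmt : Odd (m * t) := hodd.mul (Nat.odd_iff.mpr (by omega))
  have hmt0 : m * t ≠ 0 := mul_ne_zero hm0 ht.ne_zero
  have hcount : Odd (∑ e : E, ((if (e0.1 : ℤ) ∣ A e ∧ (e0.2 : ℤ) ∣ D e then 1 else 0) +
      (if (e0.2 : ℤ) ∣ A e ∧ (e0.1 : ℤ) ∣ D e then 1 else 0) : ℕ)) := by
    have h9 : ∀ e : E, ((if (e0.1 : ℤ) ∣ A e ∧ (e0.2 : ℤ) ∣ D e then 1 else 0) +
      (if (e0.2 : ℤ) ∣ A e ∧ (e0.1 : ℤ) ∣ D e then 1 else 0) : ℕ) =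
        if e = ⟨e0, he0⟩ then 1 else 0 := by
      intro e
      rw [(hdat e).count (hpr _ e.2) (mem_prs hE e.2).2.2 ht (hpr _ he0) (mem_prs hE he0).2.2]
      by_cases hh : e = ⟨e0, he0⟩
      · rw [if_pos hh, if_pos (by rw [hh])]
      · rw [if_neg hh, if_neg fun h => hh (Subtype.ext h)]
    rw [sum_congr rfl fun e _ => h9 e, sum_ite_eq' univ, if_pos (mem_univ _)]
    exact odd_one
  obtain ⟨ℓ, hl, φ1, r, hB, hM, hCb, hr, hprod⟩ := h6 N K (m * t) (8 * (m * t))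
    (n0 + ∑ e : E, (Z e).natAbs) hmt (by positivity) C hC0 E A D X Y Z
    (fun e => (hdat e).hA (hpr _ e.2) ht ht4) (fun e => (hdat e).hD (hpr _ e.2) ht ht4)
    (fun e => (hdat e).conic) e0.1 e0.2 (hpr _ he0).p1 (hpr _ he0).p2 (hpr _ he0).ne hcount
  have hl2 := hl.out.two_le
  have hl8 : ℓ % 8 = 1 := by
    have h9 : 8 ∣ ℓ - 1 := (Dvd.intro _ rfl).trans hM
    omega
  have hml : m ∣ ℓ - 1 := (Dvd.intro _ (by ring : m * (t * 8) = 8 * (m * t))).trans hM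
  have htl : t ∣ ℓ - 1 := (Dvd.intro _ (by ring : t * (m * 8) = 8 * (m * t))).trans hM
  -- the character
  set φ : 𝓞 K0 →+* ZMod ℓ := φ1.comp (io j0) with hφdef
  have hφ : Function.Surjective φ := ZMod.ringHom_surjective φ
  obtain ⟨χ, hχ⟩ := h8 K0 m ζ0 hζ0 (Nat.pos_of_ne_zero hm0) σ (ZMod ℓ) φ hφ
    (by rw [ZMod.card]; exact hml)
  obtain ⟨ψ, hψ⟩ := exists_psi ℓ
  have hχm : χ ^ m = 1 := by
    rw [← hχ.order]
    exact pow_orderOf_eq_one χ
  obtain ⟨γ, hγ⟩ := MulChar.exists_mulChar_orderOf (ZMod ℓ) (n := t) (R := ℂ)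
    (by rw [ZMod.card]; exact htl) (Complex.isPrimitiveRoot_exp t ht.ne_zero)
  have hγt : γ ^ t = 1 := by
    rw [← hγ]
    exact pow_orderOf_eq_one γ
  -- primes dividing `m t` are powers
  have hpow : ∀ p, p.Prime → p ∣ m * t → ∃ b : ZMod ℓ, b ≠ 0 ∧ b ^ (m * t) = (p : ZMod ℓ) := by
    intro p hp hpm
    obtain ⟨b, hb, hb'⟩ := hCb (p : 𝓞 K) (by
      rw [hC, mem_union]
      exact Or.inr (mem_image_of_mem _ (Nat.mem_primeFactors.mpr ⟨hp, hpm, hmt0⟩)))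
    exact ⟨b, hb, by rw [hb', map_natCast]⟩
  set al : ℕ → MulChar (ZMod ℓ) ℂ := fun p => if p = t then γ else χ ^ (m / p) with hal
  have halt : al t = γ := by rw [hal]; simp
  have halp : ∀ p, p ∣ m → al p = χ ^ (m / p) := by
    intro p hp
    rw [hal]
    simp only
    rw [if_neg]
    rintro rfl
    exact htm hp
  have horp : ∀ p, p.Prime → p ∣ m → orderOf (al p) = p := by
    intro p hp hpm
    rw [halp p hpm, orderOf_pow_of_dvd
      (Nat.div_pos (Nat.le_of_dvd (Nat.pos_of_ne_zero hm0) hpm) hp.pos).ne'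
      (by rw [hχ.order]; exact Nat.div_dvd_of_dvd hpm), hχ.order, Nat.div_div_self hpm hm0]
  have hort : orderOf (al t) = t := by rw [halt, hγ]
  have halone : ∀ p q, (p ∣ m ∨ p = t) → q.Prime → q ∣ m * t → al p (q : ZMod ℓ) = 1 := by
    intro p q hp hq hqm
    obtain ⟨b, hb, hb'⟩ := hpow q hq hqm
    rcases hp with hp | rfl
    · refine char_pow_one (m := m) (k := m * t) ?_ (Dvd.intro _ rfl) hb hb'
      rw [halp p hp, ← pow_mul, mul_comm, pow_mul, hχm, one_pow]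
    · refine char_pow_one (m := p) (k := m * p) ?_ (Dvd.intro_left _ rfl) hb hb'
      rw [halt, hγt]
  have ht2 : t ≠ 2 := by rintro rfl; omega
  have hsq : ∀ p q, ((p.Prime ∧ p ∣ m) ∨ p = t) → ((q.Prime ∧ q ∣ m) ∨ q = t) → p ≠ q →
      ev p q ψ (al p) (al q) ^ 2 = 1 ∧ ev q p ψ (al q) (al p) = ev p q ψ (al p) (al q) := by
    intro p q hp hq hpq
    have a1 : ∀ s, ((s.Prime ∧ s ∣ m) ∨ s = t) → s.Prime ∧ s ≠ 2 ∧ s ∣ m * t ∧ orderOf (al s) = s ∧
        (s ∣ m ∨ s = t) := by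
      rintro s (⟨h, h'⟩ | rfl)
      · exact ⟨h, hodd' s h', h'.mul_right _, horp s h h', Or.inl h'⟩
      · exact ⟨ht, ht2, Dvd.intro_left _ rfl, hort, Or.inr rfl⟩
    obtain ⟨b1, b2, b3, b4, b5⟩ := a1 p hp
    obtain ⟨c1, c2, c3, c4, c5⟩ := a1 q hq
    exact h3 ℓ p q b1 c1 b2 c2 hpq _ _ ψ hψ b4 c4 (halone p q b5 c1 c3) (halone q p c5 b1 b3)
  -- the values
  have hfac : ∀ e ∈ E, (e.1.Prime ∧ e.1 ∣ m) ∧ (e.2.Prime ∧ e.2 ∣ m) := by
    intro e he
    obtain ⟨hp, hq, hlt⟩ := mem_prs hE he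
    exact ⟨⟨Nat.prime_of_mem_primeFactors hp, Nat.dvd_of_mem_primeFactors hp⟩,
      ⟨Nat.prime_of_mem_primeFactors hq, Nat.dvd_of_mem_primeFactors hq⟩⟩
  have hval : ∀ e : E, ((quadraticChar (ZMod ℓ) ((X e : ZMod ℓ) + Y e * r e) : ℤ) : ℂ) =
      ev e.1.1 e.1.2 ψ (al e.1.1) (al e.1.2) *
        (if IsSquare ((e.1.1 : ℕ) : ZMod e.1.2) then 1 else
          (ev e.1.1 t ψ (al e.1.1) (al t) * ev e.1.2 t ψ (al e.1.2) (al t))) := by
    intro e
    obtain ⟨f1, f2⟩ := hfac e.1 e.2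
    have he := hpr e.1 e.2
    have q1 := hsq e.1.1 e.1.2 (Or.inl f1) (Or.inl f2) he.ne
    have q2 := hsq e.1.1 t (Or.inl f1) (Or.inr rfl) he.t1
    have q3 := hsq e.1.2 t (Or.inl f2) (Or.inr rfl) he.t2
    refine Dat.value h4 h5 (hdat e) he ht ht4 hl8 al ψ hψ (horp _ f1.1 f1.2) (horp _ f2.1 f2.2)
      hort q1.1 q2.1 q3.1 q1.2 q2.2 q3.2 ?_ (r e) (hr e) (split_orK hodd hgood hE hcl e.2).2
    intro hdvd
    have g1 := Int.natAbs_dvd_natAbs.mpr hdvd
    rw [Int.natAbs_natCast] at g1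
    have g2 := Nat.le_of_dvd (Int.natAbs_pos.mpr (hdat e).conic.2) g1
    have g3 : (Z e).natAbs ≤ ∑ e : E, (Z e).natAbs :=
      single_le_sum (f := fun e : E => (Z e).natAbs) (fun _ _ => Nat.zero_le _) (mem_univ e)
    omega
  -- the product over the pairs
  set W : ℕ × ℕ → ℂ := fun e => ev e.1 e.2 ψ (al e.1) (al e.2) with hW
  set w : ℕ → ℂ := fun p => ev p t ψ (al p) (al t) with hw
  have hprod1 : ∏ e ∈ E, W e = -1 := by
    have g1 : ((∏ e : E, quadraticChar (ZMod ℓ) ((X e : ZMod ℓ) + Y e * r e) : ℤ) : ℂ) = -1 := by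
      rw [hprod]
      norm_num
    rw [Int.cast_prod, prod_congr rfl fun e _ => hval e, prod_mul_distrib] at g1
    have g2 : ∏ e : E, (if IsSquare ((e.1.1 : ℕ) : ZMod e.1.2) then 1 else
        (ev e.1.1 t ψ (al e.1.1) (al t) * ev e.1.2 t ψ (al e.1.2) (al t))) = 1 := by
      rw [prod_coe_sort E (fun e => (if IsSquare ((e.1 : ℕ) : ZMod e.2) then 1 else
        (ev e.1 t ψ (al e.1) (al t) * ev e.2 t ψ (al e.2) (al t))))]
      rw [prod_ite, prod_const_one, one_mul]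
      refine prod_closed hE hcl w ?_ _ (filter_subset _ _) ?_ ?_
      · intro p hp
        have hpp := Nat.prime_of_mem_primeFactors hp
        have hpm := Nat.dvd_of_mem_primeFactors hp
        exact (hsq p t (Or.inl ⟨hpp, hpm⟩) (Or.inr rfl) (fun h => htm (h ▸ hpm))).1
      · intro e he
        rw [mem_filter]
        exact ⟨fun h => h.2, fun h => ⟨he, h⟩⟩
      · intro e he
        rw [mem_filter, (split_orK hodd hgood hE hcl he).2]
        exact ⟨fun h => h.2, fun h => ⟨he, h⟩⟩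
    rw [g2, mul_one] at g1
    rw [← g1, ← prod_coe_sort E W]
  -- the class
  have hodist : OddDist (cD (m := m) χ ψ) := by
    refine h1 ℓ m hodd χ ψ hψ hχ.order ?_
    intro p hp hpm
    obtain ⟨b, hb, hb'⟩ := hpow p hp (hpm.mul_right _)
    refine char_pow_one (m := m) (k := m * t) ?_ (Dvd.intro _ rfl) hb hb'
    rw [← pow_mul, mul_comm, pow_mul, hχm, one_pow]
  have hz1 : ∀ i, ∀ z ∈ L i, χ (φ z.2) = 1 := by
    intro i z hz
    obtain ⟨b, hb, hb'⟩ := hCb (io j0 z.2) (by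
      rw [hC, mem_union, mem_biUnion]
      exact Or.inl ⟨i, mem_univ i, Multiset.mem_toFinset.mpr
        (Multiset.mem_map_of_mem (fun z => io j0 z.2) hz)⟩)
    exact char_pow_one (m := m) (k := m * t) hχm (Dvd.intro _ rfl) hb hb'
  have hlc : lc (fun i => toU (gm (mkD hφ hχ hψ) (L i))) x = 0 := by
    apply hn0
    change n0 < Fintype.card (ZMod ℓ)
    rw [ZMod.card]
    omega
  have hlc2 : lc (fun i => toU (gm (mkD hφ hχ hψ) (L i))) x =
      lft (cD (m := m) χ ψ) hodist (lc (fun i => clU ((L i).map Prod.fst)) x).1 := by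
    rw [lc_apply, lc_apply, Prod.fst_sum, map_sum]
    refine sum_congr rfl fun i _ => ?_
    rw [toU_gm hφ hχ hψ hodist (L i) (fun z hz => (hL i z hz).1) (hz1 i), Prod.smul_fst, map_zsmul]
  rw [hlc2, heq] at hlc
  simp only [map_sum] at hlc
  have hev : ∀ e ∈ E, lft (cD (m := m) χ ψ) hodist (Xc m e.1 e.2 (cU m)) = toU (W e) := by
    intro e he
    obtain ⟨f1, f2⟩ := hfac e he
    have i1 : Fact e.1.Prime := ⟨f1.1⟩
    have i2 : Fact e.2.Prime := ⟨f2.1⟩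
    rw [lft_Xc, h2 ℓ m e.1 e.2 hodd f1.1 f2.1 (hpr e he).ne f1.2 f2.2 χ ψ hψ hχ.order, hW]
    simp only
    rw [halp _ f1.2, halp _ f2.2]
  rw [sum_congr rfl hev, ← toU_prod _ _ ?_, hprod1, ← toU_one, toU_inj (by norm_num)
    one_ne_zero] at hlc
  · norm_num at hlc
  · intro e he hzero
    have := (hsq e.1 e.2 (Or.inl (hfac e he).1) (Or.inl (hfac e he).2) (hpr e he).ne).1
    rw [show ev e.1 e.2 ψ (al e.1) (al e.2) = 0 from hzero] at this
    norm_num at this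

end Pool.Agent.H180.RS
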