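import Pool.Agent.H180.RS.EvT
import Pool.Agent.Q6.RS.Cheb
import Pool.Agent.Q6.RS.Law
import Pool.Agent.Q87.RS.Rec
import Pool.Agent.Q95.RS.Dist
import Pool.Agent.Q169.RS.Conics
import Pool.Agent.Q169.RS.Sym
import Pool.Agent.Q202.RS.MC2
import Pool.Agent.Q210.RS.Comm
import Pool.Agent.Q210.RS.Par
import Pool.Agent.Q213.RS.MC1
import Pool.Agent.Q213.RS.Sq
import Pool.Agent.Q275.RS.DH
import Pool.Agent.Q296.RS.Om
import Pool.Agent.Q296.RS.Val

/-!
# The independence of the exotic classes over cyclotomic fields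
-/

set_option autoImplicit false
set_option linter.unusedSectionVars false

namespace Pool.Agent.H180.RS

open Finset NumberField Filter Topology Pool.Agent.H916R2 Pool.Agent.Q59.FS Pool.Agent.Q59.RL

/-- **Sums of exotic classes are not fixed.** -/
theorem indep (N : ℕ) [NeZero N] (K : Type) [Field K] [NumberField K]
    [IsCyclotomicExtension {N} ℚ K] (σ : K →+* ℂ) (m : ℕ) [NeZero m] (hodd : Odd m) (hm : m ∣ N)
    (hgood : Good m) (ι : Type) [Fintype ι] [DecidableEq ι] [Nonempty ι]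
    (L : ι → Multiset (ZMod m × 𝓞 K)) (hL : ∀ i, ∀ z ∈ L i, z.1 ≠ 0 ∧ z.2 ≠ 0)
    (hsum : ∀ i, ((L i).map Prod.fst).sum = 0) :
    ∀ E ⊆ prs m, E.Nonempty → ∀ x ∈ Rg σ L, ∑ i, x i = 0 →
      lc (fun i => clU ((L i).map Prod.fst)) x ≠ (∑ e ∈ E, Xc m e.1 e.2 (cU m), 0) := by
  intro E hE hne x hx hx0
  have hdist := Pool.Agent.Q95.RS.dist Pool.Agent.Q275.RS.dh
  by_cases hc : Closed m E
  · exact Pool.Agent.Q202.RS.mc2 hdist Pool.Agent.Q296.RS.val
      (Pool.Agent.Q213.RS.sq hdist Pool.Agent.Q296.RS.val)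
      (evS _root_.Q87.RS.rec Pool.Agent.Q169.RS.con)
      (evT _root_.Q87.RS.rec Pool.Agent.Q169.RS.con)
      (Pool.Agent.Q6.RS.cheb Pool.Agent.Q296.RS.om Pool.Agent.Q210.RS.comm)
      Pool.Agent.Q169.RS.con Pool.Agent.Q169.RS.sym N K σ m hodd hm hgood ι L hL hsum E hE hne hc
      x hx
  · exact Pool.Agent.Q213.RS.mc1
      (Pool.Agent.Q210.RS.par Pool.Agent.Q296.RS.om Pool.Agent.Q169.RS.sym) N K σ m hodd hm ι L hL
      hsum E hE hc x hx hx0

/-- **The law over cyclotomic fields.** -/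
theorem cyc_law (N : ℕ) [NeZero N] (K : Type) [Field K] [NumberField K]
    [IsCyclotomicExtension {N} ℚ K] (σ : K →+* ℂ) (m : ℕ) [NeZero m] (hm2 : 2 ≤ m) (hodd : Odd m)
    (hm : m ∣ N) (hgood : Good m) {A : Multiset (ZMod m) → Prop} (hA : Adm m A)
    (ι : Type) [Fintype ι] [Nonempty ι]
    (L : ι → Multiset (ZMod m × 𝓞 K)) (hL : ∀ i, ∀ z ∈ L i, z.1 ≠ 0 ∧ z.2 ≠ 0)
    (hsum : ∀ i, ((L i).map Prod.fst).sum = 0) :
    ∃ s ≤ 2 ^ (m.primeFactors.card - 1) - 1 - m.primeFactors.card.choose 2,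
      (∀ k : ℕ, Nat.card {p : (Fin k → ι) × (Fin k → ι) //
          IsHodge m ((uni L p).map Prod.fst) ∧ Fixed m σ (uni L p)} ≤
        2 ^ s * Nat.card {p : (Fin k → ι) × (Fin k → ι) //
          A ((uni L p).map Prod.fst) ∧ Fixed m σ (uni L p)}) ∧
      Tendsto (fun k : ℕ => (Nat.card {p : (Fin k → ι) × (Fin k → ι) //
          A ((uni L p).map Prod.fst) ∧ Fixed m σ (uni L p)} : ℝ) /
        Nat.card {p : (Fin k → ι) × (Fin k → ι) //
          IsHodge m ((uni L p).map Prod.fst) ∧ Fixed m σ (uni L p)}) atTop (𝓝 (1 / 2 ^ s)) ∧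
      (s = 0 ↔ ∀ (k : ℕ) (p : (Fin k → ι) × (Fin k → ι)),
        IsHodge m ((uni L p).map Prod.fst) → Fixed m σ (uni L p) → A ((uni L p).map Prod.fst)) := by
  classical
  exact Pool.Agent.Q6.RS.law K m A hA hm2 hodd σ ι L hL hsum
    (indep N K σ m hodd hm hgood ι L hL hsum)

end Pool.Agent.H180.RS
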