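import Pool.Agent.H180.RS.Univ

/-!
# The exotic class of two primes
-/

set_option autoImplicit false
set_option linter.unusedSectionVars false

namespace Pool.Agent.H180.RS

open Finset Pool.Agent.H916R2 Pool.Agent.Q59.FS Pool.Agent.Q59.RL

section Gen

/-- `g` is a primitive root modulo `p` -/
def IsGen (p g : ℕ) : Prop := orderOf (g : ZMod p) = p - 1

variable {p : ℕ} [hp : Fact p.Prime]

lemma exists_gen (p : ℕ) [hp : Fact p.Prime] : ∃ g, IsGen p g := by
  obtain ⟨u, hu⟩ := IsCyclic.exists_generator (α := (ZMod p)ˣ)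
  refine ⟨(u : ZMod p).val, ?_⟩
  unfold IsGen
  rw [ZMod.natCast_zmod_val, orderOf_units, orderOf_eq_card_of_forall_mem_zpowers hu,
    Nat.card_eq_fintype_card, ZMod.card_units_eq_totient, Nat.totient_prime hp.out]

variable {g : ℕ}

lemma IsGen.ne_zero (hg : IsGen p g) : (g : ZMod p) ≠ 0 := by
  intro h
  have h1 : IsOfFinOrder (g : ZMod p) := by
    rw [← orderOf_pos_iff, hg]
    have := hp.out.two_le
    omega
  rw [h, isOfFinOrder_iff_pow_eq_one] at h1
  obtain ⟨n, hn, h2⟩ := h1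
  rw [zero_pow hn.ne'] at h2
  exact zero_ne_one h2

lemma IsGen.pow_ne_zero (hg : IsGen p g) (i : ℕ) : (g : ZMod p) ^ i ≠ 0 :=
  _root_.pow_ne_zero _ hg.ne_zero

lemma IsGen.exists_log (hg : IsGen p g) {x : ZMod p} (hx : x ≠ 0) :
    ∃ k < p - 1, x = (g : ZMod p) ^ k := by
  classical
  have h1 : (range (p - 1)).image (fun k => (g : ZMod p) ^ k) = univ.erase 0 := by
    apply eq_of_subset_of_card_le
    · intro y hy
      obtain ⟨k, _, rfl⟩ := mem_image.mp hy
      exact mem_erase.mpr ⟨hg.pow_ne_zero k, mem_univ _⟩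
    · rw [card_image_of_injOn, card_erase_of_mem (mem_univ _), card_univ, ZMod.card, card_range]
      intro i hi j hj hij
      rw [mem_coe, mem_range, ← hg] at hi hj
      exact pow_injOn_Iio_orderOf hi hj hij
  have h2 : x ∈ univ.erase (0 : ZMod p) := mem_erase.mpr ⟨hx, mem_univ _⟩
  rw [← h1, mem_image] at h2
  obtain ⟨k, hk, hkx⟩ := h2
  exact ⟨k, mem_range.mp hk, hkx.symm⟩

lemma IsGen.sum_eq {Q : Type*} [AddCommMonoid Q] (hg : IsGen p g) (F : ZMod p → Q) :
    ∑ v, F v = F 0 + ∑ i ∈ range (p - 1), F ((g : ZMod p) ^ i) := by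
  classical
  have h1 : (range (p - 1)).image (fun k => (g : ZMod p) ^ k) = univ.erase 0 := by
    ext x
    rw [mem_image, mem_erase]
    constructor
    · rintro ⟨k, _, rfl⟩
      exact ⟨hg.pow_ne_zero k, mem_univ _⟩
    · rintro ⟨hx, _⟩
      obtain ⟨k, hk, hkx⟩ := hg.exists_log hx
      exact ⟨k, mem_range.mpr hk, hkx.symm⟩
  rw [← add_sum_erase univ F (mem_univ 0), ← h1, sum_image]
  intro i hi j hj hij
  rw [mem_coe, mem_range, ← hg] at hi hj
  exact pow_injOn_Iio_orderOf hi hj hij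

lemma IsGen.half (hp2 : p ≠ 2) (hg : IsGen p g) : (g : ZMod p) ^ ((p - 1) / 2) = -1 := by
  have hodd := hp.out.eq_two_or_odd.resolve_left hp2
  have h2 := hp.out.two_le
  have h1 : ((g : ZMod p) ^ ((p - 1) / 2)) * ((g : ZMod p) ^ ((p - 1) / 2)) = 1 := by
    rw [← pow_add, show (p - 1) / 2 + (p - 1) / 2 = p - 1 by omega, ← hg, pow_orderOf_eq_one]
  rcases mul_self_eq_one_iff.mp h1 with h | h
  · exfalso
    have h3 := orderOf_dvd_of_pow_eq_one h
    rw [hg] at h3
    have := Nat.le_of_dvd (by omega) h3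
    omega
  · exact h

lemma IsGen.half_add (hp2 : p ≠ 2) (hg : IsGen p g) (i : ℕ) :
    (g : ZMod p) ^ (i + (p - 1) / 2) = - (g : ZMod p) ^ i := by
  rw [pow_add, hg.half hp2]
  ring

lemma IsGen.isSquare_iff (hp2 : p ≠ 2) (hg : IsGen p g) (k : ℕ) :
    IsSquare ((g : ZMod p) ^ k) ↔ Even k := by
  have hodd := hp.out.eq_two_or_odd.resolve_left hp2
  have h2 := hp.out.two_le
  constructor
  · rintro ⟨y, hy⟩
    have hy0 : y ≠ 0 := by
      rintro rfl
      rw [mul_zero] at hy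
      exact hg.pow_ne_zero k hy
    obtain ⟨j, _, rfl⟩ := hg.exists_log hy0
    rw [← pow_add] at hy
    have h3 : (Units.mk0 (g : ZMod p) hg.ne_zero) ^ k = (Units.mk0 (g : ZMod p) hg.ne_zero) ^ (j + j) :=
      Units.ext (by simpa using hy)
    rw [pow_eq_pow_iff_modEq, ← orderOf_units, Units.val_mk0, hg] at h3
    have h4 : k ≡ j + j [MOD 2] := h3.of_dvd (by omega)
    rw [Nat.even_iff]
    unfold Nat.ModEq at h4
    omega
  · rintro ⟨j, rfl⟩
    exact ⟨(g : ZMod p) ^ j, by rw [pow_add]⟩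

/-- sums over a half system -/
lemma IsGen.sum_half {Q : Type*} [AddCommMonoid Q] (hp2 : p ≠ 2) (hg : IsGen p g)
    (F : ZMod p → Q) : ∑ v, F v = F 0 + (∑ i ∈ range ((p - 1) / 2), F ((g : ZMod p) ^ i) +
      ∑ i ∈ range ((p - 1) / 2), F (- (g : ZMod p) ^ i)) := by
  have hodd := hp.out.eq_two_or_odd.resolve_left hp2
  have h2 := hp.out.two_le
  rw [hg.sum_eq]
  congr 1
  have h1 : p - 1 = (p - 1) / 2 + (p - 1) / 2 := by omega
  conv_lhs => rw [h1, sum_range_add]
  congr 1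
  refine sum_congr rfl fun i _ => ?_
  rw [add_comm, hg.half_add hp2]

end Gen

section Tel

variable {G : Type*} [AddCommGroup G]

/-- telescoping -/
lemma tel (F : ℕ → G) (n k : ℕ) (h : ∀ i, F (i + n) = - F i) :
    ∑ i ∈ range n, F (i + k) - ∑ i ∈ range n, F i = - (2 : ℤ) • ∑ i ∈ range k, F i := by
  have h1 : ∑ i ∈ range (k + n), F i = ∑ i ∈ range k, F i + ∑ i ∈ range n, F (k + i) :=
    sum_range_add _ _ _
  have h2 : ∑ i ∈ range (n + k), F i = ∑ i ∈ range n, F i + ∑ i ∈ range k, F (n + i) :=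
    sum_range_add _ _ _
  have h3 : ∑ i ∈ range k, F (n + i) = - ∑ i ∈ range k, F i := by
    rw [← sum_neg_distrib]
    exact sum_congr rfl fun i _ => by rw [add_comm, h]
  have h4 : ∑ i ∈ range n, F (k + i) = ∑ i ∈ range n, F (i + k) :=
    sum_congr rfl fun i _ => by rw [add_comm]
  rw [add_comm k n, h2, h3, h4] at h1
  have h5 : ∑ i ∈ range n, F (i + k) = ∑ i ∈ range n, F i - ∑ i ∈ range k, F i -
      ∑ i ∈ range k, F i := by
    rw [sub_eq_add_neg (∑ i ∈ range n, F i), h1]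
    abel
  rw [h5, neg_smul, two_smul]
  abel

end Tel

section XX

variable {m : ℕ} {G : Type*} [AddCommGroup G]

/-- the exotic class of the primes `p` and `q`, where `q = g ^ k` modulo `p` and `p = h ^ k'`
modulo `q` -/
def XX (m p q g h k k' : ℕ) (c : ZMod m → G) : G :=
  ∑ a ∈ range ((q - 1) / 2), ∑ b ∈ range ((p - 1) / 2),
      c (iota (m / q) ((h : ZMod q) ^ a) - iota (m / p) ((g : ZMod p) ^ b)) +
    ∑ i ∈ range k', c (iota (m / q) ((h : ZMod q) ^ i)) -
    ∑ i ∈ range k, c (iota (m / p) ((g : ZMod p) ^ i))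

variable [NeZero m] {p q : ℕ} [hp : Fact p.Prime] [hq : Fact q.Prime] {g h k k' : ℕ}

lemma dist_iota {c : ZMod m → G} (hc : OddDist c) (hpm : p ∣ m) (hqm : q ∣ m) (u : ZMod q) :
    ∑ v : ZMod p, c (iota (m / q) u + iota (m / p) v) =
      c (iota (m / q) ((p : ZMod q) * u)) := by
  have h1 := hc.dist p (m / p) hp.out (Nat.mul_div_cancel' hpm) (iota (m / q) u)
  rw [iota_natMul (Nat.div_mul_cancel hqm), ← h1,
    ← Pool.Agent.H916K.sum_range_zmod (fun v : ZMod p => c (iota (m / q) u + iota (m / p) v))]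
  refine sum_congr rfl fun i _ => ?_
  rw [iota_natCast (Nat.div_mul_cancel hpm)]
  congr 2
  push_cast
  ring

lemma row_sum {c : ZMod m → G} (hc : OddDist c) (hpm : p ∣ m) (hqm : q ∣ m) (hp2 : p ≠ 2)
    (hg : IsGen p g) (u : ZMod q) :
    ∑ b ∈ range ((p - 1) / 2), c (iota (m / q) u + iota (m / p) ((g : ZMod p) ^ b)) +
      ∑ b ∈ range ((p - 1) / 2), c (iota (m / q) u - iota (m / p) ((g : ZMod p) ^ b)) =
    c (iota (m / q) ((p : ZMod q) * u)) - c (iota (m / q) u) := by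
  have h1 := dist_iota hc hpm hqm u
  rw [hg.sum_half hp2 (fun v : ZMod p => c (iota (m / q) u + iota (m / p) v)), iota_zero,
    add_zero] at h1
  rw [← h1]
  have h2 : ∀ b, c (iota (m / q) u - iota (m / p) ((g : ZMod p) ^ b)) =
      c (iota (m / q) u + iota (m / p) (- (g : ZMod p) ^ b)) := by
    intro b
    rw [iota_neg (Nat.div_mul_cancel hpm), sub_eq_add_neg]
  rw [sum_congr rfl fun b _ => h2 b]
  abel

/-- twice the exotic class is zero -/
theorem two_XX {c : ZMod m → G} (hc : OddDist c) (hpm : p ∣ m) (hqm : q ∣ m) (hp2 : p ≠ 2)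
    (hq2 : q ≠ 2) (hg : IsGen p g) (hh : IsGen q h) (hk : (q : ZMod p) = (g : ZMod p) ^ k)
    (hk' : (p : ZMod q) = (h : ZMod q) ^ k') : (2 : ℤ) • XX m p q g h k k' c = 0 := by
  have Fq : ∀ i, c (iota (m / q) ((h : ZMod q) ^ (i + (q - 1) / 2))) =
      - c (iota (m / q) ((h : ZMod q) ^ i)) := by
    intro i
    rw [hh.half_add hq2, iota_neg (Nat.div_mul_cancel hqm), hc.neg]
  have Fp : ∀ i, c (iota (m / p) ((g : ZMod p) ^ (i + (p - 1) / 2))) =
      - c (iota (m / p) ((g : ZMod p) ^ i)) := by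
    intro i
    rw [hg.half_add hp2, iota_neg (Nat.div_mul_cancel hpm), hc.neg]
  have t1 := tel (fun i => c (iota (m / q) ((h : ZMod q) ^ i))) ((q - 1) / 2) k' Fq
  have t2 := tel (fun i => c (iota (m / p) ((g : ZMod p) ^ i))) ((p - 1) / 2) k Fp
  have r1 : ∑ a ∈ range ((q - 1) / 2), ∑ b ∈ range ((p - 1) / 2),
        c (iota (m / q) ((h : ZMod q) ^ a) + iota (m / p) ((g : ZMod p) ^ b)) +
      ∑ a ∈ range ((q - 1) / 2), ∑ b ∈ range ((p - 1) / 2),
        c (iota (m / q) ((h : ZMod q) ^ a) - iota (m / p) ((g : ZMod p) ^ b)) =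
      - (2 : ℤ) • ∑ i ∈ range k', c (iota (m / q) ((h : ZMod q) ^ i)) := by
    rw [← t1, ← sum_add_distrib, ← sum_sub_distrib]
    refine sum_congr rfl fun a _ => ?_
    rw [row_sum hc hpm hqm hp2 hg, hk', ← pow_add, add_comm k' a]
  have r2 : ∑ b ∈ range ((p - 1) / 2), ∑ a ∈ range ((q - 1) / 2),
        c (iota (m / p) ((g : ZMod p) ^ b) + iota (m / q) ((h : ZMod q) ^ a)) +
      ∑ b ∈ range ((p - 1) / 2), ∑ a ∈ range ((q - 1) / 2),
        c (iota (m / p) ((g : ZMod p) ^ b) - iota (m / q) ((h : ZMod q) ^ a)) =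
      - (2 : ℤ) • ∑ i ∈ range k, c (iota (m / p) ((g : ZMod p) ^ i)) := by
    rw [← t2, ← sum_add_distrib, ← sum_sub_distrib]
    refine sum_congr rfl fun a _ => ?_
    rw [row_sum hc hqm hpm hq2 hh, hk, ← pow_add, add_comm k a]
  have e1 : ∑ b ∈ range ((p - 1) / 2), ∑ a ∈ range ((q - 1) / 2),
        c (iota (m / p) ((g : ZMod p) ^ b) + iota (m / q) ((h : ZMod q) ^ a)) =
      ∑ a ∈ range ((q - 1) / 2), ∑ b ∈ range ((p - 1) / 2),
        c (iota (m / q) ((h : ZMod q) ^ a) + iota (m / p) ((g : ZMod p) ^ b)) := by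
    rw [sum_comm]
    exact sum_congr rfl fun a _ => sum_congr rfl fun b _ => by rw [add_comm]
  have e2 : ∑ b ∈ range ((p - 1) / 2), ∑ a ∈ range ((q - 1) / 2),
        c (iota (m / p) ((g : ZMod p) ^ b) - iota (m / q) ((h : ZMod q) ^ a)) =
      - ∑ a ∈ range ((q - 1) / 2), ∑ b ∈ range ((p - 1) / 2),
        c (iota (m / q) ((h : ZMod q) ^ a) - iota (m / p) ((g : ZMod p) ^ b)) := by
    rw [sum_comm, ← sum_neg_distrib]
    refine sum_congr rfl fun a _ => ?_
    rw [← sum_neg_distrib]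
    refine sum_congr rfl fun b _ => ?_
    rw [← hc.neg, neg_sub]
  rw [e1, e2] at r2
  unfold XX
  set S := ∑ a ∈ range ((q - 1) / 2), ∑ b ∈ range ((p - 1) / 2),
        c (iota (m / q) ((h : ZMod q) ^ a) - iota (m / p) ((g : ZMod p) ^ b))
  set S' := ∑ a ∈ range ((q - 1) / 2), ∑ b ∈ range ((p - 1) / 2),
        c (iota (m / q) ((h : ZMod q) ^ a) + iota (m / p) ((g : ZMod p) ^ b))
  set U := ∑ i ∈ range k', c (iota (m / q) ((h : ZMod q) ^ i))
  set V := ∑ i ∈ range k, c (iota (m / p) ((g : ZMod p) ^ i))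
  have r3 : (2 : ℤ) • S = - (2 : ℤ) • U + (2 : ℤ) • V := by
    have h1 : (2 : ℤ) • S = (S' + S) - (S' + -S) := by rw [two_smul]; abel
    rw [h1, r1, r2, neg_smul, neg_smul]
    abel
  rw [smul_sub, smul_add, r3, neg_smul]
  abel

/-- the class depends linearly on the distribution -/
lemma XX_map {H : Type*} [AddCommGroup H] (f : G →+ H) (c : ZMod m → G) :
    f (XX m p q g h k k' c) = XX m p q g h k k' (fun a => f (c a)) := by
  unfold XX
  rw [map_sub, map_add, map_sum, map_sum, map_sum]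
  simp only [map_sum]

/-- the exotic class as a function -/
def xf (m p q g h k k' : ℕ) : ZMod m → ℤ := XX m p q g h k k' (fun a => Pi.single a 1)

lemma lc_xf (c : ZMod m → G) : lc c (xf m p q g h k k') = XX m p q g h k k' c := by
  unfold xf
  rw [XX_map]
  congr 1
  funext a
  exact lc_single c a

lemma xf_rel (hpm : p ∣ m) (hqm : q ∣ m) (hp2 : p ≠ 2)
    (hq2 : q ≠ 2) (hg : IsGen p g) (hh : IsGen q h) (hk : (q : ZMod p) = (g : ZMod p) ^ k)
    (hk' : (p : ZMod q) = (h : ZMod q) ^ k') : Rel (xf m p q g h k k') := by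
  intro t
  have hc : OddDist (fun a : ZMod m => saw ((t : ZMod m) * a)) := ⟨fun a => by
    rw [mul_neg]; exact saw_neg _, fun a ha => by
      have h3 : saw (-((t : ZMod m) * a)) = - saw ((t : ZMod m) * a) := saw_neg _
      have h4 : -((t : ZMod m) * a) = (t : ZMod m) * a := by
        linear_combination (-(t : ZMod m)) * ha
      rw [h4] at h3
      change saw ((t : ZMod m) * a) = 0
      omega, fun r e _ hre a => saw_dist_unit hre t a⟩
  have h1 := two_XX hc hpm hqm hp2 hq2 hg hh hk hk'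
  rw [← lc_xf, lc_apply] at h1
  simp only [smul_eq_mul] at h1
  omega

end XX

end Pool.Agent.H180.RS
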