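import Pool.Agent.H180.RS.Core2

/-!
# The reduction of the exotic product of Gauss sums modulo `q`
-/

set_option autoImplicit false
set_option linter.unusedSectionVars false

namespace Pool.Agent.H180.RS

open Finset NumberField

abbrev AI : Type := Pool.Agent.H916K.AI

/-- the inclusion of the algebraic integers -/
noncomputable def ia : AI →+* ℂ := algebraMap AI ℂ

lemma ia_inj : Function.Injective ia := Subtype.val_injective

section JA

variable {L : Type} [Field L] [NumberField L]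

/-- cyclotomic integers as algebraic integers -/
noncomputable def jA (ι : L →+* ℂ) : 𝓞 L →+* AI where
  toFun := fun x => ⟨jj ι x, by
    have h1 : IsIntegral ℤ (x : L) := RingOfIntegers.isIntegral_coe x
    exact h1.map ι.toIntAlgHom⟩
  map_zero' := Subtype.ext (map_zero _)
  map_one' := Subtype.ext (map_one _)
  map_add' := fun x y => Subtype.ext (map_add _ _ _)
  map_mul' := fun x y => Subtype.ext (map_mul _ _ _)

lemma ia_jA (ι : L →+* ℂ) (x : 𝓞 L) : ia (jA ι x) = jj ι x := rfl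

end JA

section Lifts

variable {F : Type} [Field F] [Fintype F]

lemma exists_liftA {χ : MulChar F ℂ} {n : ℕ} (hn : n ≠ 0) (hχ : orderOf χ = n) :
    ∃ χ' : MulChar F AI, χ'.ringHomComp ia = χ := by
  apply exists_lift ia ia_inj
  intro x
  have h1 : IsIntegral ℤ (χ x) := by
    by_cases hx : x = 0
    · rw [hx, MulChar.map_zero]; exact isIntegral_zero
    · have h2 : (χ ^ n) x = 1 := by
        rw [← hχ, pow_orderOf_eq_one]
        exact MulChar.one_apply (isUnit_iff_ne_zero.mpr hx)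
      rw [MulChar.pow_apply' χ hn] at h2
      exact IsIntegral.of_pow (Nat.pos_of_ne_zero hn) (by rw [h2]; exact isIntegral_one)
  exact ⟨⟨χ x, h1⟩, rfl⟩

lemma exists_liftA_add {ℓ : ℕ} [hℓ : Fact ℓ.Prime] (ψ : AddChar (ZMod ℓ) ℂ) (hψ : ψ ≠ 1) :
    ∃ ψ' : AddChar (ZMod ℓ) AI, (∀ x, ia (ψ' x) = ψ x) ∧ ψ' ≠ 1 := by
  obtain ⟨ψ', h⟩ := exists_lift_add ia ia_inj ψ (by
    intro x
    have h2 : ψ x ^ ℓ = 1 := by
      rw [← AddChar.map_nsmul_eq_pow]
      simp
    have h1 : IsIntegral ℤ (ψ x) :=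
      IsIntegral.of_pow hℓ.out.pos (by rw [h2]; exact isIntegral_one)
    exact ⟨⟨ψ x, h1⟩, rfl⟩)
  refine ⟨ψ', h, ?_⟩
  rintro rfl
  apply hψ
  ext x
  rw [← h x]
  simp

end Lifts

section Star

variable {M : ℕ} [NeZero M] {L : Type} [Field L] [NumberField L] [IsCyclotomicExtension {M} ℚ L]
  {ℓ : ℕ} [hℓ : Fact ℓ.Prime] {p q : ℕ} [hp : Fact p.Prime] [hq : Fact q.Prime]
  {k : Type} [Field k] [CharP k q]

/-- the reduction of Gauss sums -/
lemma red_G (Φ : AI →+* k) {β χ : MulChar (ZMod ℓ) AI} {e : ℕ} (hβ : orderOf β = q ^ e)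
    (ψ : AddChar (ZMod ℓ) AI) : Φ (gaussSum (β * χ) ψ) = Φ (gaussSum χ ψ) := by
  unfold gaussSum
  rw [map_sum, map_sum]
  refine sum_congr rfl fun x _ => ?_
  rw [map_mul, map_mul]
  congr 1
  by_cases hx : x = 0
  · rw [hx, MulChar.map_zero, MulChar.map_zero]
  · rw [MulChar.mul_apply, map_mul]
    have h1 : Φ (β x) = 1 := by
      apply Pool.Agent.H916K.pow_one_of_char (q := q) (b := e)
      rw [← map_pow]
      have h2 : β x ^ q ^ e = 1 := Pool.Agent.H916K.mulChar_pow_one hβ hx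
      rw [h2, map_one]
    rw [h1, one_mul]

/-- **The reduction.** -/
theorem star (ι : L →+* ℂ) (Φ : AI →+* k) (hp2 : p ≠ 2) (hq2 : q ≠ 2) (hpq : p ≠ q)
    (hq4 : q % 4 = 1) {α : MulChar (ZMod ℓ) (𝓞 L)} (hα : orderOf α = p)
    {β : MulChar (ZMod ℓ) ℂ} (hβ : orderOf β = q) {ψ : AddChar (ZMod ℓ) ℂ} (hψ : ψ ≠ 1)
    (hℓk : ((ℓ : ℕ) : k) = 1)
    {e : ℤ} (he : ev p q ψ (α.ringHomComp (jj ι)) β = e) (he2 : e = 1 ∨ e = -1) :
    (e : k) * Φ (jA ι (bb (gs p α) (lg p q))) =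
      Φ (jA ι (GG (gs p α) ((p - 1) / 2))) ^ ((q - 1) / 2) * (-1) ^ lg p q := by
  have hpo := hp.out.eq_two_or_odd.resolve_left hp2
  obtain ⟨β', hβ'⟩ := exists_liftA hq.out.ne_zero hβ
  obtain ⟨ψ', hψ', hψ'1⟩ := exists_liftA_add ψ hψ
  have hβ'o : orderOf β' = q := by rw [← orderOf_lift ia ia_inj, hβ', hβ]
  have hprim : ψ'.IsPrimitive := by
    intro a ha h
    apply hψ'1
    ext x
    have h1 : (ψ'.mulShift a) (a⁻¹ * x) = 1 := by rw [h]; rfl
    rw [AddChar.mulShift_apply, mul_inv_cancel_left₀ ha] at h1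
    rw [h1]; rfl
  set α' : MulChar (ZMod ℓ) AI := α.ringHomComp (jA ι) with hα'
  have hα'1 : α'.ringHomComp ia = α.ringHomComp (jj ι) := by
    ext x
    rfl
  have hjA : Function.Injective (jA ι) := by
    intro x y h
    apply jj_inj ι
    rw [← ia_jA, h, ia_jA]
  have hα'o : orderOf α' = p := by rw [hα', orderOf_lift _ hjA, hα]
  -- the square root of `ℓ`
  set r : ℂ := ((Real.sqrt ℓ : ℝ) : ℂ) with hr
  have hr2 : r ^ 2 = ℓ := by
    rw [hr, ← Complex.ofReal_pow, Real.sq_sqrt (by positivity)]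
    norm_cast
  have hr0 : r ≠ 0 := by
    intro h
    rw [h, zero_pow two_ne_zero] at hr2
    have : (ℓ : ℂ) ≠ 0 := by exact_mod_cast hℓ.out.ne_zero
    exact this hr2.symm
  have hrI : IsIntegral ℤ r := by
    apply IsIntegral.of_pow (n := 2) two_pos
    rw [hr2]
    exact isIntegral_algebraMap (R := ℤ) (x := (ℓ : ℤ)) |> fun h => by simpa using h
  set r' : AI := ⟨r, hrI⟩ with hr'
  have hir : ia r' = r := rfl
  have hr'2 : r' ^ 2 = ℓ := by
    apply ia_inj
    rw [map_pow, hir, hr2, map_natCast]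
  set s : k := Φ r' with hs
  have hs2 : s ^ 2 = 1 := by rw [hs, ← map_pow, hr'2, map_natCast, hℓk]
  have hs0 : s ≠ 0 := by
    intro h
    rw [h, zero_pow two_ne_zero] at hs2
    exact zero_ne_one hs2
  -- the equation in the algebraic integers
  set kp := lg p q with hkp
  set kq := lg q p with hkq
  set np := (p - 1) / 2 with hnp
  set nq := (q - 1) / 2 with hnq
  have gl : ∀ (χ : MulChar (ZMod ℓ) AI), ia (gaussSum χ ψ') = gaussSum (χ.ringHomComp ia) ψ :=
    fun χ => gauss_lift ia χ ψ' ψ hψ'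
  have hgne : ∀ i, gaussSum ((α.ringHomComp (jj ι)) ^ gn p ^ i) ψ ≠ 0 := by
    intro i
    apply Pool.Agent.Q59.RL.gauss_ne _ hψ
    intro h
    have h1 := orderOf_pow_gen (α := α) hα (gn_spec p) i
    have h2 : orderOf ((α.ringHomComp (jj ι)) ^ gn p ^ i) = p := by
      rw [MulChar.ringHomComp_pow, orderOf_lift _ (jj_inj ι), h1]
    rw [h, orderOf_one] at h2
    exact hp.out.one_lt.ne h2
  have E1 : (e : AI) * (∏ i ∈ range kp, gaussSum (α' ^ gn p ^ i) ψ') * r' ^ (nq * np + kq) =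
      (∏ a ∈ range nq, ∏ b ∈ range np, gaussSum (β' ^ gn q ^ a * (α' ^ gn p ^ b)⁻¹) ψ') *
        (∏ i ∈ range kq, gaussSum (β' ^ gn q ^ i) ψ') * r' ^ kp := by
    apply ia_inj
    have hinv : ∀ b, ((α' ^ gn p ^ b)⁻¹ : MulChar (ZMod ℓ) AI).ringHomComp ia =
        ((α.ringHomComp (jj ι)) ^ gn p ^ b)⁻¹ := by
      intro b
      have h1 := MulChar.ringHomComp_inv (α' ^ gn p ^ b) ia
      have h2 := MulChar.ringHomComp_pow α' ia (gn p ^ b)
      rw [← h1, ← h2, hα'1]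
    simp only [map_mul, map_pow, map_prod, map_intCast, gl, hir, MulChar.ringHomComp_mul,
      ← MulChar.ringHomComp_pow, hβ', hinv, hα'1]
    rw [← he]
    unfold ev nz
    simp only [prod_div_distrib, prod_const, card_range]
    rw [← hr, ← hkp, ← hkq, ← hnp, ← hnq]
    have h1 : (∏ i ∈ range kp, gaussSum ((α.ringHomComp (jj ι)) ^ gn p ^ i) ψ) ≠ 0 :=
      prod_ne_zero_iff.mpr fun i _ => hgne i
    have h2 : r ^ kp ≠ 0 := pow_ne_zero _ hr0
    have h3 : r ^ kq ≠ 0 := pow_ne_zero _ hr0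
    have h4 : (r ^ np) ^ nq ≠ 0 := pow_ne_zero _ (pow_ne_zero _ hr0)
    have h5 : r ^ (nq * np + kq) = (r ^ np) ^ nq * r ^ kq := by
      rw [← pow_mul, pow_add, mul_comm nq np]
    rw [h5]
    field_simp
  have E2 := congrArg Φ E1
  simp only [map_mul, map_pow, map_prod, map_intCast] at E2
  have hβpow : ∀ a, ∃ c, orderOf (β' ^ gn q ^ a) = q ^ c := fun a => by
    have h1 := orderOf_pow_dvd (x := β') (gn q ^ a)
    rw [hβ'o] at h1
    rcases (Nat.dvd_prime hq.out).mp h1 with h | h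
    · exact ⟨0, by rw [h, pow_zero]⟩
    · exact ⟨1, by rw [h, pow_one]⟩
  have r1 : ∀ a b, Φ (gaussSum (β' ^ gn q ^ a * (α' ^ gn p ^ b)⁻¹) ψ') =
      Φ (gaussSum (α' ^ gn p ^ (b + np)) ψ') := by
    intro a b
    obtain ⟨c, hc⟩ := hβpow a
    rw [red_G Φ hc, ga_add_half hα'o hp2 (gn_spec p)]
  have r2 : ∀ i, Φ (gaussSum (β' ^ gn q ^ i) ψ') = -1 := by
    intro i
    obtain ⟨c, hc⟩ := hβpow i
    have h1 := red_G Φ (χ := 1) hc ψ'
    rw [mul_one] at h1
    rw [h1, gaussSum_one_left hψ'1, map_neg, map_one]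
  simp only [r1, r2, prod_const, card_range] at E2
  -- the `p`-th power
  have hgam : ∀ i, Φ (gaussSum (α' ^ gn p ^ i) ψ') ^ p = Φ (jA ι (gs p α i)) := by
    intro i
    unfold gs
    rw [map_ga, ← map_pow]
    unfold ga
    rw [← hα', ← gam_eq hp.out.two_le (orderOf_pow_gen hα'o (gn_spec p) i) hprim]
  have E3 := congrArg (fun z => z ^ p) E2
  simp only [mul_pow] at E3
  rw [← prod_pow, prod_congr rfl fun i _ => hgam i] at E3
  have e1 : (((∏ b ∈ range np, Φ (gaussSum (α' ^ gn p ^ (b + np)) ψ')) ^ nq) ^ p) =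
      Φ (jA ι (GG (gs p α) np)) ^ nq := by
    rw [← pow_mul, mul_comm nq p, pow_mul, ← prod_pow, prod_congr rfl fun i _ => hgam _]
    congr 1
    unfold GG
    rw [map_prod, map_prod]
  rw [e1] at E3
  have e2 : (∏ i ∈ range kp, Φ (jA ι (gs p α i))) = Φ (jA ι (bb (gs p α) kp)) := by
    unfold bb
    rw [map_prod, map_prod]
  rw [e2] at E3
  have hep : (e : k) ^ p = e := by
    rcases he2 with h | h
    · rw [h]; push_cast; exact one_pow p
    · rw [h]; push_cast; exact (Nat.odd_iff.mpr hpo).neg_one_pow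
  have hsp : ∀ n : ℕ, (s ^ n) ^ p = s ^ n := by
    intro n
    rw [← pow_mul, mul_comm n p, pow_mul]
    congr 1
    obtain ⟨t, ht⟩ := Nat.odd_iff.mpr hpo
    rw [ht, pow_succ, pow_mul, hs2, one_pow, one_mul]
  have hmp : (((-1 : k)) ^ kq) ^ p = (-1) ^ kq := by
    rw [← pow_mul, mul_comm kq p, pow_mul, (Nat.odd_iff.mpr hpo).neg_one_pow]
  rw [hep, hsp, hsp, hmp] at E3
  -- parities
  have hpq0 : ((p : ℕ) : ZMod q) ≠ 0 := by
    rw [Ne, ZMod.natCast_eq_zero_iff]
    intro h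
    exact hpq ((Nat.prime_dvd_prime_iff_eq hq.out hp.out).mp h).symm
  have hqp0 : ((q : ℕ) : ZMod p) ≠ 0 := by
    rw [Ne, ZMod.natCast_eq_zero_iff]
    intro h
    exact hpq ((Nat.prime_dvd_prime_iff_eq hp.out hq.out).mp h)
  have hpar : Even kp ↔ Even kq := by
    rw [hkp, hkq, even_lg hp2 hqp0, even_lg hq2 hpq0]
    exact (ZMod.exists_sq_eq_prime_iff_of_mod_four_eq_one hq4 hp2).symm
  have hsn : s ^ (nq * np + kq) = s ^ kp := by
    have h1 : Even (nq * np) := by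
      apply Even.mul_right
      rw [hnq, Nat.even_iff]
      omega
    obtain ⟨t, ht⟩ := h1
    have h2 : s ^ (nq * np) = 1 := by rw [ht, ← two_mul, pow_mul, hs2, one_pow]
    rw [pow_add, h2, one_mul]
    rcases Nat.even_or_odd kp with h | h
    · obtain ⟨a, ha⟩ := h
      obtain ⟨b, hb⟩ := hpar.mp ⟨a, ha⟩
      rw [ha, hb, ← two_mul, ← two_mul, pow_mul, pow_mul, hs2, one_pow, one_pow]
    · have h' : Odd kq := by
        rw [← Nat.not_even_iff_odd] at h ⊢
        rwa [← hpar]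
      obtain ⟨a, ha⟩ := h
      obtain ⟨b, hb⟩ := h'
      rw [ha, hb, pow_succ, pow_succ, pow_mul, pow_mul, hs2, one_pow, one_pow]
  have hmk : ((-1 : k)) ^ kq = (-1) ^ kp := by
    rcases Nat.even_or_odd kp with h | h
    · rw [h.neg_one_pow, (hpar.mp h).neg_one_pow]
    · have h' : Odd kq := by
        rw [← Nat.not_even_iff_odd] at h ⊢
        rwa [← hpar]
      rw [h.neg_one_pow, h'.neg_one_pow]
  rw [hsn, hmk] at E3
  exact mul_right_cancel₀ (pow_ne_zero kp hs0) E3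

end Star

end Pool.Agent.H180.RS
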