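import Pool.Agent.Q59.RL.Fix

/-!
# Fixed lines are of Hodge type: statement
-/

set_option autoImplicit false

namespace Pool.Agent.H180.RS

open NumberField

/-- **HODGE.** Fixed lines are of Hodge type (Stickelberger). -/
def PropHodge : Prop := ∀ (K : Type) [Field K] [NumberField K] (σ : K →+* ℂ) (m : ℕ), 2 ≤ m →
  ∀ ζ : 𝓞 K, IsPrimitiveRoot ζ m → ∀ s : Multiset (ZMod m × 𝓞 K),
    (∀ z ∈ s, z.1 ≠ 0 ∧ z.2 ≠ 0) → (s.map Prod.fst).sum = 0 → Pool.Agent.Q59.RL.Fixed m σ s →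
    Pool.Agent.H916R2.IsHodge m (s.map Prod.fst)

end Pool.Agent.H180.RS
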