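import Pool.Agent.H180.RS.Red

/-!
# Auxiliary facts on symbols
-/

set_option autoImplicit false
set_option linter.unusedSectionVars false

namespace Pool.Agent.H180.RS

open Finset NumberField

section Sym

/-- Jacobi symbols of squarefree numbers with trivial odd prime factors -/
lemma jac_one {N : ℕ} {n : ℕ} (hn : n ≠ 0) (h : ∀ r : ℕ, r.Prime → r ∣ n → jacobiSym r N = 1) :
    jacobiSym n N = 1 := by
  induction n using induction_on_primes with
  | zero => exact absurd rfl hn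
  | one => simp
  | prime_mul p a hp ih =>
    push_cast
    rw [jacobiSym.mul_left, h p hp (dvd_mul_right p a), one_mul]
    exact ih (right_ne_zero_of_mul hn) fun r hr hra => h r hr (hra.mul_left p)

lemma jac_neg {N : ℕ} (hN : N % 4 = 1) (a : ℤ) : jacobiSym (-a) N = jacobiSym a N := by
  rw [jacobiSym.neg _ (by rw [Nat.odd_iff]; omega), ZMod.χ₄_nat_one_mod_four hN, one_mul]

/-- the symbol of `d` -/
lemma jac_d {N : ℕ} (hN : N % 4 = 1) {d : ℤ} (hd : Squarefree d)
    (h : ∀ r : ℕ, r.Prime → r ≠ 2 → (r : ℤ) ∣ d → jacobiSym r N = 1) :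
    jacobiSym d N = if (2 : ℤ) ∣ d then jacobiSym 2 N else 1 := by
  have key : ∀ n : ℕ, Squarefree n →
      (∀ r : ℕ, r.Prime → r ≠ 2 → r ∣ n → jacobiSym r N = 1) →
      jacobiSym n N = if 2 ∣ n then jacobiSym 2 N else 1 := by
    intro n hn h
    split_ifs with h2
    · obtain ⟨a, rfl⟩ := h2
      obtain ⟨hcop, -, ha⟩ := Nat.squarefree_mul_iff.mp hn
      push_cast
      rw [jacobiSym.mul_left, jac_one ha.ne_zero, mul_one]
      intro r hr hra
      refine h r hr ?_ (hra.mul_left 2)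
      rintro rfl
      have := Nat.Coprime.eq_one_of_dvd hcop hra
      omega
    · refine jac_one hn.ne_zero fun r hr hrn => h r hr ?_ hrn
      rintro rfl
      exact h2 hrn
  have h1 := key d.natAbs (Int.squarefree_natAbs.mpr hd) (fun r hr hr2 hrd =>
    h r hr hr2 (Int.natCast_dvd.mpr hrd))
  have h2 : (2 ∣ d.natAbs) ↔ (2 : ℤ) ∣ d := by
    rw [← Int.natCast_dvd]
    norm_num
  simp only [h2] at h1
  rcases Int.natAbs_eq d with h3 | h3
  · rw [← h3] at h1
    exact h1
  · have h4 : ((d.natAbs : ℕ) : ℤ) = -d := by omega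
    rw [h4, jac_neg hN] at h1
    exact h1

/-- Legendre symbols in characteristic `q` -/
lemma leg_k {q : ℕ} [hq : Fact q.Prime] (hq2 : q ≠ 2) {k : Type} [Field k] [CharP k q] (a : ℤ) :
    ((legendreSym q a : ℤ) : k) = (a : k) ^ ((q - 1) / 2) := by
  have h1 := legendreSym.eq_pow q a
  have h2 := congrArg (ZMod.castHom (dvd_refl q) k) h1
  rw [map_intCast, map_pow, map_intCast] at h2
  have h3 := hq.out.eq_two_or_odd.resolve_left hq2
  have h4 : q / 2 = (q - 1) / 2 := by omega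
  rw [h2, h4]

/-- equality of signs in characteristic different from two -/
lemma sign_eq {q : ℕ} [hq : Fact q.Prime] (hq2 : q ≠ 2) {k : Type} [Field k] [CharP k q] {a b : ℤ}
    (ha : a = 1 ∨ a = -1) (hb : b = 1 ∨ b = -1) (h : (a : k) = b) : a = b := by
  have h2 : (2 : k) ≠ 0 := by
    intro h0
    have h1 : ((2 : ℕ) : k) = 0 := by exact_mod_cast h0
    rw [CharP.cast_eq_zero_iff k q] at h1
    exact hq2 ((Nat.prime_dvd_prime_iff_eq hq.out Nat.prime_two).mp h1)
  rcases ha with rfl | rfl <;> rcases hb with rfl | rfl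
  · rfl
  · exfalso
    push_cast at h
    exact h2 (by linear_combination h)
  · exfalso
    push_cast at h
    exact h2 (by linear_combination (-1 : k) * h)
  · rfl

lemma leg_sign {q : ℕ} [hq : Fact q.Prime] {a : ℤ} (h : ¬ (q : ℤ) ∣ a) :
    legendreSym q a = 1 ∨ legendreSym q a = -1 :=
  legendreSym.eq_one_or_neg_one q (by rwa [Ne, ZMod.intCast_zmod_eq_zero_iff_dvd])

end Sym

section Per

variable {L : Type} [Field L] [NumberField L] {ℓ : ℕ} [hℓ : Fact ℓ.Prime] {p : ℕ}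
  [hp : Fact p.Prime] {k : Type} [Field k]

/-- periodicity of the partial products when `ℓ` maps to one -/
lemma bb_mod (hp2 : p ≠ 2) {α : MulChar (ZMod ℓ) (𝓞 L)} (hα : orderOf α = p) (φ : 𝓞 L →+* k)
    (hℓk : ((ℓ : ℕ) : k) = 1) (a : ℕ) :
    φ (bb (gs p α) a) = φ (bb (gs p α) (a % (p - 1))) := by
  have hodd := hp.out.eq_two_or_odd.resolve_left hp2
  have htwo := hp.out.two_le
  have e2 : a = a % (p - 1) + ((p - 1) / 2 + (p - 1) / 2) * (a / (p - 1)) := by
    rw [show (p - 1) / 2 + (p - 1) / 2 = p - 1 by omega]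
    exact (Nat.mod_add_div _ _).symm
  conv_lhs => rw [e2]
  rw [bb_period' (gs_mul hp2 hα) (gs_period hp2 hα), map_mul, map_pow, map_pow, map_natCast, hℓk,
    one_pow, one_pow, mul_one]

end Per

section Coef

/-- orders of characters divide `ℓ - 1` -/
lemma dvd_sub_one {ℓ p : ℕ} [hℓ : Fact ℓ.Prime] {α : MulChar (ZMod ℓ) ℂ} (hα : orderOf α = p) :
    p ∣ ℓ - 1 := by
  rw [← hα]
  have := MulChar.orderOf_dvd_card_sub_one (ZMod ℓ) α
  rwa [ZMod.card] at this

/-- choice of the sign of `v` -/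
lemma choose_sign {q : ℕ} (hq : q.Prime) (hq2 : q ≠ 2) {x y u v : ℤ} (hx : ¬ (q : ℤ) ∣ x)
    (hy : ¬ (q : ℤ) ∣ y) (huv : IsCoprime u v) :
    ∃ s : ℤ, (s = 1 ∨ s = -1) ∧ ¬ (q : ℤ) ∣ x * (s * v) + y * u := by
  have hq' : Prime (q : ℤ) := Nat.prime_iff_prime_int.mp hq
  have h2 : ¬ (q : ℤ) ∣ 2 := by
    intro h
    have h1 : q ∣ 2 := by exact_mod_cast h
    exact hq2 ((Nat.prime_dvd_prime_iff_eq hq Nat.prime_two).mp h1)
  by_contra hcon
  push Not at hcon
  have h1 := hcon 1 (Or.inl rfl)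
  have h3 := hcon (-1) (Or.inr rfl)
  have h4 : (q : ℤ) ∣ 2 * (y * u) := by
    have := dvd_add h1 h3
    rwa [show x * (1 * v) + y * u + (x * (-1 * v) + y * u) = 2 * (y * u) by ring] at this
  have h5 : (q : ℤ) ∣ 2 * (x * v) := by
    have := dvd_sub h1 h3
    rwa [show x * (1 * v) + y * u - (x * (-1 * v) + y * u) = 2 * (x * v) by ring] at this
  have h6 : (q : ℤ) ∣ u := ((hq'.dvd_or_dvd ((hq'.dvd_or_dvd h4).resolve_left h2)).resolve_left hy)
  have h7 : (q : ℤ) ∣ v := ((hq'.dvd_or_dvd ((hq'.dvd_or_dvd h5).resolve_left h2)).resolve_left hx)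
  exact hq'.not_isUnit (huv.isUnit_of_dvd' h6 h7)

end Coef

end Pool.Agent.H180.RS
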