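import Pool.Agent.Q59.RL.FixLaw

/-!
# The universal odd distribution
-/

set_option autoImplicit false

namespace Pool.Agent.H180.RS

open Finset Pool.Agent.H916R2 Pool.Agent.Q59.FS Pool.Agent.Q59.RL

section Univ

variable (m : ℕ)

/-- the relations of odd distributions -/
def rels : AddSubgroup (ZMod m → ℤ) := AddSubgroup.closure
  ({y | ∃ a : ZMod m, y = Pi.single (-a) 1 + Pi.single a 1} ∪
    ({y | ∃ a : ZMod m, a + a = 0 ∧ y = Pi.single a 1} ∪
    {y | ∃ p d : ℕ, p.Prime ∧ p * d = m ∧ ∃ a : ZMod m,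
      y = ∑ i ∈ range p, Pi.single (a + (i : ZMod m) * (d : ZMod m)) 1 -
        Pi.single ((p : ZMod m) * a) 1}))

/-- the universal odd distribution -/
abbrev UD : Type := (ZMod m → ℤ) ⧸ rels m

/-- the universal odd distribution, the map -/
def cU (a : ZMod m) : UD m := QuotientAddGroup.mk' (rels m) (Pi.single a 1)

lemma cU_oddDist : OddDist (cU m) where
  neg := fun a => by
    rw [eq_neg_iff_add_eq_zero]
    unfold cU
    rw [← map_add]
    exact (QuotientAddGroup.eq_zero_iff _).mpr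
      (AddSubgroup.subset_closure (Or.inl ⟨a, rfl⟩))
  half := fun a ha => (QuotientAddGroup.eq_zero_iff _).mpr
      (AddSubgroup.subset_closure (Or.inr (Or.inl ⟨a, ha, rfl⟩)))
  dist := fun p d hp hpd a => by
    rw [← sub_eq_zero]
    unfold cU
    rw [← map_sum, ← map_sub]
    exact (QuotientAddGroup.eq_zero_iff _).mpr
      (AddSubgroup.subset_closure (Or.inr (Or.inr ⟨p, d, hp, hpd, a, rfl⟩)))

variable {m} [NeZero m] {G : Type*} [AddCommGroup G]

/-- the homomorphism of an odd distribution -/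
def lft (c : ZMod m → G) (hc : OddDist c) : UD m →+ G :=
  QuotientAddGroup.lift (rels m) (lc c) (by
    intro x hx
    refine (AddSubgroup.closure_le (lc c).ker).mpr ?_ hx
    intro y hy
    rw [SetLike.mem_coe, AddMonoidHom.mem_ker]
    rcases hy with ⟨a, rfl⟩ | ⟨a, ha, rfl⟩ | ⟨p, d, hp, hpd, a, rfl⟩
    · rw [map_add, lc_single, lc_single, hc.neg, neg_add_cancel]
    · rw [lc_single, hc.half a ha]
    · rw [map_sub, map_sum, lc_single, ← hc.dist p d hp hpd a, sub_eq_zero]
      exact sum_congr rfl fun i _ => lc_single _ _)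

lemma lft_cU (c : ZMod m → G) (hc : OddDist c) (a : ZMod m) : lft c hc (cU m a) = c a :=
  lc_single c a

lemma lft_mk (c : ZMod m → G) (hc : OddDist c) (y : ZMod m → ℤ) :
    lft c hc (QuotientAddGroup.mk' (rels m) y) = lc c y := rfl

lemma mk_eq (y : ZMod m → ℤ) : QuotientAddGroup.mk' (rels m) y = lc (cU m) y := by
  rw [lc_apply]
  have h1 : y = ∑ a, y a • (Pi.single a 1 : ZMod m → ℤ) := by
    funext b
    rw [Finset.sum_apply]
    simp [Pi.single_apply]
  conv_lhs => rw [h1]
  rw [map_sum]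
  exact sum_congr rfl fun a _ => map_zsmul _ _ _

lemma exists_lc (w : UD m) : ∃ y : ZMod m → ℤ, w = lc (cU m) y := by
  obtain ⟨y, rfl⟩ := QuotientAddGroup.mk'_surjective (rels m) w
  exact ⟨y, mk_eq y⟩

end Univ

end Pool.Agent.H180.RS
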